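import Pool.Agent.Lib.MP_6a3dac_ag.Bert.Defs

/-!
# The algebra of the standard charts
-/

set_option autoImplicit false

namespace Pool.Agent.Lib.MP_6a3dac_ag.Bert

open MvPolynomial
open Pool.Agent.Lib.MP_6a3dac_ag.DNF

namespace Std

variable {R σ : Type} [CommRing R] [DecidableEq σ] [Fintype σ] (U : Std R σ)

theorem a1_vf_apply (e : σ) (f : MvPolynomial σ R) : U.vf e f = U.Δ * pderiv e f -
    ∑ l : {l : σ // l ∉ U.T}, (∑ κ, U.J.adjugate l κ * pderiv e (U.g κ)) * pderiv l.1 f := by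
  unfold vf
  rw [Derivation.sub_apply, Derivation.smul_apply, smul_eq_mul]
  congr 1
  have h : ∀ (t : Finset {l : σ // l ∉ U.T})
      (D : {l : σ // l ∉ U.T} → Derivation R (MvPolynomial σ R) (MvPolynomial σ R)),
      (∑ l ∈ t, D l) f = ∑ l ∈ t, D l f := by
    intro t D
    classical
    induction t using Finset.induction_on with
    | empty => rfl
    | insert a t ha ih => rw [Finset.sum_insert ha, Finset.sum_insert ha, Derivation.add_apply, ih]
  rw [h]
  rfl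

/-- By the definition of `vf` and `J * adjugate J = Δ • 1`. -/
theorem vf_g (e : σ) (κ : {l : σ // l ∉ U.T}) : U.vf e (U.g κ) = 0 := by
  rw [a1_vf_apply]
  have h : ∑ l : {l : σ // l ∉ U.T}, (∑ κ', U.J.adjugate l κ' * pderiv e (U.g κ')) *
      pderiv l.1 (U.g κ) = ∑ κ', (U.J * U.J.adjugate) κ κ' * pderiv e (U.g κ') := by
    simp only [Matrix.mul_apply, Finset.sum_mul]
    rw [Finset.sum_comm]
    refine Finset.sum_congr rfl fun κ' _ => Finset.sum_congr rfl fun l _ => ?_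
    have : U.J κ l = pderiv l.1 (U.g κ) := rfl
    rw [this]
    ring
  rw [h, Matrix.mul_adjugate]
  simp only [Matrix.smul_apply, Matrix.one_apply, smul_eq_mul, mul_ite, mul_one, mul_zero,
    ite_mul, zero_mul]
  rw [Finset.sum_ite_eq]
  rw [if_pos (Finset.mem_univ _)]
  unfold Δ
  ring

theorem vf_X (e : σ) {e' : σ} (he' : e' ∈ U.T) :
    U.vf e (X e') = if e = e' then U.Δ else 0 := by
  rw [a1_vf_apply]
  have h : ∀ l : {l : σ // l ∉ U.T}, pderiv l.1 (X e' : MvPolynomial σ R) = 0 := by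
    intro l
    apply pderiv_X_of_ne
    intro h
    exact l.2 (h ▸ he')
  simp only [h, mul_zero, Finset.sum_const_zero, sub_zero]
  by_cases hee : e = e'
  · subst hee
    rw [pderiv_X_self, mul_one, if_pos rfl]
  · rw [pderiv_X_of_ne (fun h => hee h.symm), mul_zero, if_neg hee]

theorem a2_vf_span (e : σ) {f : MvPolynomial σ R} (hf : f ∈ Ideal.span (Set.range U.g)) :
    U.vf e f ∈ Ideal.span (Set.range U.g) := by
  induction hf using Submodule.span_induction with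
  | mem x hx =>
    obtain ⟨κ, rfl⟩ := hx
    rw [vf_g]
    exact Ideal.zero_mem _
  | zero => rw [map_zero]; exact Ideal.zero_mem _
  | add x y _ _ hx hy => rw [map_add]; exact Ideal.add_mem _ hx hy
  | smul a x hx hx' =>
    rw [smul_eq_mul, Derivation.leibniz, smul_eq_mul, smul_eq_mul]
    exact Ideal.add_mem _ (Ideal.mul_mem_left _ _ hx') (Ideal.mul_mem_right _ _ hx)

/-- From `s * f = ∑ κ, c κ * g κ` one gets `s * vf e f + f * vf e s ∈ span (g)`, so
`s ^ 2 * vf e f ∈ span (g)`. -/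
theorem sq_mul_vf_mem {I : Ideal (MvPolynomial σ R)} (hU : U.For I) (e : σ)
    {f : MvPolynomial σ R} (hf : f ∈ I) : U.s ^ 2 * U.vf e f ∈ Ideal.span (Set.range U.g) := by
  have h1 := hU.le f hf
  have h2 := a2_vf_span U e h1
  rw [Derivation.leibniz, smul_eq_mul, smul_eq_mul] at h2
  have h3 : U.s ^ 2 * U.vf e f = U.s * (U.s * U.vf e f + f * U.vf e U.s) -
      U.vf e U.s * (U.s * f) := by ring
  rw [h3]
  exact Ideal.sub_mem _ (Ideal.mul_mem_left _ _ h2) (Ideal.mul_mem_left _ _ h1)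

theorem vf_mem {I 𝔮 : Ideal (MvPolynomial σ R)} (hU : U.For I) (h𝔮 : 𝔮.IsPrime) (hI : I ≤ 𝔮)
    (hh : U.h ∉ 𝔮) (e : σ) {f : MvPolynomial σ R} (hf : f ∈ 𝔮 ^ 2 ⊔ I) : U.vf e f ∈ 𝔮 := by
  obtain ⟨a, ha, b, hb, rfl⟩ := Submodule.mem_sup.1 hf
  rw [map_add]
  refine Ideal.add_mem _ ?_ ?_
  · rw [pow_two] at ha
    refine Submodule.mul_induction_on ha ?_ ?_
    · intro m hm n hn
      rw [Derivation.leibniz, smul_eq_mul, smul_eq_mul]
      exact Ideal.add_mem _ (Ideal.mul_mem_right _ _ hm) (Ideal.mul_mem_right _ _ hn)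
    · intro m n hm hn
      rw [map_add]
      exact Ideal.add_mem _ hm hn
  · have h1 := sq_mul_vf_mem U hU e hb
    have h2 : Ideal.span (Set.range U.g) ≤ 𝔮 := by
      rw [Ideal.span_le]
      rintro _ ⟨κ, rfl⟩
      exact hI (hU.mem κ)
    rcases h𝔮.mem_or_mem (h2 h1) with h3 | h3
    · exact absurd (Ideal.mul_mem_right U.Δ 𝔮 (h𝔮.mem_of_pow_mem 2 h3)) hh
    · exact h3

theorem le_of_g_mem {I 𝔮 : Ideal (MvPolynomial σ R)} (hU : U.For I) (h𝔮 : 𝔮.IsPrime)
    (hh : U.h ∉ 𝔮) (hg : ∀ κ, U.g κ ∈ 𝔮) : I ≤ 𝔮 := by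
  intro f hf
  have h2 : Ideal.span (Set.range U.g) ≤ 𝔮 := by
    rw [Ideal.span_le]
    rintro _ ⟨κ, rfl⟩
    exact hg κ
  rcases h𝔮.mem_or_mem (h2 (hU.le f hf)) with h3 | h3
  · exact absurd (Ideal.mul_mem_right U.Δ 𝔮 h3) hh
  · exact h3

/-- Cramer's rule: from `∑ l, w l * φ (∂ g κ / ∂ x l) = 0` for all `κ` one gets, for
`l ∉ T`, `φ Δ * w l = - ∑ κ, φ (adj l κ) * ∑ e ∈ T, w e * φ (∂ g κ / ∂ x e)`. -/
theorem cramer {A : Type} [CommRing A] (φ : MvPolynomial σ R →+* A) (w : σ → A)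
    (hw : ∀ κ, ∑ l, w l * φ (pderiv l (U.g κ)) = 0) (f : MvPolynomial σ R) :
    φ U.Δ * ∑ l, w l * φ (pderiv l f) = ∑ e ∈ U.T, w e * φ (U.vf e f) := by
  have split : ∀ F : σ → A, ∑ l, F l = ∑ e ∈ U.T, F e + ∑ l : {l : σ // l ∉ U.T}, F l.1 := by
    intro F
    rw [← Finset.sum_add_sum_compl U.T F]
    congr 1
    exact Finset.sum_subtype _ (fun l => by rw [Finset.mem_compl]) F
  have h1 : ∀ κ, ∑ e ∈ U.T, w e * φ (pderiv e (U.g κ)) =
      - ∑ l : {l : σ // l ∉ U.T}, w l.1 * φ (U.J κ l) := by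
    intro κ
    have h := hw κ
    rw [split] at h
    exact eq_neg_of_add_eq_zero_left h
  have h2 : ∀ l : {l : σ // l ∉ U.T}, φ U.Δ * w l.1 =
      - ∑ κ, φ (U.J.adjugate l κ) * ∑ e ∈ U.T, w e * φ (pderiv e (U.g κ)) := by
    intro l
    have h3 : ∑ κ, φ (U.J.adjugate l κ) * ∑ e ∈ U.T, w e * φ (pderiv e (U.g κ)) =
        - ∑ l' : {l : σ // l ∉ U.T}, w l'.1 * φ ((U.J.adjugate * U.J) l l') := by
      simp only [h1, Matrix.mul_apply, map_sum, map_mul, mul_neg, Finset.mul_sum,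
        Finset.sum_neg_distrib]
      rw [Finset.sum_comm]
      congr 1
      refine Finset.sum_congr rfl fun l' _ => Finset.sum_congr rfl fun κ _ => ?_
      ring
    rw [h3, Matrix.adjugate_mul]
    simp only [Matrix.smul_apply, Matrix.one_apply, smul_eq_mul, mul_ite, mul_one, mul_zero,
      neg_neg]
    rw [Finset.sum_eq_single l]
    · rw [if_pos rfl]
      unfold Δ
      ring
    · intro l' _ hl'
      rw [if_neg (fun h => hl' h.symm), map_zero, mul_zero]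
    · intro h
      exact absurd (Finset.mem_univ _) h
  have h4 : ∑ e ∈ U.T, w e * φ (U.vf e f) = φ U.Δ * ∑ e ∈ U.T, w e * φ (pderiv e f) -
      ∑ l : {l : σ // l ∉ U.T}, (∑ κ, φ (U.J.adjugate l κ) *
        ∑ e ∈ U.T, w e * φ (pderiv e (U.g κ))) * φ (pderiv l.1 f) := by
    simp only [a1_vf_apply, map_sub, map_mul, map_sum, mul_sub, Finset.sum_sub_distrib,
      Finset.mul_sum, Finset.sum_mul]
    congr 1
    · refine Finset.sum_congr rfl fun e _ => ?_
      ring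
    · rw [Finset.sum_comm]
      refine Finset.sum_congr rfl fun l _ => ?_
      rw [Finset.sum_comm]
      refine Finset.sum_congr rfl fun κ _ => Finset.sum_congr rfl fun e _ => ?_
      ring
  rw [h4, split, mul_add, sub_eq_add_neg]
  congr 1
  rw [Finset.mul_sum, ← Finset.sum_neg_distrib]
  refine Finset.sum_congr rfl fun l _ => ?_
  rw [← mul_assoc, h2 l]
  ring

section Map

variable {S : Type} [CommRing S] (φ : R →+* S)

theorem a4_J : (U.map φ).J = (MvPolynomial.map φ).mapMatrix U.J := by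
  ext1 κ l
  change pderiv l.1 (MvPolynomial.map φ (U.g κ)) = MvPolynomial.map φ (pderiv l.1 (U.g κ))
  exact pderiv_map

theorem map_Δ : (U.map φ).Δ = MvPolynomial.map φ U.Δ := by
  unfold Δ
  rw [RingHom.map_det, a4_J]
  rfl

theorem map_h : (U.map φ).h = MvPolynomial.map φ U.h := by
  unfold h
  rw [map_mul, ← map_Δ]
  rfl

theorem a4_coef (e : σ) (l : {l : σ // l ∉ U.T}) :
    ∑ κ, (U.map φ).J.adjugate l κ * pderiv e ((U.map φ).g κ) =
      MvPolynomial.map φ (∑ κ, U.J.adjugate l κ * pderiv e (U.g κ)) := by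
  rw [map_sum]
  have h1 : (U.map φ).J.adjugate = (MvPolynomial.map φ).mapMatrix U.J.adjugate := by
    rw [a4_J, RingHom.map_adjugate]
    rfl
  rw [h1]
  refine Finset.sum_congr rfl fun κ _ => ?_
  rw [map_mul, ← pderiv_map]
  rfl

theorem map_vf (e : σ) (f : MvPolynomial σ R) :
    (U.map φ).vf e (MvPolynomial.map φ f) = MvPolynomial.map φ (U.vf e f) := by
  rw [a1_vf_apply, a1_vf_apply, map_sub, map_mul, map_sum, map_Δ, pderiv_map]
  congr 1
  refine Finset.sum_congr rfl fun l _ => ?_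
  have h1 := a4_coef U φ e l
  rw [map_mul, ← h1, pderiv_map]

theorem map_hess (f : MvPolynomial σ R) :
    ((U.map φ).hess (MvPolynomial.map φ f)).det = MvPolynomial.map φ (U.hess f).det := by
  rw [RingHom.map_det]
  have h1 : (U.map φ).hess (MvPolynomial.map φ f) = (MvPolynomial.map φ).mapMatrix (U.hess f) := by
    ext1 e e'
    change (U.map φ).vf e.1 ((U.map φ).vf e'.1 (MvPolynomial.map φ f)) =
      MvPolynomial.map φ (U.vf e.1 (U.vf e'.1 f))
    rw [map_vf, map_vf]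
  rw [h1]
  rfl

theorem For.map {I : Ideal (MvPolynomial σ R)} (hU : U.For I) (hφ : Function.Surjective φ) :
    (U.map φ).For (I.map (MvPolynomial.map φ)) := by
  refine ⟨fun κ => Ideal.mem_map_of_mem _ (hU.mem κ), ?_⟩
  intro f hf
  rw [Ideal.mem_map_iff_of_surjective _ (MvPolynomial.map_surjective φ hφ)] at hf
  obtain ⟨f', hf', rfl⟩ := hf
  have h1 : MvPolynomial.map φ (U.s * f') ∈
      (Ideal.span (Set.range U.g)).map (MvPolynomial.map φ) :=
    Ideal.mem_map_of_mem _ (hU.le f' hf')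
  rw [Ideal.map_span, ← Set.range_comp, map_mul] at h1
  exact h1

end Map

/-- A bound for the degrees. -/
noncomputable def deg : ℕ :=
  1 + ∑ κ, (U.g κ).totalDegree + (1 + U.h.totalDegree) + U.Δ.totalDegree +
    ∑ e : σ, ∑ l : {l : σ // l ∉ U.T},
      (∑ κ, U.J.adjugate l κ * pderiv e (U.g κ)).totalDegree

theorem a5_totalDegree_pderiv (l : σ) (p : MvPolynomial σ R) :
    (pderiv l p).totalDegree ≤ p.totalDegree := by
  classical
  have h := MvPolynomial.as_sum p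
  conv_lhs => rw [h]
  rw [map_sum]
  refine (totalDegree_finsetSum _ _).trans (Finset.sup_le fun s hs => ?_)
  rw [pderiv_monomial]
  refine (totalDegree_monomial_le _ _).trans ?_
  refine le_trans ?_ (le_totalDegree hs)
  have h1 : (s - Finsupp.single l 1).degree ≤ s.degree := Finsupp.degree_mono tsub_le_self
  exact h1

theorem a5_totalDegree_map {S : Type} [CommRing S] (f : R →+* S)
    (p : MvPolynomial σ R) : (MvPolynomial.map f p).totalDegree ≤ p.totalDegree :=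
  Finset.sup_mono (support_map_subset _ _)

theorem totalDegree_vf_le (e : σ) (f : MvPolynomial σ R) :
    (U.vf e f).totalDegree ≤ U.deg + f.totalDegree := by
  rw [a1_vf_apply]
  refine (totalDegree_sub _ _).trans (max_le ?_ ?_)
  · refine (totalDegree_mul _ _).trans (Nat.add_le_add ?_ (a5_totalDegree_pderiv e f))
    unfold deg
    omega
  · refine (totalDegree_finsetSum _ _).trans (Finset.sup_le fun l _ => ?_)
    refine (totalDegree_mul _ _).trans (Nat.add_le_add ?_ (a5_totalDegree_pderiv l.1 f))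
    have h1 : (∑ κ, U.J.adjugate l κ * pderiv e (U.g κ)).totalDegree ≤
        ∑ l : {l : σ // l ∉ U.T}, (∑ κ, U.J.adjugate l κ * pderiv e (U.g κ)).totalDegree :=
      Finset.single_le_sum (f := fun l : {l : σ // l ∉ U.T} =>
        (∑ κ, U.J.adjugate l κ * pderiv e (U.g κ)).totalDegree) (fun _ _ => Nat.zero_le _)
        (Finset.mem_univ l)
    have h2 : ∑ l : {l : σ // l ∉ U.T}, (∑ κ, U.J.adjugate l κ * pderiv e (U.g κ)).totalDegree ≤
        ∑ e : σ, ∑ l : {l : σ // l ∉ U.T},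
          (∑ κ, U.J.adjugate l κ * pderiv e (U.g κ)).totalDegree :=
      Finset.single_le_sum (f := fun e : σ => ∑ l : {l : σ // l ∉ U.T},
        (∑ κ, U.J.adjugate l κ * pderiv e (U.g κ)).totalDegree) (fun _ _ => Nat.zero_le _)
        (Finset.mem_univ e)
    unfold deg
    omega

theorem deg_map_le {S : Type} [CommRing S] (φ : R →+* S) : (U.map φ).deg ≤ U.deg := by
  unfold deg
  have h1 : ∑ κ, ((U.map φ).g κ).totalDegree ≤ ∑ κ, (U.g κ).totalDegree :=
    Finset.sum_le_sum fun κ _ => a5_totalDegree_map φ (U.g κ)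
  have h2 : (U.map φ).h.totalDegree ≤ U.h.totalDegree := by
    rw [map_h]
    exact a5_totalDegree_map φ U.h
  have h3 : (U.map φ).Δ.totalDegree ≤ U.Δ.totalDegree := by
    rw [map_Δ]
    exact a5_totalDegree_map φ U.Δ
  have h4 : ∑ e : σ, ∑ l : {l : σ // l ∉ (U.map φ).T},
      (∑ κ, (U.map φ).J.adjugate l κ * pderiv e ((U.map φ).g κ)).totalDegree ≤
      ∑ e : σ, ∑ l : {l : σ // l ∉ U.T},
        (∑ κ, U.J.adjugate l κ * pderiv e (U.g κ)).totalDegree := by
    refine Finset.sum_le_sum fun e _ => Finset.sum_le_sum fun l _ => ?_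
    have h5 := a4_coef U φ e l
    rw [h5]
    exact a5_totalDegree_map φ _
  omega

/-- If `s * C ϖ = s * a + ∑ κ, c κ * g κ` with `a ∈ 𝔮 ^ 2`, apply `∂ / ∂ x l` for
`l ∉ T`: `∑ κ, c κ * ∂ g κ / ∂ x l ∈ 𝔮`, so `Δ * c κ ∈ 𝔮` and `c κ ∈ 𝔮`. Hence `s * C ϖ ∈ 𝔮 ^ 2`,
and `C ϖ ∈ 𝔮 ^ 2`, as `𝔮` is maximal. -/
theorem mem_sq_of_mem {I 𝔮 : Ideal (MvPolynomial σ R)} (hU : U.For I) (h𝔮 : 𝔮.IsMaximal)
    (hI : I ≤ 𝔮) (hh : U.h ∉ 𝔮) {ϖ : R} (hϖ : C ϖ ∈ 𝔮) (h : C ϖ ∈ 𝔮 ^ 2 ⊔ I) :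
    (C ϖ : MvPolynomial σ R) ∈ 𝔮 ^ 2 := by
  have hs : U.s ∉ 𝔮 := fun h => hh (Ideal.mul_mem_right U.Δ 𝔮 h)
  have hΔ : U.Δ ∉ 𝔮 := fun h => hh (Ideal.mul_mem_left 𝔮 U.s h)
  obtain ⟨a, ha, b, hb, hab⟩ := Submodule.mem_sup.1 h
  obtain ⟨c, hc⟩ := (Ideal.mem_span_range_iff_exists_fun).1 (hU.le b hb)
  have hd2 : ∀ (l : σ) (f : MvPolynomial σ R), f ∈ 𝔮 ^ 2 → pderiv l f ∈ 𝔮 := by
    intro l f hf
    rw [pow_two] at hf
    refine Submodule.mul_induction_on hf ?_ ?_
    · intro m hm n hn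
      rw [Derivation.leibniz, smul_eq_mul, smul_eq_mul]
      exact Ideal.add_mem _ (Ideal.mul_mem_right _ _ hm) (Ideal.mul_mem_right _ _ hn)
    · intro m n hm hn
      rw [map_add]
      exact Ideal.add_mem _ hm hn
  have h1 : ∀ l : {l : σ // l ∉ U.T}, ∑ κ, c κ * U.J κ l ∈ 𝔮 := by
    intro l
    have e1 : U.s * C ϖ = U.s * a + ∑ κ, c κ * U.g κ := by
      rw [hc, ← hab]
      ring
    have e2 := congrArg (pderiv l.1) e1
    rw [map_add, map_sum, Derivation.leibniz, pderiv_C, smul_zero, zero_add, smul_eq_mul] at e2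
    have e3 : ∑ κ, c κ * U.J κ l = C ϖ * pderiv l.1 U.s - pderiv l.1 (U.s * a) -
        ∑ κ, U.g κ * pderiv l.1 (c κ) := by
      have e4 : ∑ κ, pderiv l.1 (c κ * U.g κ) =
          ∑ κ, c κ * U.J κ l + ∑ κ, U.g κ * pderiv l.1 (c κ) := by
        rw [← Finset.sum_add_distrib]
        refine Finset.sum_congr rfl fun κ _ => ?_
        rw [Derivation.leibniz, smul_eq_mul, smul_eq_mul]
        rfl
      rw [e4] at e2
      rw [e2]
      ring
    rw [e3]
    refine Ideal.sub_mem _ (Ideal.sub_mem _ (Ideal.mul_mem_right _ _ hϖ) ?_) ?_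
    · exact hd2 _ _ (Ideal.mul_mem_left _ _ ha)
    · exact Ideal.sum_mem _ fun κ _ => Ideal.mul_mem_right _ _ (hI (hU.mem κ))
  have h2 : ∀ κ, c κ ∈ 𝔮 := by
    intro κ
    have e1 : c κ * U.Δ = ∑ l, (∑ κ', c κ' * U.J κ' l) * U.J.adjugate l κ := by
      have e2 : ∑ l, (∑ κ', c κ' * U.J κ' l) * U.J.adjugate l κ =
          ∑ κ', c κ' * (U.J * U.J.adjugate) κ' κ := by
        simp only [Matrix.mul_apply, Finset.sum_mul, Finset.mul_sum]
        rw [Finset.sum_comm]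
        refine Finset.sum_congr rfl fun κ' _ => Finset.sum_congr rfl fun l _ => ?_
        ring
      rw [e2, Matrix.mul_adjugate, Finset.sum_eq_single κ]
      · simp only [Matrix.smul_apply, Matrix.one_apply_eq, smul_eq_mul, mul_one]
        rfl
      · intro κ' _ hκ'
        simp only [Matrix.smul_apply, Matrix.one_apply_ne hκ', smul_eq_mul, mul_zero]
      · intro h
        exact absurd (Finset.mem_univ _) h
    have e3 : c κ * U.Δ ∈ 𝔮 := by
      rw [e1]
      exact Ideal.sum_mem _ fun l _ => Ideal.mul_mem_right _ _ (h1 l)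
    exact (h𝔮.isPrime.mem_or_mem e3).resolve_right hΔ
  have h3 : U.s * C ϖ ∈ 𝔮 ^ 2 := by
    have e1 : U.s * C ϖ = U.s * a + ∑ κ, c κ * U.g κ := by
      rw [hc, ← hab]
      ring
    rw [e1]
    refine Ideal.add_mem _ (Ideal.mul_mem_left _ _ ha) (Ideal.sum_mem _ fun κ _ => ?_)
    rw [pow_two]
    exact Ideal.mul_mem_mul (h2 κ) (hI (hU.mem κ))
  obtain ⟨t, ht⟩ := h𝔮.exists_inv hs
  have h4 : (C ϖ : MvPolynomial σ R) = t * (U.s * C ϖ) + (1 - t * U.s) * C ϖ := by ring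
  rw [h4]
  refine Ideal.add_mem _ (Ideal.mul_mem_left _ _ h3) ?_
  rw [pow_two]
  refine Ideal.mul_mem_mul ?_ hϖ
  obtain ⟨i, hi, hti⟩ := ht
  have : 1 - t * U.s = i := by
    rw [← hti]
    ring
  rw [this]
  exact hi

end Std

end Pool.Agent.Lib.MP_6a3dac_ag.Bert
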