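import Pool.Agent.Lib.MP_6a3dac_ag.DNF.Hyper

/-!
# Regular models of disjoint unions
-/

set_option autoImplicit false

namespace Pool.Agent.Lib.MP_6a3dac_ag.Bert

open CategoryTheory Limits AlgebraicGeometry NumberField
open Pool.Agent.Lib.MP_6a3dac_ag.DNF

theorem isProper_coprodDesc {X Y S : Scheme.{0}} (f : X ⟶ S) (g : Y ⟶ S) [IsProper f]
    [IsProper g] : IsProper (coprod.desc f g) := by
  have h1 : coprod.desc f g = coprod.map f g ≫ coprod.desc (𝟙 S) (𝟙 S) := by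
    simp
  rw [h1]
  have h2 : IsProper (coprod.map f g) :=
    IsZariskiLocalAtTarget.coprodMap (P := @IsProper) f g ‹_› ‹_›
  infer_instance

set_option backward.isDefEq.respectTransparency.types false in
theorem flat_coprodDesc {X Y S : Scheme.{0}} (f : X ⟶ S) (g : Y ⟶ S) [Flat f] [Flat g] :
    Flat (coprod.desc f g) := by
  rw [IsZariskiLocalAtSource.iff_of_openCover (P := @Flat) (coprodOpenCover.{0, 0} X Y)]
  rintro (x | x)
  · change Flat (coprod.inl ≫ coprod.desc f g)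
    rw [coprod.inl_desc]
    infer_instance
  · change Flat (coprod.inr ≫ coprod.desc f g)
    rw [coprod.inr_desc]
    infer_instance

theorem c1_stalk {X Y : Scheme.{0}} (f : X ⟶ Y) [IsOpenImmersion f] (x : X)
    (h : IsRegularLocalRing (X.presheaf.stalk x)) :
    IsRegularLocalRing (Y.presheaf.stalk (f x)) := by
  have e := (asIso (f.stalkMap x)).commRingCatIsoToRingEquiv
  exact IsRegularLocalRing.of_ringEquiv e.symm

theorem isRegularLocalRing_stalk_coprod {X Y : Scheme.{0}}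
    (hX : ∀ x : X, IsRegularLocalRing (X.presheaf.stalk x))
    (hY : ∀ y : Y, IsRegularLocalRing (Y.presheaf.stalk y)) (z : (X ⨿ Y : Scheme.{0})) :
    IsRegularLocalRing ((X ⨿ Y : Scheme.{0}).presheaf.stalk z) := by
  obtain ⟨(x | x), rfl⟩ := (coprodMk X Y).surjective z
  · rw [coprodMk_inl]
    exact c1_stalk _ x (hX x)
  · rw [coprodMk_inr]
    exact c1_stalk _ x (hY x)

/-- Transport of a model along an isomorphism. -/
theorem HasRegularModel.of_iso {E : Type} [Field E] {X X' : Scheme.{0}}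
    {π : X ⟶ Spec (CommRingCat.of E)} {π' : X' ⟶ Spec (CommRingCat.of E)}
    (h : HasRegularModel E π') (e : X' ≅ X) (he : e.hom ≫ π = π') : HasRegularModel E π := by
  obtain ⟨Y, g, h1, h2, h3, e', he'⟩ := h
  exact ⟨Y, g, h1, h2, h3, e' ≪≫ e, by rw [Iso.trans_hom, Category.assoc, he, he']⟩

/-- The empty scheme. -/
theorem HasRegularModel.of_isEmpty {E : Type} [Field E] {X : Scheme.{0}} [IsEmpty X]
    (π : X ⟶ Spec (CommRingCat.of E)) : HasRegularModel E π := by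
  have h0 : IsEmpty (pullback (Scheme.emptyTo (Spec (CommRingCat.of (𝓞 E))))
      (Spec.map (CommRingCat.ofHom (algebraMap (𝓞 E) E))) : Scheme.{0}) :=
    ⟨fun x => isEmptyElim ((pullback.fst (Scheme.emptyTo (Spec (CommRingCat.of (𝓞 E))))
      (Spec.map (CommRingCat.ofHom (algebraMap (𝓞 E) E)))) x)⟩
  refine ⟨∅, Scheme.emptyTo _, ?_, ?_, fun y => isEmptyElim y, ?_⟩
  · infer_instance
  · infer_instance
  · refine ⟨isInitialOfIsEmpty.uniqueUpToIso isInitialOfIsEmpty, ?_⟩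
    exact isInitialOfIsEmpty.hom_ext _ _

theorem c3_square {A B S T : Scheme.{0}} (i : A ⟶ B) (g : B ⟶ S) (b : T ⟶ S) :
    IsPullback (pullback.map (i ≫ g) b g b i (𝟙 T) (𝟙 S) (by simp) (by simp))
      (pullback.fst (i ≫ g) b) (pullback.fst g b) i := by
  refine IsPullback.of_right (h₁₂ := pullback.snd g b) (h₂₂ := g) (v₁₃ := b) ?_
    (by unfold pullback.map; rw [pullback.lift_fst]) (IsPullback.of_hasPullback g b).flip
  have h : pullback.map (i ≫ g) b g b i (𝟙 T) (𝟙 S) (by simp) (by simp) ≫ pullback.snd g b =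
      pullback.snd (i ≫ g) b := by
    unfold pullback.map
    rw [pullback.lift_snd, Category.comp_id]
  rw [h]
  exact (IsPullback.of_hasPullback (i ≫ g) b).flip

theorem c3_aux {A B S T : Scheme.{0}} (i : A ⟶ B) [IsOpenImmersion i] (g : B ⟶ S) (h : A ⟶ S)
    (hg : i ≫ g = h) (b : T ⟶ S) :
    ∃ j : pullback h b ⟶ pullback g b, ∃ _ : IsOpenImmersion j,
      j ≫ pullback.snd g b = pullback.snd h b ∧
      j.opensRange = pullback.fst g b ⁻¹ᵁ i.opensRange := by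
  subst hg
  have hs := c3_square i g b
  have hj : IsOpenImmersion (pullback.map (i ≫ g) b g b i (𝟙 T) (𝟙 S) (by simp) (by simp)) :=
    MorphismProperty.of_isPullback (P := @IsOpenImmersion) hs.flip ‹_›
  refine ⟨_, hj, by unfold pullback.map; rw [pullback.lift_snd, Category.comp_id], ?_⟩
  rw [← Scheme.Hom.opensRange_pullbackFst, ← Scheme.Hom.opensRange_comp_of_isIso
    hs.isoPullback.hom]
  congr 1
  exact hs.isoPullback_hom_fst.symm

theorem c3_main {S T X X₁ X₂ Y₁ Y₂ : Scheme.{0}} {π : X ⟶ T} (f₁ : X₁ ⟶ X) (f₂ : X₂ ⟶ X)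
    [IsOpenImmersion f₁] [IsOpenImmersion f₂] (hc : IsCompl f₁.opensRange f₂.opensRange)
    (g₁ : Y₁ ⟶ S) (g₂ : Y₂ ⟶ S) (b : T ⟶ S) (e₁ : pullback g₁ b ≅ X₁)
    (e₂ : pullback g₂ b ≅ X₂) (he₁ : e₁.hom ≫ f₁ ≫ π = pullback.snd g₁ b)
    (he₂ : e₂.hom ≫ f₂ ≫ π = pullback.snd g₂ b) :
    ∃ e : pullback (coprod.desc g₁ g₂) b ≅ X, e.hom ≫ π = pullback.snd (coprod.desc g₁ g₂) b := by
  obtain ⟨j₁, hj₁, s₁, t₁⟩ := c3_aux (coprod.inl : Y₁ ⟶ Y₁ ⨿ Y₂) (coprod.desc g₁ g₂) g₁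
    (coprod.inl_desc _ _) b
  obtain ⟨j₂, hj₂, s₂, t₂⟩ := c3_aux (coprod.inr : Y₂ ⟶ Y₁ ⨿ Y₂) (coprod.desc g₁ g₂) g₂
    (coprod.inr_desc _ _) b
  have hc' : IsCompl j₁.opensRange j₂.opensRange := by
    rw [t₁, t₂]
    have h1 := isCompl_opensRange_inl_inr Y₁ Y₂
    rw [isCompl_iff, disjoint_iff, codisjoint_iff] at h1 ⊢
    rw [← Scheme.Hom.preimage_inf, ← Scheme.Hom.preimage_sup, h1.1, h1.2]
    exact ⟨rfl, rfl⟩
  have hd : IsCompl (e₁.hom ≫ f₁).opensRange (e₂.hom ≫ f₂).opensRange := by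
    rwa [Scheme.Hom.opensRange_comp_of_isIso, Scheme.Hom.opensRange_comp_of_isIso]
  obtain ⟨l⟩ := nonempty_isColimit_binaryCofanMk_of_isCompl j₁ j₂ hc'
  obtain ⟨l'⟩ := nonempty_isColimit_binaryCofanMk_of_isCompl (e₁.hom ≫ f₁) (e₂.hom ≫ f₂) hd
  obtain ⟨e, m₁, m₂⟩ : ∃ e : pullback (coprod.desc g₁ g₂) b ≅ X,
      j₁ ≫ e.hom = e₁.hom ≫ f₁ ∧ j₂ ≫ e.hom = e₂.hom ≫ f₂ :=
    ⟨l.coconePointUniqueUpToIso l', l.comp_coconePointUniqueUpToIso_hom l' ⟨WalkingPair.left⟩,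
      l.comp_coconePointUniqueUpToIso_hom l' ⟨WalkingPair.right⟩⟩
  have n₁ : j₁ ≫ e.hom ≫ π = j₁ ≫ pullback.snd (coprod.desc g₁ g₂) b := by
    rw [s₁, ← Category.assoc, m₁, Category.assoc, he₁]
  have n₂ : j₂ ≫ e.hom ≫ π = j₂ ≫ pullback.snd (coprod.desc g₁ g₂) b := by
    rw [s₂, ← Category.assoc, m₂, Category.assoc, he₂]
  exact ⟨e, BinaryCofan.IsColimit.hom_ext l n₁ n₂⟩

/-- Two complementary open subschemes. -/
theorem HasRegularModel.of_isCompl {E : Type} [Field E] {X X₁ X₂ : Scheme.{0}}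
    {π : X ⟶ Spec (CommRingCat.of E)} (f₁ : X₁ ⟶ X) (f₂ : X₂ ⟶ X) [IsOpenImmersion f₁]
    [IsOpenImmersion f₂] (hc : IsCompl f₁.opensRange f₂.opensRange)
    (h₁ : HasRegularModel E (f₁ ≫ π)) (h₂ : HasRegularModel E (f₂ ≫ π)) :
    HasRegularModel E π := by
  obtain ⟨Y₁, g₁, p₁, q₁, r₁, e₁, he₁⟩ := h₁
  obtain ⟨Y₂, g₂, p₂, q₂, r₂, e₂, he₂⟩ := h₂
  exact ⟨Y₁ ⨿ Y₂, coprod.desc g₁ g₂, isProper_coprodDesc _ _, flat_coprodDesc _ _,
    isRegularLocalRing_stalk_coprod r₁ r₂, c3_main f₁ f₂ hc g₁ g₂ _ e₁ e₂ he₁ he₂⟩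

theorem c4_lift {Z X : Scheme.{0}} (f : Z ⟶ X) [IsOpenImmersion f] (U : X.Opens)
    (h : Set.range f ⊆ U) : ∃ g : Z ⟶ U.toScheme, ∃ _ : IsOpenImmersion g, g ≫ U.ι = f ∧
      g.opensRange = U.ι ⁻¹ᵁ f.opensRange := by
  have h' : Set.range f ⊆ Set.range U.ι := by
    rwa [Scheme.Opens.range_ι]
  have hg : IsOpenImmersion (IsOpenImmersion.lift U.ι f h') := by
    have : IsOpenImmersion (IsOpenImmersion.lift U.ι f h' ≫ U.ι) := by
      rwa [IsOpenImmersion.lift_fac]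
    exact IsOpenImmersion.of_comp _ U.ι
  refine ⟨IsOpenImmersion.lift U.ι f h', hg, IsOpenImmersion.lift_fac _ _ _, ?_⟩
  have hfac := IsOpenImmersion.lift_fac U.ι f h'
  generalize IsOpenImmersion.lift U.ι f h' = g at *
  subst hfac
  ext x
  change x ∈ Set.range g ↔ U.ι x ∈ Set.range (g ≫ U.ι)
  constructor
  · rintro ⟨z, rfl⟩
    exact ⟨z, by rw [Scheme.Hom.comp_apply]⟩
  · rintro ⟨z, hz⟩
    rw [Scheme.Hom.comp_apply] at hz
    exact ⟨z, U.ι.injective hz⟩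

/-- **Finite disjoint unions.** -/
theorem HasRegularModel.of_finite {E : Type} [Field E] {X : Scheme.{0}}
    {π : X ⟶ Spec (CommRingCat.of E)} {τ : Type} [Finite τ] {Z : τ → Scheme.{0}}
    (f : ∀ j, Z j ⟶ X) (hf : ∀ j, IsOpenImmersion (f j))
    (hcov : ∀ y : X, ∃ j, y ∈ Set.range (f j))
    (hdisj : ∀ j j', j ≠ j' → Disjoint (Set.range (f j)) (Set.range (f j')))
    (h : ∀ j, HasRegularModel E (f j ≫ π)) : HasRegularModel E π := by
  classical
  have := Fintype.ofFinite τ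
  have key : ∀ s : Finset τ, ∃ U : X.Opens, (∀ x : X, x ∈ U ↔ ∃ j ∈ s, x ∈ Set.range (f j)) ∧
      HasRegularModel E (U.ι ≫ π) := by
    intro s
    induction s using Finset.induction_on with
    | empty =>
      refine ⟨⊥, fun x => ?_, ?_⟩
      · simp
      · have : IsEmpty (⊥ : X.Opens).toScheme := ⟨fun x => x.2⟩
        exact HasRegularModel.of_isEmpty _
    | insert j s hj ih =>
      obtain ⟨U, hU, hm⟩ := ih
      obtain ⟨g₁, hg₁, k₁, r₁⟩ := c4_lift U.ι (U ⊔ (f j).opensRange) (by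
        rw [Scheme.Opens.range_ι]
        exact fun x hx => Or.inl hx)
      obtain ⟨g₂, hg₂, k₂, r₂⟩ := c4_lift (f j) (U ⊔ (f j).opensRange) (fun x hx => Or.inr hx)
      refine ⟨U ⊔ (f j).opensRange, fun x => ?_, ?_⟩
      · constructor
        · rintro (hx | hx)
          · obtain ⟨i, hi, hx⟩ := (hU x).1 hx
            exact ⟨i, Finset.mem_insert_of_mem hi, hx⟩
          · exact ⟨j, Finset.mem_insert_self _ _, hx⟩
        · rintro ⟨i, hi, hx⟩
          rcases Finset.mem_insert.1 hi with rfl | hi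
          · exact Or.inr hx
          · exact Or.inl ((hU x).2 ⟨i, hi, hx⟩)
      · refine HasRegularModel.of_isCompl g₁ g₂ ?_ ?_ ?_
        · rw [r₁, r₂, Scheme.Opens.opensRange_ι, isCompl_iff, disjoint_iff, codisjoint_iff,
            ← Scheme.Hom.preimage_inf, ← Scheme.Hom.preimage_sup]
          have h1 : U ⊓ (f j).opensRange = ⊥ := by
            rw [eq_bot_iff]
            rintro x ⟨hx, hx'⟩
            obtain ⟨i, hi, hx⟩ := (hU x).1 hx
            exact (hdisj i j (by rintro rfl; exact hj hi)).le_bot ⟨hx, hx'⟩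
          rw [h1, Scheme.Opens.ι_preimage_self]
          exact ⟨rfl, rfl⟩
        · rwa [← Category.assoc, k₁]
        · rw [← Category.assoc, k₂]
          exact h j
  obtain ⟨U, hU, hm⟩ := key Finset.univ
  have hT : U = ⊤ := by
    rw [eq_top_iff]
    intro x _
    obtain ⟨j, hj⟩ := hcov x
    exact (hU x).2 ⟨j, Finset.mem_univ _, hj⟩
  subst hT
  exact HasRegularModel.of_iso hm X.topIso rfl

end Pool.Agent.Lib.MP_6a3dac_ag.Bert
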