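import Pool.Agent.Lib.MP_6a3dac_ag.DNF.Hyper
import Pool.Agent.Lib.MP_6a3dac_ag.DNF.Dehom

/-!
# Hypersurface sections of a projective scheme over the integers of a number field
-/

set_option autoImplicit false

namespace Pool.Agent.Lib.MP_6a3dac_ag.Bert

open MvPolynomial CategoryTheory Limits AlgebraicGeometry NumberField IsDedekindDomain
open Pool.Agent.Lib.MP_6a3dac_ag.DNF

/-- The ideal of `K[x_0, ..., x_n]` generated by `I` and the form with the coefficients `a`. -/
noncomputable def secSpan {O : Type} [CommRing O] {n d : ℕ} (I : HomIdeal O (n + 1)) (K : Type)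
    [CommRing K] [Algebra O K] (a : Mono n d → O) : Ideal (MvPolynomial (Fin (n + 1)) K) :=
  I.ideal.map (MvPolynomial.map (algebraMap O K)) ⊔
    Ideal.span {form fun μ => algebraMap O K (a μ)}

/-- The ideal `secSpan I K a` is homogeneous. -/
theorem secSpan_homog {O : Type} [CommRing O] {n d : ℕ} (I : HomIdeal O (n + 1)) (K : Type)
    [CommRing K] [Algebra O K] (a : Mono n d → O) :
    ∀ f ∈ secSpan I K a, ∀ i : ℕ, homogeneousComponent i f ∈ secSpan I K a := by
  intro f hf i
  let _ := MvPolynomial.gradedAlgebra (σ := Fin (n + 1)) (R := K)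
  let _ := MvPolynomial.gradedAlgebra (σ := Fin (n + 1)) (R := O)
  have h0 : I.ideal.map (MvPolynomial.map (algebraMap O K)) =
      Ideal.span ((MvPolynomial.map (algebraMap O K)) ''
        {g | g ∈ I.ideal ∧ ∃ j, g.IsHomogeneous j}) := by
    apply le_antisymm
    · rw [Ideal.map_le_iff_le_comap]
      intro g hg
      rw [Ideal.mem_comap, ← sum_homogeneousComponent g, map_sum]
      exact Ideal.sum_mem _ fun j _ => Ideal.subset_span
        ⟨_, ⟨I.homog g hg j, j, homogeneousComponent_isHomogeneous j g⟩, rfl⟩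
    · rw [Ideal.span_le]
      rintro _ ⟨g, ⟨hg, _⟩, rfl⟩
      exact Ideal.mem_map_of_mem _ hg
  have h1 : (secSpan I K a).IsHomogeneous (homogeneousSubmodule (Fin (n + 1)) K) := by
    rw [secSpan, h0, ← Ideal.span_union]
    apply Ideal.homogeneous_span
    rintro x (⟨g, ⟨_, j, hj⟩, rfl⟩ | rfl)
    · exact ⟨j, hj.map _⟩
    · exact ⟨d, isHomogeneous_form _⟩
  have h2 := h1 i hf
  rwa [show DirectSum.decompose (homogeneousSubmodule (Fin (n + 1)) K) f i =
    MvPolynomial.decomposition.decompose' f i from rfl,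
    MvPolynomial.decomposition.decompose'_apply] at h2

/-- The homogeneous ideal of `K[x_0, ..., x_n]` generated by `I` and the form with the
coefficients `a`. -/
noncomputable def secIdeal {O : Type} [CommRing O] {n d : ℕ} (I : HomIdeal O (n + 1)) (K : Type)
    [CommRing K] [Algebra O K] (a : Mono n d → O) : HomIdeal K (n + 1) where
  ideal := secSpan I K a
  homog := secSpan_homog I K a

/-- The hypersurface section over the number field `E` of the closed subscheme defined by `I` of
the projective space is smooth and has a regular proper flat model over the ring of integers. -/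
def HasModel {E : Type} [Field E] [NumberField E] {n d : ℕ} (I : HomIdeal (𝓞 E) (n + 1))
    (a : Mono n d → 𝓞 E) : Prop :=
  Smooth (hProjTo (secIdeal I E a)) ∧ HasRegularModel E (hProjTo (secIdeal I E a))

/-- The factor at the point `y`. -/
noncomputable def ptFactor {X : Scheme.{0}} (m : ℕ) (y : X) : ℝ :=
  1 - 1 / (Nat.card (X.residueField y) : ℝ) ^ (m + 1)

/-- The dehomogenization of a homogeneous ideal. -/
noncomputable def dId {O : Type} [CommRing O] {n : ℕ} (I : HomIdeal O (n + 1)) (i : Fin (n + 1)) :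
    Ideal (MvPolynomial {l : Fin (n + 1) // l ≠ i} O) :=
  I.ideal.map (dehom i)

/-- The dehomogenization of the form with the coefficients `a`. -/
noncomputable def dF {O : Type} [CommRing O] {n d : ℕ} (a : Mono n d → O) (i : Fin (n + 1)) :
    MvPolynomial {l : Fin (n + 1) // l ≠ i} O :=
  dehom i (form a)

/-- A standard chart in the affine space with the coordinates `x l`, `l ∈ σ`: the locally closed
subscheme where the `g κ` vanish and `s` and the determinant `Δ` of the partial derivatives of the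
`g κ` with respect to the `x l`, `l ∉ T`, do not vanish.  It is étale over the affine space with the
coordinates `x e`, `e ∈ T`. -/
structure Std (R σ : Type) [CommRing R] [DecidableEq σ] where
  /-- the étale coordinates -/
  T : Finset σ
  /-- the equations -/
  g : {l : σ // l ∉ T} → MvPolynomial σ R
  /-- the multiplier -/
  s : MvPolynomial σ R

namespace Std

variable {R σ : Type} [CommRing R] [DecidableEq σ] [Fintype σ] (U : Std R σ)

/-- The Jacobian matrix of the equations with respect to the coordinates outside `T`. -/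
noncomputable def J : Matrix {l : σ // l ∉ U.T} {l : σ // l ∉ U.T} (MvPolynomial σ R) :=
  Matrix.of fun κ l => pderiv l.1 (U.g κ)

/-- The Jacobian determinant. -/
noncomputable def Δ : MvPolynomial σ R := U.J.det

/-- The chart is the locus where this polynomial does not vanish. -/
noncomputable def h : MvPolynomial σ R := U.s * U.Δ

/-- The vector field `Δ ∂ / ∂ x e` on the chart, `e ∈ T`. -/
noncomputable def vf (e : σ) : Derivation R (MvPolynomial σ R) (MvPolynomial σ R) :=
  U.Δ • pderiv e -
    ∑ l : {l : σ // l ∉ U.T}, (∑ κ, U.J.adjugate l κ * pderiv e (U.g κ)) • pderiv l.1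

/-- The Hessian matrix of a function on the chart. -/
noncomputable def hess (F : MvPolynomial σ R) : Matrix U.T U.T (MvPolynomial σ R) :=
  Matrix.of fun e e' => U.vf e.1 (U.vf e'.1 F)

/-- The chart is an open subscheme of the closed subscheme defined by the ideal `I`. -/
structure For (I : Ideal (MvPolynomial σ R)) : Prop where
  mem : ∀ κ, U.g κ ∈ I
  le : ∀ f ∈ I, U.s * f ∈ Ideal.span (Set.range U.g)

/-- The chart over another ring. -/
noncomputable def map {S : Type} [CommRing S] (φ : R →+* S) : Std S σ where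
  T := U.T
  g κ := MvPolynomial.map φ (U.g κ)
  s := MvPolynomial.map φ U.s

/-- The geometric points of the chart. -/
def pts (Ω : Type) [Field Ω] [Algebra R Ω] : Set (σ → Ω) :=
  {z | (∀ κ, aeval z (U.g κ) = 0) ∧ aeval z U.h ≠ 0}

end Std

/-- The section is singular at the maximal ideal `𝔮`. -/
def BadAt {O : Type} [CommRing O] {n d : ℕ} (I : HomIdeal O (n + 1)) (a : Mono n d → O)
    (i : Fin (n + 1)) (𝔮 : Ideal (MvPolynomial {l : Fin (n + 1) // l ≠ i} O)) : Prop :=
  dF a i ∈ 𝔮 ^ 2 ⊔ dId I i

/-- The section is regular at all closed points over `P`. -/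
def TotReg {E : Type} [Field E] [NumberField E] {n d : ℕ} (I : HomIdeal (𝓞 E) (n + 1))
    (P : HeightOneSpectrum (𝓞 E)) (a : Mono n d → 𝓞 E) : Prop :=
  ∀ (i : Fin (n + 1)) (𝔮 : Ideal (MvPolynomial {l : Fin (n + 1) // l ≠ i} (𝓞 E))), 𝔮.IsMaximal →
    dId I i ≤ 𝔮 → P.asIdeal.map C ≤ 𝔮 → ¬ BadAt I a i 𝔮

/-- A finite family of charts. -/
structure Charts (O : Type) [CommRing O] (n : ℕ) where
  /-- the index sets -/
  τ : Fin (n + 1) → Type
  /-- the index sets are finite -/
  [fin : ∀ i, Fintype (τ i)]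
  /-- the charts -/
  U : ∀ i, τ i → Std O {l : Fin (n + 1) // l ≠ i}

attribute [instance] Charts.fin

/-- The charts are open in the closed subscheme defined by `I` and cover it outside the locus
`m₀ = 0`. -/
structure Charts.For {O : Type} [CommRing O] {n : ℕ} (𝒰 : Charts O n) (I : HomIdeal O (n + 1))
    (m₀ : O) : Prop where
  is : ∀ i t, (𝒰.U i t).For (dId I i)
  cover : ∀ i, C m₀ ∈ dId I i ⊔ Ideal.span (Set.range fun t => (𝒰.U i t).h)

/-- The section has at most nondegenerate double points over `P`, in the charts. -/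
def NodalAt {E : Type} [Field E] [NumberField E] {n d : ℕ} (𝒰 : Charts (𝓞 E) n)
    (I : HomIdeal (𝓞 E) (n + 1)) (P : HeightOneSpectrum (𝓞 E)) (a : Mono n d → 𝓞 E) : Prop :=
  ∀ i t (𝔮 : Ideal (MvPolynomial {l : Fin (n + 1) // l ≠ i} (𝓞 E))), 𝔮.IsPrime →
    dId I i ≤ 𝔮 → P.asIdeal.map C ≤ 𝔮 → (𝒰.U i t).h ∉ 𝔮 →
      dF a i ∈ 𝔮 → (∀ e ∈ (𝒰.U i t).T, (𝒰.U i t).vf e (dF a i) ∈ 𝔮) →
        ((𝒰.U i t).hess (dF a i)).det ∉ 𝔮

/-- The section is smooth over `E`, in the charts. -/
def SmoothIn {E : Type} [Field E] [NumberField E] {n d : ℕ} (𝒰 : Charts (𝓞 E) n)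
    (I : HomIdeal (𝓞 E) (n + 1)) (a : Mono n d → 𝓞 E) : Prop :=
  ∀ i t (𝔮 : Ideal (MvPolynomial {l : Fin (n + 1) // l ≠ i} (𝓞 E))), 𝔮.IsPrime →
    dId I i ≤ 𝔮 → (∀ c : 𝓞 E, C c ∈ 𝔮 → c = 0) → (𝒰.U i t).h ∉ 𝔮 →
      dF a i ∈ 𝔮 → ∃ e ∈ (𝒰.U i t).T, (𝒰.U i t).vf e (dF a i) ∉ 𝔮

end Pool.Agent.Lib.MP_6a3dac_ag.Bert
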