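import Pool.Agent.Lib.MP_6a3dac_ag.Mg.G065
import Pool.Agent.Lib.MP_6a3dac_ag.Mg.G066

/-!
# The sieve for polynomials with coefficients in the ring of integers
-/

set_option autoImplicit false

namespace Pool.Agent.Lib.MP_6a3dac_ag.Bert

open MvPolynomial NumberField IsDedekindDomain
open Pool.Agent.Lib.MP_6a3dac_ag.DNF Pool.Agent.Lib.MP_6a3dac_ag.Maj

variable {ι : Type} [Fintype ι] [DecidableEq ι] {E : Type} [Field E] [NumberField E] {s : ℕ}
  (b : Module.Basis (Fin s) ℤ (𝓞 E))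

/-- The polynomial over the field. -/
noncomputable abbrev toE {ι E : Type} [Field E] [NumberField E] (g : MvPolynomial ι (𝓞 E)) :
    MvPolynomial ι E :=
  MvPolynomial.map (algebraMap (𝓞 E) E) g

/-- The conjugate of a polynomial in terms of the integral coordinates. -/
noncomputable def conjPoly (g : MvPolynomial ι (𝓞 E)) (σ : E →+* ℂ) :
    MvPolynomial (ι × Fin s) ℂ :=
  eval₂ (C.comp (σ.comp (algebraMap (𝓞 E) E))) (fun i => ∑ j, C (σ (b j : E)) * X (i, j)) g

open Pool.Agent.Lib.MP_6a3dac_ag.NormPoly in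
/-- As `exists_normPoly` of Dens/NormPoly.lean. -/
theorem exists_normPoly' (g : MvPolynomial ι (𝓞 E)) :
    ∃ G : MvPolynomial (ι × Fin s) ℤ,
      (∀ u : ι × Fin s → ℤ, eval u G = Algebra.norm ℤ (eval (coeffs b u) g)) ∧
      map (Int.castRingHom ℂ) G = ∏ σ : E →+* ℂ, conjPoly b g σ := by
  obtain ⟨P, hP⟩ : ∃ P : MvPolynomial (ι × Fin s) (𝓞 E), P =
      eval₂ C (fun i => ∑ j, C (b j) * X (i, j)) g := ⟨_, rfl⟩
  have hev : ∀ u : ι × Fin s → ℤ, eval (fun v => ((u v : ℤ) : 𝓞 E)) P =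
      eval (coeffs b u) g := by
    intro u
    rw [hP]
    have h1 := eval₂_comp_left (eval (fun v => ((u v : ℤ) : 𝓞 E)))
      (C : 𝓞 E →+* MvPolynomial (ι × Fin s) (𝓞 E))
      (fun i => ∑ j, C (b j) * X (i, j)) g
    rw [h1]
    change eval₂ _ _ g = eval₂ _ _ g
    congr 1
    · ext a
      simp
    · funext i
      simp [DNF.coeffs, zsmul_eq_mul, mul_comm]
  have h1 : ∀ u : ι × Fin s → ℤ, eval u (mulMat b P).det =
      Algebra.norm ℤ (eval (coeffs b u) g) := by
    intro u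
    rw [RingHom.map_det, eval_mulMat, ← Algebra.norm_eq_matrix_det, hev]
  refine ⟨(mulMat b P).det, h1, ?_⟩
  apply funext_set (fun _ => Set.range (fun z : ℤ => (z : ℂ)))
    (fun _ => Set.infinite_range_of_injective Int.cast_injective)
  intro x hx
  choose u hu using fun v => hx v (Set.mem_univ v)
  have hxu : x = fun v => ((u v : ℤ) : ℂ) := by
    funext v
    exact (hu v).symm
  subst hxu
  rw [map_prod]
  have h2 : eval (fun v => ((u v : ℤ) : ℂ)) (map (Int.castRingHom ℂ) (mulMat b P).det) =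
      ((eval u (mulMat b P).det : ℤ) : ℂ) := by
    rw [eval_map]
    exact (eval₂_comp_left (Int.castRingHom ℂ) (RingHom.id ℤ) u _).symm ▸ rfl
  rw [h2, h1, norm_cast]
  apply Finset.prod_congr rfl
  intro σ _
  rw [conjPoly]
  have h3 := eval₂_comp_left (eval (fun v => ((u v : ℤ) : ℂ)))
      ((C : ℂ →+* MvPolynomial (ι × Fin s) ℂ).comp (σ.comp (algebraMap (𝓞 E) E)))
      (fun i => ∑ j, C (σ (b j : E)) * X (i, j)) g
  rw [h3]
  have h4 := eval₂_comp_left (σ.comp (algebraMap (𝓞 E) E)) (RingHom.id (𝓞 E))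
    (coeffs b u) g
  refine Eq.trans h4 ?_
  congr 1
  · ext a
    simp
  · funext i
    simp [DNF.coeffs, zsmul_eq_mul, mul_comm]

theorem t2_clear {κ : Type} (p : MvPolynomial κ E) :
    ∃ c : 𝓞 E, c ≠ 0 ∧ ∃ q : MvPolynomial κ (𝓞 E), toE q = C (algebraMap (𝓞 E) E c) * p := by
  induction p using MvPolynomial.induction_on with
  | C a =>
    obtain ⟨x, y, hy, hxy⟩ := IsFractionRing.div_surjective (A := 𝓞 E) a
    refine ⟨y, nonZeroDivisors.ne_zero hy, C x, ?_⟩
    have hy0 : algebraMap (𝓞 E) E y ≠ 0 := by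
      intro h
      exact nonZeroDivisors.ne_zero hy
        ((injective_iff_map_eq_zero _).1 (IsFractionRing.injective (𝓞 E) E) y h)
    have h1 : toE (C x : MvPolynomial κ (𝓞 E)) = C (algebraMap (𝓞 E) E x) := map_C _ _
    rw [h1, ← C_mul, ← hxy, mul_div_cancel₀ _ hy0]
  | add p q hp hq =>
    obtain ⟨c, hc, p', hp'⟩ := hp
    obtain ⟨d, hd, q', hq'⟩ := hq
    refine ⟨c * d, mul_ne_zero hc hd, C d * p' + C c * q', ?_⟩
    have h1 : toE (C d * p' + C c * q') = C (algebraMap (𝓞 E) E d) * toE p' +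
        C (algebraMap (𝓞 E) E c) * toE q' := by
      simp only [toE, map_add, map_mul, map_C]
    rw [h1, hp', hq', map_mul, C_mul]
    ring
  | mul_X p i hp =>
    obtain ⟨c, hc, p', hp'⟩ := hp
    refine ⟨c, hc, p' * X i, ?_⟩
    have h1 : toE (p' * X i) = toE p' * X i := by
      simp only [toE, map_mul, map_X]
    rw [h1, hp', mul_assoc]

theorem t2_inj {κ : Type} : Function.Injective
    (MvPolynomial.map (σ := κ) (algebraMap (𝓞 E) E)) :=
  MvPolynomial.map_injective _ (IsFractionRing.injective (𝓞 E) E)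

theorem t2_elim {ι : Type} [Fintype ι] [DecidableEq ι] {K : Type} [Field K]
    (g F : MvPolynomial ι K) (hg : Irreducible g) (hF : ¬ g ∣ F) (a : ι)
    (ha : degreeOf a g ≠ 0) :
    ∃ R : MvPolynomial {b // b ≠ a} K, R ≠ 0 ∧ ∃ u v : MvPolynomial ι K,
      g * u + F * v = rename Subtype.val R := by
  classical
  let Θ : MvPolynomial ι K ≃ₐ[K] Polynomial (MvPolynomial {b // b ≠ a} K) :=
    (renameEquiv K (Equiv.optionSubtypeNe a).symm).trans (optionEquivLeft K {b // b ≠ a})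
  have hΘ : ∀ p, Θ p = optionEquivLeft K {b // b ≠ a}
      (rename (Equiv.optionSubtypeNe a).symm p) := fun p => rfl
  have h1 : Irreducible (Θ g) := (MulEquiv.irreducible_iff Θ).2 hg
  have h2 : (Θ g).natDegree ≠ 0 := by
    rw [hΘ, ← degreeOf_eq_natDegree]
    exact ha
  have h3 : ¬ Θ g ∣ Θ F := by
    intro h
    apply hF
    have := map_dvd Θ.symm h
    rwa [AlgEquiv.symm_apply_apply, AlgEquiv.symm_apply_apply] at this
  obtain ⟨R, hR, u, v, huv⟩ := Sieve.exists_elim (Θ g) (Θ F) h1 h2 h3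
  refine ⟨R, hR, Θ.symm u, Θ.symm v, ?_⟩
  apply Θ.injective
  rw [map_add, map_mul, map_mul, AlgEquiv.apply_symm_apply, AlgEquiv.apply_symm_apply, huv, hΘ,
    rename_rename]
  have h4 : ((Equiv.optionSubtypeNe a).symm ∘ Subtype.val : {b // b ≠ a} → Option {b // b ≠ a}) =
      some := by
    funext x
    simpa using x.2
  rw [h4]
  have h5 : ∀ R : MvPolynomial {b // b ≠ a} K,
      (optionEquivLeft K {b // b ≠ a}) (rename some R) = Polynomial.C R := by
    intro R
    induction R using MvPolynomial.induction_on with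
    | C c => simp
    | add p q hp hq => rw [map_add, map_add, map_add, hp, hq]
    | mul_X p i hp => rw [map_mul, map_mul, map_mul, hp, rename_X, optionEquivLeft_X_some]
  rw [h5]

/-- As `NormCoprime.elim` of Dens/NormCoprime.lean, over the field `E`, clearing
denominators. -/
theorem elim' {g F : MvPolynomial ι (𝓞 E)} (hg : Irreducible (toE g)) (hF : ¬ toE g ∣ toE F)
    (a : ι) (ha : degreeOf a g ≠ 0) :
    ∃ R : MvPolynomial {b // b ≠ a} (𝓞 E), R ≠ 0 ∧ ∃ u v : MvPolynomial ι (𝓞 E),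
      g * u + F * v = rename Subtype.val R := by
  have ha' : degreeOf a (toE g) ≠ 0 := by
    intro h
    apply ha
    rw [degreeOf_eq_sup] at h ⊢
    rwa [support_map_of_injective g (IsFractionRing.injective (𝓞 E) E)] at h
  obtain ⟨R, hR, u, v, huv⟩ := t2_elim (toE g) (toE F) hg hF a ha'
  obtain ⟨c, hc, R', hR'⟩ := t2_clear R
  obtain ⟨d, hd, u', hu'⟩ := t2_clear u
  obtain ⟨e, he, v', hv'⟩ := t2_clear v
  have hinj := IsFractionRing.injective (𝓞 E) E
  refine ⟨C (d * e) * R', mul_ne_zero ?_ ?_, C (c * e) * u', C (c * d) * v', ?_⟩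
  · intro h
    exact mul_ne_zero hd he (C_injective _ _ (h.trans (map_zero C).symm))
  · rintro rfl
    have h1 : toE (0 : MvPolynomial {b // b ≠ a} (𝓞 E)) = 0 := map_zero _
    rw [h1] at hR'
    have h2 : (C (algebraMap (𝓞 E) E c) : MvPolynomial {b // b ≠ a} E) ≠ 0 := by
      intro h
      have h3 : algebraMap (𝓞 E) E c = 0 := C_injective _ _ (h.trans (map_zero C).symm)
      exact hc (hinj (h3.trans (map_zero _).symm))
    exact mul_ne_zero h2 hR hR'.symm
  · apply t2_inj (E := E)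
    have h1 : MvPolynomial.map (algebraMap (𝓞 E) E) (g * (C (c * e) * u') + F * (C (c * d) * v')) =
        toE g * (C (algebraMap (𝓞 E) E (c * e)) * toE u') +
          toE F * (C (algebraMap (𝓞 E) E (c * d)) * toE v') := by
      simp only [toE, map_add, map_mul, map_C]
    have h2 : MvPolynomial.map (algebraMap (𝓞 E) E) (rename Subtype.val (C (d * e) * R')) =
        C (algebraMap (𝓞 E) E (d * e)) * rename Subtype.val (toE R') := by
      rw [map_rename, map_mul, map_mul, map_C, rename_C]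
    rw [h1, h2, hR', hu', hv', map_mul (rename Subtype.val), rename_C, ← huv]
    simp only [map_mul]
    ring

omit [NumberField E] in
theorem t3_inj (σ : E →+* ℂ) : Function.Injective (σ.comp (algebraMap (𝓞 E) E)) :=
  σ.injective.comp (FaithfulSMul.algebraMap_injective (𝓞 E) E)

theorem t3_degreeOf {τ : Type} (σ : E →+* ℂ) (P : MvPolynomial τ (𝓞 E)) (v : τ) :
    degreeOf v (map (σ.comp (algebraMap (𝓞 E) E)) P) = degreeOf v P := by
  classical
  rw [degreeOf_def, degreeOf_def, degrees_map_of_injective P (t3_inj σ)]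

/-- A nonconstant polynomial does not divide both products of conjugates. -/
theorem t3_isUnit_of_dvd {g F : MvPolynomial ι (𝓞 E)} (hg : Irreducible (toE g))
    (hF : ¬ toE g ∣ toE F) (q : MvPolynomial (ι × (E →+* ℂ)) ℂ)
    (h1 : q ∣ ∏ σ : E →+* ℂ, rename (fun i => (i, σ)) (map (σ.comp (algebraMap (𝓞 E) E)) g))
    (h2 : q ∣ ∏ σ : E →+* ℂ, rename (fun i => (i, σ)) (map (σ.comp (algebraMap (𝓞 E) E)) F)) :
    IsUnit q := by
  classical
  have hpinj : ∀ σ : E →+* ℂ, Function.Injective (fun i : ι => (i, σ)) := by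
    intro σ x y h
    exact (Prod.ext_iff.1 h).1
  have hg0 : g ≠ 0 := by
    rintro rfl
    exact hg.ne_zero (map_zero _)
  have hF0 : F ≠ 0 := by
    rintro rfl
    exact hF (by rw [show toE (0 : MvPolynomial ι (𝓞 E)) = 0 from map_zero _]; exact dvd_zero _)
  have hne : ∀ (P : MvPolynomial ι (𝓞 E)), P ≠ 0 → ∀ σ : E →+* ℂ,
      rename (fun i => (i, σ)) (map (σ.comp (algebraMap (𝓞 E) E)) P) ≠ 0 := by
    intro P hP σ h
    apply hP
    apply map_injective _ (t3_inj σ)
    apply rename_injective _ (hpinj σ)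
    rw [h, map_zero, map_zero]
  have hq0 : q ≠ 0 := by
    rintro rfl
    rw [zero_dvd_iff, Finset.prod_eq_zero_iff] at h1
    obtain ⟨σ, _, h⟩ := h1
    exact hne g hg0 σ h
  by_contra hu
  obtain ⟨r, hr, hrq⟩ := WfDvdMonoid.exists_irreducible_factor hu hq0
  have hrp : Prime r := hr.prime
  obtain ⟨σ, _, hσ⟩ := hrp.exists_mem_finset_dvd (hrq.trans h1)
  obtain ⟨τ, _, hτ⟩ := hrp.exists_mem_finset_dvd (hrq.trans h2)
  -- a variable of `r`
  have hv : ∃ v, degreeOf v r ≠ 0 := by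
    by_contra h
    push Not at h
    have h3 : r.vars = ∅ := by
      rw [Finset.eq_empty_iff_forall_notMem]
      intro v hv
      exact mem_vars_iff_degreeOf_ne_zero.1 hv (h v)
    rw [vars_eq_empty_iff_eq_C] at h3
    apply hr.not_isUnit
    rw [h3]
    refine (isUnit_iff_ne_zero.2 ?_).map C
    intro h4
    rw [h4, map_zero] at h3
    exact hr.ne_zero h3
  obtain ⟨v, hv⟩ := hv
  have hvσ : v.2 = σ := by
    by_contra h
    apply hv
    refine NormCoprime.degreeOf_eq_zero_of_dvd hσ (hne g hg0 σ)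
      (NormCoprime.degreeOf_rename_eq_zero _ _ ?_)
    rintro ⟨x, hx⟩
    exact h (by rw [← hx])
  have hvτ : v.2 = τ := by
    by_contra h
    apply hv
    refine NormCoprime.degreeOf_eq_zero_of_dvd hτ (hne F hF0 τ)
      (NormCoprime.degreeOf_rename_eq_zero _ _ ?_)
    rintro ⟨x, hx⟩
    exact h (by rw [← hx])
  obtain ⟨a, t⟩ := v
  simp only at hvσ hvτ
  subst hvσ
  subst hvτ
  have ha : degreeOf a g ≠ 0 := by
    intro h
    apply hv
    refine NormCoprime.degreeOf_eq_zero_of_dvd hσ (hne g hg0 _) ?_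
    rw [degreeOf_rename_of_injective (hpinj _), t3_degreeOf, h]
  obtain ⟨R, hR, u, v, huv⟩ := elim' hg hF a ha
  have h5 : r ∣ rename (fun i => (i, t)) (map (t.comp (algebraMap (𝓞 E) E))
      (rename Subtype.val R)) := by
    rw [← huv, map_add, map_mul, map_mul, map_add, map_mul, map_mul]
    exact dvd_add (hσ.mul_right _) (hτ.mul_right _)
  apply hv
  refine NormCoprime.degreeOf_eq_zero_of_dvd h5 ?_ ?_
  · apply hne
    intro h
    apply hR
    apply rename_injective _ Subtype.val_injective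
    rw [h, map_zero]
  · rw [degreeOf_rename_of_injective (hpinj _), t3_degreeOf]
    by_contra h
    have h6 : a ∈ (rename Subtype.val R : MvPolynomial ι (𝓞 E)).vars :=
      mem_vars_iff_degreeOf_ne_zero.2 h
    have h7 := vars_rename _ R h6
    rw [Finset.mem_image] at h7
    obtain ⟨x, _, hx⟩ := h7
    exact x.2 hx

/-- As `normPoly_coprime` of Dens/NormCoprime.lean; here `Ψ (conjPoly b P σ)` is
`rename (·, σ)` of the conjugate `map σ P`. -/
theorem normPoly_coprime' {g F : MvPolynomial ι (𝓞 E)} (hg : Irreducible (toE g))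
    (hF : ¬ toE g ∣ toE F) {G H Q : MvPolynomial (ι × Fin s) ℤ}
    (hG : map (Int.castRingHom ℂ) G = ∏ σ : E →+* ℂ, conjPoly b g σ)
    (hH : map (Int.castRingHom ℂ) H = ∏ σ : E →+* ℂ, conjPoly b F σ)
    (hQG : Q ∣ G) (hQH : Q ∣ H) : ∃ c : ℤ, Q = C c := by
  classical
  obtain ⟨N, hN1, hN2, hN3, hN4⟩ := NormCoprime.exists_inv E b
  let Ψ : MvPolynomial (ι × Fin s) ℂ →ₐ[ℂ] MvPolynomial (ι × (E →+* ℂ)) ℂ :=
    aeval fun p => ∑ τ : E →+* ℂ, C (N p.2 τ) * X (p.1, τ)
  let Φ : MvPolynomial (ι × (E →+* ℂ)) ℂ →ₐ[ℂ] MvPolynomial (ι × Fin s) ℂ :=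
    aeval fun p => ∑ j : Fin s, C (p.2 (b j : E)) * X (p.1, j)
  have hΨX : ∀ p, Ψ (X p) = ∑ τ : E →+* ℂ, C (N p.2 τ) * X (p.1, τ) := fun p => aeval_X _ p
  have hΦX : ∀ p, Φ (X p) = ∑ j : Fin s, C (p.2 (b j : E)) * X (p.1, j) := fun p => aeval_X _ p
  have hΨC : ∀ c, Ψ (C c) = C c := fun c => aeval_C _ c
  have hΦC : ∀ c, Φ (C c) = C c := fun c => aeval_C _ c
  -- `Φ` is a left inverse of `Ψ`
  have hΦΨ : ∀ P, Φ (Ψ P) = P := by
    intro P
    have : Φ.comp Ψ = AlgHom.id ℂ _ := by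
      apply algHom_ext
      rintro ⟨i, k⟩
      rw [AlgHom.comp_apply, hΨX, map_sum, AlgHom.id_apply]
      simp only [map_mul, hΦC, hΦX, Finset.mul_sum]
      rw [Finset.sum_comm]
      rw [Finset.sum_eq_single k]
      · have h1 : ∀ x : E →+* ℂ, (C (N k x) * (C (x (b k : E)) * X (i, k)) :
            MvPolynomial (ι × Fin s) ℂ) = C (N k x * x (b k : E)) * X (i, k) := by
          intro x
          rw [C_mul, mul_assoc]
        simp only [h1]
        rw [← Finset.sum_mul, ← map_sum, hN3 k k rfl, C_1, one_mul]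
      · intro j _ hj
        have h1 : ∀ x : E →+* ℂ, (C (N k x) * (C (x (b j : E)) * X (i, j)) :
            MvPolynomial (ι × Fin s) ℂ) = C (N k x * x (b j : E)) * X (i, j) := by
          intro x
          rw [C_mul, mul_assoc]
        simp only [h1]
        rw [← Finset.sum_mul, ← map_sum, hN4 k j (Ne.symm hj), C_0, zero_mul]
      · intro h
        exact absurd (Finset.mem_univ k) h
    have h2 := congrArg (fun f => f P) this
    simpa using h2
  -- `Ψ` maps the conjugates to the copies of the polynomial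
  have hΨ : ∀ (P : MvPolynomial ι (𝓞 E)) (σ : E →+* ℂ),
      Ψ (conjPoly b P σ) =
        rename (fun i => (i, σ)) (map (σ.comp (algebraMap (𝓞 E) E)) P) := by
    intro P σ
    have hx : ∀ i : ι, Ψ (∑ j, C (σ (b j : E)) * X (i, j)) = X (i, σ) := by
      intro i
      rw [map_sum]
      simp only [map_mul, hΨC, hΨX, Finset.mul_sum]
      rw [Finset.sum_comm, Finset.sum_eq_single σ]
      · have h1 : ∀ j : Fin s, (C (σ (b j : E)) * (C (N j σ) * X (i, σ)) :
            MvPolynomial (ι × (E →+* ℂ)) ℂ) = C (σ (b j : E) * N j σ) * X (i, σ) := by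
          intro x
          rw [C_mul, mul_assoc]
        simp only [h1]
        rw [← Finset.sum_mul, ← map_sum, hN1 σ σ rfl, C_1, one_mul]
      · intro τ _ hτ
        have h1 : ∀ j : Fin s, (C (σ (b j : E)) * (C (N j τ) * X (i, τ)) :
            MvPolynomial (ι × (E →+* ℂ)) ℂ) = C (σ (b j : E) * N j τ) * X (i, τ) := by
          intro x
          rw [C_mul, mul_assoc]
        simp only [h1]
        rw [← Finset.sum_mul, ← map_sum, hN2 σ τ (Ne.symm hτ), C_0, zero_mul]
      · intro h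
        exact absurd (Finset.mem_univ σ) h
    rw [conjPoly]
    induction P using MvPolynomial.induction_on with
    | C c => rw [eval₂_C, RingHom.comp_apply, hΨC, map_C, rename_C]
    | add p q hp hq => rw [eval₂_add, map_add, hp, hq, map_add, map_add]
    | mul_X p i hp => rw [eval₂_mul, map_mul, hp, eval₂_X, hx, map_mul, map_mul, map_X, rename_X]
  have hunit : IsUnit (Ψ (map (Int.castRingHom ℂ) Q)) := by
    refine t3_isUnit_of_dvd hg hF _ ?_ ?_
    · have h1 := map_dvd Ψ (map_dvd (map (Int.castRingHom ℂ)) hQG)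
      rw [hG, map_prod] at h1
      simpa only [hΨ] using h1
    · have h1 := map_dvd Ψ (map_dvd (map (Int.castRingHom ℂ)) hQH)
      rw [hH, map_prod] at h1
      simpa only [hΨ] using h1
  have hunit2 : IsUnit (map (Int.castRingHom ℂ) Q) := by
    have := hunit.map Φ
    rwa [hΦΨ] at this
  have hvars : ∀ v, degreeOf v Q = 0 := by
    intro v
    rw [← NormCoprime.degreeOf_map_eq]
    obtain ⟨w, hw⟩ := hunit2.exists_right_inv
    exact NormCoprime.degreeOf_eq_zero_of_dvd (Dvd.intro _ hw) one_ne_zero (degreeOf_one v)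
  refine ⟨coeff 0 Q, vars_eq_empty_iff_eq_C.1 ?_⟩
  rw [Finset.eq_empty_iff_forall_notMem]
  intro v hv
  exact mem_vars_iff_degreeOf_ne_zero.1 hv (hvars v)

omit [Fintype ι] [DecidableEq ι] in
/-- A nonzero polynomial has a nonzero norm polynomial. -/
theorem t4_ne_zero {g : MvPolynomial ι (𝓞 E)} (hg : g ≠ 0) {G : MvPolynomial (ι × Fin s) ℤ}
    (hG : ∀ u : ι × Fin s → ℤ, eval u G = Algebra.norm ℤ (eval (coeffs b u) g)) : G ≠ 0 := by
  intro h0
  apply hg
  apply MvPolynomial.funext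
  intro a
  rw [map_zero]
  have h1 := hG fun x => b.repr (a x.1) x.2
  rw [h0, map_zero] at h1
  have h2 := Algebra.norm_eq_zero_iff.1 h1.symm
  have h3 : coeffs b (fun x : ι × Fin s => b.repr (a x.1) x.2) = a := by
    funext i
    exact b.sum_repr (a i)
  rwa [h3] at h2

/-- A prime ideal containing a positive integer contains a prime number. -/
theorem t4_prime_mem {R : Type} [CommRing R] (P : Ideal R) (hP : P.IsPrime) (n : ℕ) :
    n ≠ 0 → (n : R) ∈ P → ∃ p : ℕ, p.Prime ∧ (p : R) ∈ P := by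
  induction n using induction_on_primes with
  | zero => exact fun h => absurd rfl h
  | one =>
    intro _ h
    rw [Nat.cast_one] at h
    exact absurd ((Ideal.eq_top_iff_one P).2 h) hP.ne_top
  | prime_mul p a hp ih =>
    intro h1 h2
    rw [Nat.cast_mul] at h2
    rcases hP.mem_or_mem h2 with h3 | h3
    · exact ⟨p, hp, h3⟩
    · exact ih (right_ne_zero_of_mul h1) h3

open Classical in
/-- From a count in boxes to an upper density. -/
theorem t4_UD_of_card {N : Type} [Fintype N] [DecidableEq N] {S : (N → ℤ) → Prop} {c c' : ℝ}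
    (h : ∀ H : ℕ, (((box N H).filter fun u => S u).card : ℝ) ≤
      (c + c' / (2 * H + 1)) * (2 * H + 1) ^ Fintype.card N) : UD S c := by
  have hlim : Filter.Tendsto (fun H : ℕ => c + c' / (2 * (H : ℝ) + 1)) Filter.atTop
      (nhds (c + 0)) := by
    refine Filter.Tendsto.const_add _ (Filter.Tendsto.div_atTop tendsto_const_nhds ?_)
    refine Filter.tendsto_atTop_add_const_right _ _ ?_
    exact Filter.Tendsto.const_mul_atTop (by norm_num) tendsto_natCast_atTop_atTop
  intro ε hε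
  rw [add_zero] at hlim
  filter_upwards [hlim.eventually (Iio_mem_nhds (show c < c + ε by linarith))] with H hH
  have hH' : c + c' / (2 * (H : ℝ) + 1) < c + ε := hH
  refine le_trans ?_ hH'.le
  unfold Sys.prop
  rw [div_le_iff₀ (Sys.t26_card_pos H), Sys.t26_card_box]
  push_cast
  exact h H

/-- The sieve for one pair of polynomials. -/
theorem t4_one (g F : MvPolynomial ι (𝓞 E)) (hg : Irreducible (toE g))
    (hF : ¬ toE g ∣ toE F) :
    ∃ (c : ℝ) (M₀ : ℕ), ∀ M, M₀ ≤ M → UD (fun u : ι × Fin s → ℤ =>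
      ∃ P : HeightOneSpectrum (𝓞 E), (¬ ∃ p : ℕ, p.Prime ∧ p ≤ M ∧ (p : 𝓞 E) ∈ P.asIdeal) ∧
        eval (coeffs b u) g ∈ P.asIdeal ∧ eval (coeffs b u) F ∈ P.asIdeal)
      (c / M) := by
  classical
  obtain ⟨G, hG1, hG2⟩ := exists_normPoly' b g
  obtain ⟨K, hK1, hK2⟩ := exists_normPoly' b F
  have hg0 : g ≠ 0 := by
    rintro rfl
    exact hg.ne_zero (map_zero _)
  have hG0 : G ≠ 0 := t4_ne_zero b hg0 hG1
  obtain ⟨f, hf, u0, hfG⟩ := WfDvdMonoid.exists_factors G hG0
  -- the nonconstant factors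
  let S : Finset (MvPolynomial (ι × Fin s) ℤ) :=
    f.toFinset.filter fun Q => ¬ ∃ c : ℤ, Q = MvPolynomial.C c
  have hS : ∀ Q ∈ S, Irreducible Q ∧ ¬ Q ∣ K := by
    intro Q hQ
    rw [Finset.mem_filter, Multiset.mem_toFinset] at hQ
    refine ⟨hf Q hQ.1, fun hQK => hQ.2 ?_⟩
    have hQG : Q ∣ G := by
      rw [← hfG]
      exact Dvd.dvd.mul_right (Multiset.dvd_prod hQ.1) _
    exact normPoly_coprime' b hg hF hG2 hK2 hQG hQK
  -- the sieve for each nonconstant factor
  have hsieve : ∀ Q : MvPolynomial (ι × Fin s) ℤ, ∃ C : ℝ, Q ∈ S → ∀ M : ℕ, 1 ≤ M →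
      UD (fun u : ι × Fin s → ℤ => ∃ p : ℕ, p.Prime ∧ M < p ∧ (p : ℤ) ∣ eval u Q ∧
        (p : ℤ) ∣ eval u K) (C / M) := by
    intro Q
    by_cases hQ : Q ∈ S
    · obtain ⟨C, hC⟩ := dens_sieve Q K (hS Q hQ).1 (hS Q hQ).2
      refine ⟨C, fun _ M hM => ?_⟩
      obtain ⟨C', hC'⟩ := hC M 1 hM le_rfl
        (fun p hp h1 => absurd (Nat.dvd_one.1 h1) hp.ne_one) 0
      refine t4_UD_of_card (c' := C') fun H => le_of_eq_of_le ?_ (hC' H)
      congr 2
      ext u
      simp
    · exact ⟨0, fun h => absurd h hQ⟩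
  choose CC hCC using hsieve
  let M₀ : ℕ := 1 + ∑ Q ∈ f.toFinset, (coeff 0 Q).natAbs
  refine ⟨∑ Q ∈ S, CC Q, M₀, fun M hM => ?_⟩
  have hM1 : 1 ≤ M := le_trans (Nat.le_add_right 1 _) hM
  refine (UD.exists_finset S fun Q hQ => hCC Q hQ M hM1).mono ?_
    (le_of_eq (Finset.sum_div _ _ _).symm)
  rintro u ⟨P, hP, hgP, hFP⟩
  -- a rational prime in P
  obtain ⟨p, hp, hpP⟩ : ∃ p : ℕ, p.Prime ∧ (p : 𝓞 E) ∈ P.asIdeal := by
    have h1 := Ideal.absNorm_mem P.asIdeal
    have h2 : Ideal.absNorm P.asIdeal ≠ 0 := by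
      rw [Ne, Ideal.absNorm_eq_zero_iff]
      exact P.ne_bot
    exact t4_prime_mem P.asIdeal P.isPrime _ h2 h1
  have hMp : M < p := by
    by_contra hle
    exact hP ⟨p, hp, not_lt.1 hle, hpP⟩
  have hpG : (p : ℤ) ∣ eval u G := by
    rw [hG1]
    exact SieveNF.prime_dvd_norm P.asIdeal P.isPrime hp hpP hgP
  have hpK : (p : ℤ) ∣ eval u K := by
    rw [hK1]
    exact SieveNF.prime_dvd_norm P.asIdeal P.isPrime hp hpP hFP
  have hpZ : Prime (p : ℤ) := Nat.prime_iff_prime_int.1 hp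
  rw [← hfG, map_mul] at hpG
  have hunit : ¬ (p : ℤ) ∣ eval u (u0 : MvPolynomial (ι × Fin s) ℤ) := by
    intro h
    apply hpZ.not_isUnit
    exact isUnit_of_dvd_unit h (u0.isUnit.map _)
  have hprod := (hpZ.dvd_or_dvd hpG).resolve_right hunit
  rw [map_multiset_prod] at hprod
  obtain ⟨Q, hQf, hQdvd⟩ := hpZ.exists_mem_multiset_map_dvd hprod
  refine ⟨Q, ?_, p, hp, hMp, hQdvd, hpK⟩
  rw [Finset.mem_filter, Multiset.mem_toFinset]
  refine ⟨hQf, ?_⟩
  rintro ⟨c, hc⟩
  have hc0 : c ≠ 0 := by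
    rintro rfl
    exact (hf Q hQf).ne_zero (by rw [hc, map_zero])
  have h1 : c.natAbs ≤ ∑ Q ∈ f.toFinset, (coeff 0 Q).natAbs := by
    have h2 : (coeff 0 Q).natAbs ≤ ∑ Q ∈ f.toFinset, (coeff 0 Q).natAbs :=
      Finset.single_le_sum (f := fun Q : MvPolynomial (ι × Fin s) ℤ => (coeff 0 Q).natAbs)
        (fun _ _ => Nat.zero_le _) (Multiset.mem_toFinset.2 hQf)
    rw [hc, coeff_zero_C] at h2
    exact h2
  rw [hc, eval_C, Int.natCast_dvd] at hQdvd
  have h3 : p ≤ c.natAbs := Nat.le_of_dvd (Int.natAbs_pos.2 hc0) hQdvd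
  have h4 : 1 + ∑ Q ∈ f.toFinset, (coeff 0 Q).natAbs ≤ M := hM
  omega

/-- As `dens_sieve_nf` of Dens/SieveNF.lean with `q = 1`, `r = 0`, and union over `t`. -/
theorem tail_bound' {T : Type} [Fintype T] (g G : T → MvPolynomial ι (𝓞 E))
    (hg : ∀ t, Irreducible (toE (g t))) (hgG : ∀ t, ¬ toE (g t) ∣ toE (G t)) :
    ∃ (c : ℝ) (M₀ : ℕ), ∀ M, M₀ ≤ M → UD (fun u : ι × Fin s → ℤ =>
      ∃ P : HeightOneSpectrum (𝓞 E), (¬ ∃ p : ℕ, p.Prime ∧ p ≤ M ∧ (p : 𝓞 E) ∈ P.asIdeal) ∧
        ∃ t, eval (coeffs b u) (g t) ∈ P.asIdeal ∧ eval (coeffs b u) (G t) ∈ P.asIdeal)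
      (c / M) := by
  choose c M₀ h using fun t => t4_one b (g t) (G t) (hg t) (hgG t)
  refine ⟨∑ t, c t, ∑ t, M₀ t, fun M hM => ?_⟩
  refine (UD.exists_finset Finset.univ fun t _ => h t M (le_trans
    (Finset.single_le_sum (f := M₀) (fun _ _ => Nat.zero_le _) (Finset.mem_univ t)) hM)).mono ?_
    (le_of_eq (Finset.sum_div _ _ _).symm)
  rintro u ⟨P, hP, t, h1, h2⟩
  exact ⟨t, Finset.mem_univ t, P, hP, h1, h2⟩

theorem t5_normPoly_ne_zero {g : MvPolynomial ι (𝓞 E)} (hg : g ≠ 0)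
    {G : MvPolynomial (ι × Fin s) ℤ}
    (hG : ∀ u : ι × Fin s → ℤ, eval u G = Algebra.norm ℤ (eval (coeffs b u) g)) : G ≠ 0 := by
  intro h0
  apply hg
  apply MvPolynomial.funext
  intro a
  rw [map_zero]
  have h1 := hG fun x => b.repr (a x.1) x.2
  rw [h0, map_zero] at h1
  have h2 := Algebra.norm_eq_zero_iff.1 h1.symm
  have h3 : coeffs b (fun x : ι × Fin s => b.repr (a x.1) x.2) = a := by
    funext i
    exact b.sum_repr (a i)
  rwa [h3] at h2

/-- As `tendsto_prop_zero` of Sys/DensityC.lean, by `exists_normPoly'`. -/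
theorem UD_eval_eq_zero {g : MvPolynomial ι (𝓞 E)} (hg : g ≠ 0) :
    UD (fun u : ι × Fin s → ℤ => eval (coeffs b u) g = 0) 0 := by
  classical
  apply UD.of_tendsto
  obtain ⟨G, hG, -⟩ := exists_normPoly' b g
  have hG0 := t5_normPoly_ne_zero b hg hG
  obtain ⟨D, hD⟩ := Sys.t31_zeros G hG0
  have hlim : Filter.Tendsto (fun H : ℕ => (D : ℝ) / (2 * (H : ℝ) + 1)) Filter.atTop
      (nhds 0) := by
    refine Filter.Tendsto.div_atTop tendsto_const_nhds ?_
    refine Filter.tendsto_atTop_add_const_right _ _ ?_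
    exact Filter.Tendsto.const_mul_atTop (by norm_num) tendsto_natCast_atTop_atTop
  refine squeeze_zero (fun H => ?_) (fun H => ?_) hlim
  · exact div_nonneg (Nat.cast_nonneg _) (Nat.cast_nonneg _)
  · have h1 : ((box (ι × Fin s) H).filter fun u => eval (coeffs b u) g = 0).card ≤
        ((box (ι × Fin s) H).filter fun a => eval a G = 0).card := by
      apply Finset.card_le_card
      intro u hu
      rw [Finset.mem_filter] at hu ⊢
      refine ⟨hu.1, ?_⟩
      rw [hG u, hu.2, Algebra.norm_zero]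
    have h2 := (Nat.mul_le_mul_right (2 * H + 1) h1).trans (hD H)
    have hcard : (box (ι × Fin s) H).card = (2 * H + 1) ^ Fintype.card (ι × Fin s) := by
      rw [box, Fintype.card_piFinset]
      simp only [Int.card_Icc, Finset.prod_const, Finset.card_univ]
      congr 1
      omega
    have hpos : 0 < ((box (ι × Fin s) H).card : ℝ) := by
      rw [hcard]
      positivity
    simp only [Sys.prop]
    rw [div_le_div_iff₀ hpos (by positivity)]
    rw [← hcard] at h2
    exact_mod_cast h2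

end Pool.Agent.Lib.MP_6a3dac_ag.Bert
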