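import Pool.Agent.Lib.MP_6a3dac_ag.Dens.Pair
import Pool.Agent.Lib.MP_6a3dac_ag.Bert.Alg
import Pool.Agent.Lib.MP_6a3dac_ag.Bert.Tail

/-!
# Two coprime polynomials in the coefficients which vanish for degenerate singular points
-/

set_option autoImplicit false

namespace Pool.Agent.Lib.MP_6a3dac_ag.Bert

open MvPolynomial NumberField IsDedekindDomain
open Pool.Agent.Lib.MP_6a3dac_ag.DNF Pool.Agent.Lib.MP_6a3dac_ag.Maj

/-- The derivations of `L` over `K` are the linear forms on `Ω[L⁄K]`, so `Ω[L⁄K] = 0`; use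
`Algebra.FormallyUnramified.iff_isSeparable`. -/
theorem isAlgebraic_of_derivation {K L : Type} [Field K] [Field L] [Algebra K L]
    [Algebra.EssFiniteType K L] (h : ∀ D : Derivation K L L, D = 0) : Algebra.IsAlgebraic K L := by
  have h1 : Subsingleton (Ω[L⁄K]) := by
    by_contra hcon
    rw [not_subsingleton_iff_nontrivial] at hcon
    obtain ⟨v, hv⟩ := exists_ne (0 : Ω[L⁄K])
    refine hv ((Module.forall_dual_apply_eq_zero_iff L v).1 fun φ => ?_)
    have h2 : φ = 0 := by
      have h3 := h (φ.compDer (KaehlerDifferential.D K L))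
      have h4 : (KaehlerDifferential.linearMapEquivDerivation K L) φ = 0 := h3
      exact (LinearEquiv.map_eq_zero_iff _).1 h4
    rw [h2]
    rfl
  have h2 : Algebra.FormallyUnramified K L := ⟨h1⟩
  have h3 : Algebra.IsSeparable K L := (Algebra.FormallyUnramified.iff_isSeparable K L).1 h2
  infer_instance

/-- The monomials: `1`, the `X e` and the `X e ^ 2` for `e ∈ T`, and others. -/
structure Mons (R σ : Type) [CommRing R] (T : Finset σ) (M : Type) where
  /-- the monomials -/
  mon : M → MvPolynomial σ R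
  /-- the index of `1` -/
  m0 : M
  /-- the indices of the `X e` -/
  m1 : T → M
  /-- the indices of the `X e ^ 2` -/
  m2 : T → M
  mon_m0 : mon m0 = 1
  mon_m1 : ∀ e, mon (m1 e) = X e.1
  mon_m2 : ∀ e, mon (m2 e) = X e.1 ^ 2
  inj1 : Function.Injective m1
  inj2 : Function.Injective m2
  ne01 : ∀ e, m1 e ≠ m0
  ne02 : ∀ e, m2 e ≠ m0
  ne12 : ∀ e e', m2 e ≠ m1 e'

section

variable {R σ M D : Type} [CommRing R] [DecidableEq σ] [Fintype σ] [Fintype M] [DecidableEq M]
  [CommRing D] {U : Std R σ} (W : Mons R σ U.T M) (f : MvPolynomial σ R →+* D)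

/-- The other monomials. -/
abbrev Mons.Rest {T : Finset σ} (W : Mons R σ T M) : Type :=
  {μ : M // μ ≠ W.m0 ∧ ∀ e, μ ≠ W.m1 e}

/-- `f` is the map to the coordinate ring of the chart. -/
structure ToChart (U : Std R σ) (f : MvPolynomial σ R →+* D) : Prop where
  g : ∀ κ, f (U.g κ) = 0
  Δ : IsUnit (f U.Δ)
  inj : Function.Injective (f.comp C)
  surj : ∀ y, ∃ a z, IsUnit (f z) ∧ y * f z = f a

/-- The coefficient of `X e`, `e ∈ T`, of a form with a critical point. -/
noncomputable def alpha1 (e : U.T) : MvPolynomial W.Rest D :=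
  -(C (Ring.inverse (f U.Δ)) * ∑ ρ : W.Rest, X ρ * C (f (U.vf e.1 (W.mon ρ.1))))

/-- The coefficients, except that of `1`. -/
noncomputable def alphaPre (μ : M) : MvPolynomial W.Rest D :=
  open Classical in
  if h : μ ≠ W.m0 ∧ ∀ e, μ ≠ W.m1 e then X ⟨μ, h⟩
  else if h : ∃ e, μ = W.m1 e then alpha1 W f h.choose else 0

/-- The coefficients of the forms with a critical point at the generic point of the chart. -/
noncomputable def alpha (μ : M) : MvPolynomial W.Rest D :=
  if μ = W.m0 then -∑ ν ∈ Finset.univ.erase W.m0, alphaPre W f ν * C (f (W.mon ν))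
  else alphaPre W f μ

omit [DecidableEq σ] [Fintype σ] [CommRing D] in
theorem p2_sum {T : Finset σ} (W : Mons R σ T M) {N : Type} [AddCommMonoid N] (F : M → N) :
    ∑ μ, F μ = F W.m0 + (∑ e, F (W.m1 e) + ∑ ρ : W.Rest, F ρ.1) := by
  classical
  rw [← Finset.add_sum_erase _ _ (Finset.mem_univ W.m0)]
  congr 1
  have h1 : Finset.univ.erase W.m0 = Finset.univ.image W.m1 ∪
      Finset.univ.filter (fun μ => μ ≠ W.m0 ∧ ∀ e, μ ≠ W.m1 e) := by
    ext μ
    simp only [Finset.mem_erase, Finset.mem_univ, and_true, Finset.mem_union, Finset.mem_image,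
      true_and, Finset.mem_filter]
    constructor
    · intro h
      by_cases h2 : ∃ e, W.m1 e = μ
      · exact Or.inl h2
      · right
        push Not at h2
        exact ⟨h, fun e => (h2 e).symm⟩
    · rintro (⟨e, rfl⟩ | h)
      · exact W.ne01 e
      · exact h.1
  rw [h1, Finset.sum_union]
  · congr 1
    · rw [Finset.sum_image fun a _ b _ h => W.inj1 h]
    · rw [← Finset.sum_subtype (Finset.univ.filter (fun μ => μ ≠ W.m0 ∧ ∀ e, μ ≠ W.m1 e))
        (p := fun μ => μ ≠ W.m0 ∧ ∀ e, μ ≠ W.m1 e) (by simp) F]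
  · rw [Finset.disjoint_left]
    intro μ h2 h3
    obtain ⟨e, -, rfl⟩ := Finset.mem_image.mp h2
    exact (Finset.mem_filter.mp h3).2.2 e rfl

theorem alpha_rest (ρ : W.Rest) : alpha W f ρ.1 = X ρ := by
  rw [alpha, if_neg ρ.2.1, alphaPre, dif_pos ρ.2]

theorem p2_alpha_m1 (e : U.T) : alpha W f (W.m1 e) = alpha1 W f e := by
  have h1 : ¬ (W.m1 e ≠ W.m0 ∧ ∀ e', W.m1 e ≠ W.m1 e') := fun h => h.2 e rfl
  have h2 : ∃ e', W.m1 e = W.m1 e' := ⟨e, rfl⟩
  rw [alpha, if_neg (W.ne01 e), alphaPre, dif_neg h1, dif_pos h2]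
  have h3 : h2.choose = e := (W.inj1 h2.choose_spec).symm
  rw [h3]

/-- The value at the generic point is zero. -/
theorem sum_alpha_mon : ∑ μ, alpha W f μ * C (f (W.mon μ)) = 0 := by
  rw [← Finset.add_sum_erase _ _ (Finset.mem_univ W.m0)]
  have h1 : ∑ μ ∈ Finset.univ.erase W.m0, alpha W f μ * C (f (W.mon μ)) =
      ∑ μ ∈ Finset.univ.erase W.m0, alphaPre W f μ * C (f (W.mon μ)) := by
    refine Finset.sum_congr rfl fun μ hμ => ?_
    rw [alpha, if_neg (Finset.ne_of_mem_erase hμ)]
  rw [h1, alpha, if_pos rfl, W.mon_m0, map_one, C_1, mul_one, neg_add_cancel]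

/-- The derivatives at the generic point are zero. Use `vf_X`, `W.mon_m1`. -/
theorem sum_alpha_vf (hf : ToChart U f) (e : U.T) :
    ∑ μ, alpha W f μ * C (f (U.vf e.1 (W.mon μ))) = 0 := by
  rw [p2_sum W, W.mon_m0]
  have h0 : U.vf e.1 (1 : MvPolynomial σ R) = 0 := Derivation.map_one_eq_zero _
  rw [h0, map_zero, C_0, mul_zero, zero_add]
  have h1 : ∑ e' : U.T, alpha W f (W.m1 e') * C (f (U.vf e.1 (W.mon (W.m1 e')))) =
      alpha1 W f e * C (f U.Δ) := by
    rw [Finset.sum_eq_single e]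
    · rw [p2_alpha_m1, W.mon_m1, U.vf_X e.1 e.2, if_pos rfl]
    · intro e' _ hne
      rw [W.mon_m1, U.vf_X e.1 e'.2, if_neg (fun h => hne (Subtype.ext h).symm), map_zero, C_0,
        mul_zero]
    · intro h
      exact absurd (Finset.mem_univ e) h
  rw [h1, alpha1]
  have h2 : (C (Ring.inverse (f U.Δ)) * C (f U.Δ) : MvPolynomial W.Rest D) = 1 := by
    rw [← C_mul, Ring.inverse_mul_cancel _ hf.Δ, C_1]
  have h3 : ∑ ρ : W.Rest, alpha W f ρ.1 * C (f (U.vf e.1 (W.mon ρ.1))) =
      ∑ ρ : W.Rest, X ρ * C (f (U.vf e.1 (W.mon ρ.1))) :=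
    Finset.sum_congr rfl fun ρ _ => by rw [alpha_rest]
  rw [h3]
  generalize ∑ ρ : W.Rest, X ρ * C (f (U.vf e.1 (W.mon ρ.1))) = S
  calc -(C (Ring.inverse (f U.Δ)) * S) * C (f U.Δ) + S
      = S - (C (Ring.inverse (f U.Δ)) * C (f U.Δ)) * S := by ring
    _ = 0 := by rw [h2, one_mul, sub_self]

omit [Fintype σ] in
/-- The split of a sum over `M`. -/
theorem p3_sum_split {κ : Type} [CommRing κ] (F : M → κ) :
    ∑ μ, F μ = F W.m0 + ∑ e : U.T, F (W.m1 e) + ∑ ρ : W.Rest, F ρ.1 := by
  classical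
  have hinj : Function.Injective (Sum.elim (fun o : Option U.T => o.elim W.m0 W.m1)
      (Subtype.val : W.Rest → M)) := by
    rintro (a | a) (b | b) h
    · rcases a with _ | a <;> rcases b with _ | b
      · rfl
      · exact absurd h.symm (W.ne01 b)
      · exact absurd h (W.ne01 a)
      · have := W.inj1 h
        rw [this]
    · rcases a with _ | a
      · exact absurd h.symm b.2.1
      · exact absurd h.symm (b.2.2 a)
    · rcases b with _ | b
      · exact absurd h a.2.1
      · exact absurd h (a.2.2 b)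
    · have h' : a.1 = b.1 := h
      rw [Subtype.ext h']
  have hsurj : Function.Surjective (Sum.elim (fun o : Option U.T => o.elim W.m0 W.m1)
      (Subtype.val : W.Rest → M)) := by
    intro μ
    by_cases h : μ ≠ W.m0 ∧ ∀ e, μ ≠ W.m1 e
    · exact ⟨Sum.inr ⟨μ, h⟩, rfl⟩
    · by_cases h0 : μ = W.m0
      · exact ⟨Sum.inl none, h0.symm⟩
      · have h1 : ∃ e, μ = W.m1 e := by
          by_contra h1
          push Not at h1
          exact h ⟨h0, h1⟩
        obtain ⟨e, he⟩ := h1
        exact ⟨Sum.inl (some e), he.symm⟩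
  have h := (Equiv.ofBijective _ ⟨hinj, hsurj⟩).sum_comp F
  rw [← h, Fintype.sum_sum_type, Fintype.sum_option]
  rfl

/-- The value of `alphaPre` at a point. -/
theorem p3_alphaPre {κ : Type} [CommRing κ] (hf : ToChart U f) (ψ : D →+* κ) (a : M → κ)
    (h1 : ∀ e : U.T, ∑ μ, a μ * ψ (f (U.vf e.1 (W.mon μ))) = 0) (μ : M) (hμ : μ ≠ W.m0) :
    eval₂ ψ (fun ρ : W.Rest => a ρ.1) (alphaPre W f μ) = a μ := by
  unfold alphaPre
  split_ifs with h h'
  · rw [eval₂_X]
  · have hc := h'.choose_spec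
    generalize h'.choose = e at hc
    have h2 := h1 e
    rw [p3_sum_split W] at h2
    have h3 : ψ (f (U.vf e.1 (W.mon W.m0))) = 0 := by
      rw [W.mon_m0, Derivation.map_one_eq_zero, map_zero, map_zero]
    have h4 : ∑ e' : U.T, a (W.m1 e') * ψ (f (U.vf e.1 (W.mon (W.m1 e')))) =
        a (W.m1 e) * ψ (f U.Δ) := by
      rw [Finset.sum_eq_single e]
      · rw [W.mon_m1, U.vf_X e.1 e.2, if_pos rfl]
      · intro b _ hb
        rw [W.mon_m1, U.vf_X e.1 b.2, if_neg (fun h => hb (Subtype.ext h.symm)), map_zero,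
          map_zero, mul_zero]
      · intro h; exact absurd (Finset.mem_univ e) h
    rw [h3, h4, mul_zero, zero_add] at h2
    have h5 : ψ (Ring.inverse (f U.Δ)) * ψ (f U.Δ) = 1 := by
      rw [← map_mul, Ring.inverse_mul_cancel _ hf.Δ, map_one]
    have h6 : eval₂ ψ (fun ρ : W.Rest => a ρ.1) (alpha1 W f e) =
        -(ψ (Ring.inverse (f U.Δ)) *
          ∑ ρ : W.Rest, a ρ.1 * ψ (f (U.vf e.1 (W.mon ρ.1)))) := by
      unfold alpha1
      rw [← coe_eval₂Hom]
      simp only [map_neg, map_mul, map_sum, coe_eval₂Hom, eval₂_C, eval₂_X]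
    rw [h6, hc]
    linear_combination ψ (Ring.inverse (f U.Δ)) * (-h2) + a (W.m1 e) * h5
  · exfalso
    apply h
    refine ⟨hμ, ?_⟩
    intro e he
    exact h' ⟨e, he⟩

/-- The universal property: at a point (`ψ`), the coefficients `a` of a form with a
critical point are determined by the `a ρ`, `ρ` in `Rest`. -/
theorem eval_alpha {κ : Type} [CommRing κ] (hf : ToChart U f) (ψ : D →+* κ) (a : M → κ)
    (h0 : ∑ μ, a μ * ψ (f (W.mon μ)) = 0)
    (h1 : ∀ e : U.T, ∑ μ, a μ * ψ (f (U.vf e.1 (W.mon μ))) = 0) (μ : M) :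
    eval₂ ψ (fun ρ : W.Rest => a ρ.1) (alpha W f μ) = a μ := by
  unfold alpha
  split_ifs with h
  · rw [← Finset.add_sum_erase _ _ (Finset.mem_univ W.m0)] at h0
    rw [W.mon_m0, map_one, map_one, mul_one] at h0
    rw [← coe_eval₂Hom]
    simp only [map_neg, map_mul, map_sum, coe_eval₂Hom, eval₂_C]
    rw [h, eq_comm, ← add_eq_zero_iff_eq_neg, ← h0]
    congr 1
    apply Finset.sum_congr rfl
    intro ν hν
    rw [p3_alphaPre W f hf ψ a h1 ν (Finset.ne_of_mem_erase hν)]
  · exact p3_alphaPre W f hf ψ a h1 μ h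

/-- The Hessian matrix at the generic point. -/
noncomputable def gHess : Matrix U.T U.T (MvPolynomial W.Rest D) :=
  Matrix.of fun e e' => ∑ μ, alpha W f μ * C (f (U.vf e.1 (U.vf e'.1 (W.mon μ))))

/-- The specialization. -/
noncomputable def p4_spec : MvPolynomial W.Rest D →+* D :=
  open Classical in
  (eval₂Hom (RingHom.id D) fun ρ => if ∃ e, ρ.1 = W.m2 e then 1 else 0)

omit [Fintype σ] [Fintype M] in
theorem p4_spec_C (x : D) : p4_spec (D := D) W (C x) = x := by
  simp [p4_spec]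

omit [Fintype σ] [Fintype M] in
theorem p4_spec_m2 {ρ : W.Rest} (h : ∃ e, ρ.1 = W.m2 e) : p4_spec (D := D) W (X ρ) = 1 := by
  classical
  simp only [p4_spec, coe_eval₂Hom, eval₂_X]
  rw [if_pos h]

omit [Fintype σ] [Fintype M] in
theorem p4_spec_other {ρ : W.Rest} (h : ¬ ∃ e, ρ.1 = W.m2 e) : p4_spec (D := D) W (X ρ) = 0 := by
  classical
  simp only [p4_spec, coe_eval₂Hom, eval₂_X]
  rw [if_neg h]

theorem p4_alpha_m1 (e : U.T) : alpha W f (W.m1 e) = alpha1 W f e := by
  classical
  have h1 : ¬ (W.m1 e ≠ W.m0 ∧ ∀ e', W.m1 e ≠ W.m1 e') := fun h => h.2 e rfl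
  have h2 : ∃ e', W.m1 e = W.m1 e' := ⟨e, rfl⟩
  have h3 : h2.choose = e := (W.inj1 h2.choose_spec).symm
  rw [alpha, if_neg (W.ne01 e), alphaPre, dif_neg h1, dif_pos h2, h3]

omit [Fintype M] [DecidableEq M] in
theorem p4_vf_sq (e e₂ : U.T) : U.vf e.1 (W.mon (W.m2 e₂)) =
    if e = e₂ then 2 * X e₂.1 * U.Δ else 0 := by
  rw [W.mon_m2, pow_two, Derivation.leibniz, Std.vf_X U e.1 e₂.2]
  by_cases h : e = e₂
  · subst h
    simp only [if_true, smul_eq_mul]
    ring
  · rw [if_neg (fun h' => h (Subtype.ext h')), if_neg h]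
    simp

theorem p4_spec_alpha_m1 (hf : ToChart U f) (e : U.T) :
    p4_spec W (alpha W f (W.m1 e)) = -(2 * f (X e.1)) := by
  classical
  rw [p4_alpha_m1, alpha1, map_neg, map_mul, p4_spec_C, map_sum]
  have h1 : ∑ ρ : W.Rest, p4_spec W (X ρ * C (f (U.vf e.1 (W.mon ρ.1)))) =
      ∑ e₂ : U.T, f (U.vf e.1 (W.mon (W.m2 e₂))) := by
    let m : U.T → W.Rest := fun e₂ => ⟨W.m2 e₂, W.ne02 e₂, W.ne12 e₂⟩
    have hm : Function.Injective m := fun a b h => W.inj2 (congrArg Subtype.val h)
    have h2 : ∑ ρ : W.Rest, p4_spec W (X ρ * C (f (U.vf e.1 (W.mon ρ.1)))) =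
        ∑ ρ ∈ Finset.univ.image m, p4_spec W (X ρ * C (f (U.vf e.1 (W.mon ρ.1)))) := by
      symm
      apply Finset.sum_subset (Finset.subset_univ _)
      intro ρ _ hρ
      rw [map_mul, p4_spec_other, zero_mul]
      rintro ⟨e₂, h⟩
      exact hρ (Finset.mem_image.2 ⟨e₂, Finset.mem_univ _, Subtype.ext h.symm⟩)
    rw [h2, Finset.sum_image fun a _ b _ h => hm h]
    refine Finset.sum_congr rfl fun e₂ _ => ?_
    rw [map_mul, p4_spec_C, p4_spec_m2 W ⟨e₂, rfl⟩, one_mul]
  rw [h1]
  have h3 : ∑ e₂ : U.T, f (U.vf e.1 (W.mon (W.m2 e₂))) = 2 * f (X e.1) * f U.Δ := by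
    rw [Finset.sum_eq_single e]
    · rw [p4_vf_sq, if_pos rfl, map_mul, map_mul, map_ofNat]
    · intro e₂ _ h
      rw [p4_vf_sq, if_neg h.symm, map_zero]
    · intro h
      exact absurd (Finset.mem_univ _) h
  rw [h3, neg_inj, mul_comm, mul_assoc, Ring.mul_inverse_cancel _ hf.Δ, mul_one]

theorem p4_spec_gHess (hf : ToChart U f) (e e' : U.T) :
    p4_spec W (gHess W f e e') = if e = e' then 2 * f U.Δ ^ 2 else 0 := by
  classical
  rw [gHess, Matrix.of_apply, map_sum]
  let F : M → D := fun μ =>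
    p4_spec W (alpha W f μ * C (f (U.vf e.1 (U.vf e'.1 (W.mon μ)))))
  have h1 : ∑ μ, F μ = ∑ μ ∈ Finset.univ.image W.m1 ∪ Finset.univ.image W.m2, F μ := by
    symm
    apply Finset.sum_subset (Finset.subset_univ _)
    intro μ _ hμ
    rw [Finset.mem_union, not_or] at hμ
    change p4_spec W (alpha W f μ * C (f (U.vf e.1 (U.vf e'.1 (W.mon μ))))) = 0
    by_cases h0 : μ = W.m0
    · rw [h0, W.mon_m0]
      simp
    · have hr : μ ≠ W.m0 ∧ ∀ e, μ ≠ W.m1 e := ⟨h0, fun e₁ h =>
        hμ.1 (Finset.mem_image.2 ⟨e₁, Finset.mem_univ _, h.symm⟩)⟩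
      have := alpha_rest W f ⟨μ, hr⟩
      rw [this, map_mul, p4_spec_other, zero_mul]
      rintro ⟨e₂, h⟩
      exact hμ.2 (Finset.mem_image.2 ⟨e₂, Finset.mem_univ _, h.symm⟩)
  have hdis : Disjoint (Finset.univ.image W.m1) (Finset.univ.image W.m2) := by
    rw [Finset.disjoint_left]
    intro μ h h'
    obtain ⟨e₁, -, h⟩ := Finset.mem_image.1 h
    obtain ⟨e₂, -, h'⟩ := Finset.mem_image.1 h'
    exact W.ne12 e₂ e₁ (h'.trans h.symm)
  change ∑ μ, F μ = _
  rw [h1, Finset.sum_union hdis, Finset.sum_image fun a _ b _ h => W.inj1 h,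
    Finset.sum_image fun a _ b _ h => W.inj2 h]
  have h2 : ∑ e₁, F (W.m1 e₁) = -(2 * f (X e'.1) * f (U.vf e.1 U.Δ)) := by
    rw [Finset.sum_eq_single e']
    · change p4_spec W (alpha W f (W.m1 e') * C (f (U.vf e.1 (U.vf e'.1 (W.mon (W.m1 e')))))) = _
      rw [map_mul, p4_spec_C, p4_spec_alpha_m1 W f hf, W.mon_m1, Std.vf_X U e'.1 e'.2, if_pos rfl]
      ring
    · intro e₁ _ h
      change p4_spec W (alpha W f (W.m1 e₁) * C (f (U.vf e.1 (U.vf e'.1 (W.mon (W.m1 e₁)))))) = _
      rw [W.mon_m1, Std.vf_X U e'.1 e₁.2, if_neg (fun h' => h (Subtype.ext h'.symm))]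
      simp
    · intro h
      exact absurd (Finset.mem_univ _) h
  have h3 : ∑ e₂, F (W.m2 e₂) = f (U.vf e.1 (2 * X e'.1 * U.Δ)) := by
    rw [Finset.sum_eq_single e']
    · change p4_spec W (alpha W f (W.m2 e') * C (f (U.vf e.1 (U.vf e'.1 (W.mon (W.m2 e')))))) = _
      have := alpha_rest W f ⟨W.m2 e', W.ne02 e', W.ne12 e'⟩
      rw [this, map_mul, p4_spec_C, p4_spec_m2 W ⟨e', rfl⟩, one_mul, p4_vf_sq, if_pos rfl]
    · intro e₂ _ h
      change p4_spec W (alpha W f (W.m2 e₂) * C (f (U.vf e.1 (U.vf e'.1 (W.mon (W.m2 e₂)))))) = _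
      rw [p4_vf_sq, if_neg h.symm]
      simp
    · intro h
      exact absurd (Finset.mem_univ _) h
  have h4 : U.vf e.1 (2 * X e'.1 * U.Δ) =
      2 * X e'.1 * U.vf e.1 U.Δ + if e = e' then 2 * U.Δ ^ 2 else 0 := by
    have h5 : (2 : MvPolynomial σ R) * X e'.1 * U.Δ = X e'.1 * U.Δ + X e'.1 * U.Δ := by ring
    rw [h5, map_add, Derivation.leibniz, Std.vf_X U e.1 e'.2]
    by_cases h : e = e'
    · subst h
      simp only [if_true, smul_eq_mul]
      ring
    · rw [if_neg (fun h' => h (Subtype.ext h')), if_neg h]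
      simp only [smul_eq_mul, mul_zero, add_zero]
      ring
  rw [h2, h3, h4]
  by_cases h : e = e'
  · rw [if_pos h, if_pos h]
    simp only [map_add, map_mul, map_pow, map_ofNat]
    ring
  · rw [if_neg h, if_neg h]
    simp only [map_mul, map_ofNat, add_zero]
    ring

/-- Specialize `X ρ` to `1` if `ρ` is one of the `m2 e`, and to `0` otherwise: then
`alpha (m1 e)` becomes `- 2 * X e`, and the matrix becomes `2 * Δ ^ 2` times the identity matrix. -/
theorem gHess_det_ne_zero [IsDomain D] [CharZero D] (hf : ToChart U f) :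
    (gHess W f).det ≠ 0 := by
  classical
  intro h
  have h1 := congrArg (p4_spec W) h
  rw [RingHom.map_det, map_zero] at h1
  have h2 : (p4_spec W).mapMatrix (gHess W f) = Matrix.diagonal fun _ => 2 * f U.Δ ^ 2 := by
    ext e e'
    rw [RingHom.mapMatrix_apply, Matrix.map_apply, p4_spec_gHess W f hf, Matrix.diagonal_apply]
  rw [h2, Matrix.det_diagonal, Finset.prod_const] at h1
  exact pow_ne_zero _ (mul_ne_zero two_ne_zero (pow_ne_zero _ hf.Δ.ne_zero)) h1

omit [CommRing D] [Fintype M] [DecidableEq M] [DecidableEq σ] in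
private theorem p5_chain {L : Type} [Field L] (φ : MvPolynomial σ R →+* L)
    (dd : Derivation ℤ L L) (hC : ∀ c : R, dd (φ (C c)) = 0) (p : MvPolynomial σ R) :
    dd (φ p) = ∑ l, dd (φ (X l)) * φ (pderiv l p) := by
  classical
  induction p using MvPolynomial.induction_on with
  | C c => rw [hC]; simp
  | add p q hp hq =>
    rw [map_add, map_add, hp, hq, ← Finset.sum_add_distrib]
    refine Finset.sum_congr rfl fun l _ => ?_
    rw [map_add, map_add, mul_add]
  | mul_X p i hp =>
    rw [map_mul, Derivation.leibniz, hp, smul_eq_mul, smul_eq_mul]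
    have h1 : ∀ l, dd (φ (X l)) * φ (pderiv l (p * X i)) =
        φ (X i) * (dd (φ (X l)) * φ (pderiv l p)) +
          (if l = i then φ p * dd (φ (X i)) else 0) := by
      intro l
      rw [Derivation.leibniz, smul_eq_mul, smul_eq_mul, map_add, map_mul, map_mul, pderiv_X]
      split_ifs with h
      · subst h
        rw [Pi.single_eq_same, map_one]
        ring
      · rw [Pi.single_eq_of_ne (Ne.symm h), map_zero]
        ring
    rw [Finset.sum_congr rfl fun l _ => h1 l, Finset.sum_add_distrib, ← Finset.mul_sum,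
      Finset.sum_ite_eq' Finset.univ i, if_pos (Finset.mem_univ i)]
    ring

/-- Let `∂` be a derivation of a field `L` containing the ring
`MvPolynomial Rest D` which kills the constants in `R` and the `alpha μ`, `μ ≠ m0`. Then
`∂ = 0` on this ring: let `w l = ∂ (f (X l))`. By `cramer`, `Δ * ∂ (f p) = ∑ e, w e * f (vf e p)`.
Apply `∂` to `sum_alpha_vf` (note `vf e 1 = 0`): `∑ e, w e * gHess e e' = 0` for all `e'`. So
`w e = 0`, and `∂ ∘ f = 0`, and `∂` kills `D` (`hf.surj`) and the `X ρ`. -/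
theorem derivation_eq_zero [IsDomain D] [CharZero D] (hf : ToChart U f) {L : Type} [Field L]
    (ι : MvPolynomial W.Rest D →+* L) (hι : Function.Injective ι) (dd : Derivation ℤ L L)
    (hC : ∀ c : R, dd (ι (C (f (C c)))) = 0)
    (h : ∀ μ, μ ≠ W.m0 → dd (ι (alpha W f μ)) = 0) (x : MvPolynomial W.Rest D) :
    dd (ι x) = 0 := by
  classical
  set φ : MvPolynomial σ R →+* L := (ι.comp C).comp f with hφ
  have hφa : ∀ p, φ p = ι (C (f p)) := fun _ => rfl
  have hunit : ∀ z, IsUnit (f z) → φ z ≠ 0 := by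
    intro z hz
    exact ((hz.map (C : D →+* MvPolynomial W.Rest D)).map ι).ne_zero
  have hchain : ∀ p, dd (φ p) = ∑ l, dd (φ (X l)) * φ (pderiv l p) :=
    p5_chain φ dd hC
  have hw : ∀ κ, ∑ l, dd (φ (X l)) * φ (pderiv l (U.g κ)) = 0 := by
    intro κ
    rw [← hchain, hφa, hf.g κ, map_zero, map_zero, map_zero]
  have hcr : ∀ p, φ U.Δ * dd (φ p) = ∑ e ∈ U.T, dd (φ (X e)) * φ (U.vf e p) := by
    intro p
    rw [hchain p]
    exact U.cramer φ (fun l => dd (φ (X l))) hw p
  -- the derivative of `sum_alpha_vf`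
  have hder : ∀ e' : U.T, ∑ μ, ι (alpha W f μ) * dd (φ (U.vf e'.1 (W.mon μ))) = 0 := by
    intro e'
    have h1 := congrArg (fun z => dd (ι z)) (sum_alpha_vf W f hf e')
    simp only [map_sum, map_mul, map_zero] at h1
    rw [← h1]
    refine Finset.sum_congr rfl fun μ _ => ?_
    rw [Derivation.leibniz, smul_eq_mul, smul_eq_mul]
    by_cases hμ : μ = W.m0
    · rw [hμ, W.mon_m0, Derivation.map_one_eq_zero, hφa, map_zero, map_zero, map_zero, map_zero]
      simp
    · rw [h μ hμ, mul_zero, add_zero, hφa]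
  have hvec : Matrix.vecMul (fun e : U.T => dd (φ (X e.1))) ((gHess W f).map ι) = 0 := by
    funext e'
    rw [Matrix.vecMul, dotProduct]
    have h2 : ∑ e : U.T, dd (φ (X e.1)) * ((gHess W f).map ι) e e' =
        φ U.Δ * ∑ μ, ι (alpha W f μ) * dd (φ (U.vf e'.1 (W.mon μ))) := by
      rw [Finset.mul_sum]
      have h3 : ∀ μ, φ U.Δ * (ι (alpha W f μ) * dd (φ (U.vf e'.1 (W.mon μ)))) =
          ∑ e : U.T, ι (alpha W f μ) * (dd (φ (X e.1)) * φ (U.vf e.1 (U.vf e'.1 (W.mon μ)))) := by
        intro μ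
        rw [← Finset.mul_sum, Finset.sum_coe_sort U.T
          (fun e => dd (φ (X e)) * φ (U.vf e (U.vf e'.1 (W.mon μ)))), ← hcr]
        ring
      rw [Finset.sum_congr rfl fun μ _ => h3 μ, Finset.sum_comm]
      refine Finset.sum_congr rfl fun e _ => ?_
      rw [Matrix.map_apply, gHess, Matrix.of_apply, map_sum, Finset.mul_sum]
      refine Finset.sum_congr rfl fun μ _ => ?_
      rw [map_mul, ← hφa]
      ring
    rw [h2, hder e', mul_zero]
    rfl
  have hdet : ((gHess W f).map ι).det ≠ 0 := by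
    have h2 : ((gHess W f).map ι).det = ι (gHess W f).det := (RingHom.map_det ι _).symm
    rw [h2]
    intro h3
    exact gHess_det_ne_zero W f hf (hι (by rw [h3, map_zero]))
  have hw0 : ∀ e : U.T, dd (φ (X e.1)) = 0 := fun e =>
    congrFun (Matrix.eq_zero_of_vecMul_eq_zero hdet hvec) e
  have hφ0 : ∀ p, dd (φ p) = 0 := by
    intro p
    have h2 := hcr p
    rw [Finset.sum_eq_zero fun e he => by rw [hw0 ⟨e, he⟩, zero_mul]] at h2
    exact (mul_eq_zero.1 h2).resolve_left (hunit _ hf.Δ)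
  have hD : ∀ y : D, dd (ι (C y)) = 0 := by
    intro y
    obtain ⟨a, z, hz, hyz⟩ := hf.surj y
    have h2 : ι (C y) * φ z = φ a := by
      rw [hφa, hφa, ← map_mul, ← map_mul, hyz]
    have h3 := congrArg dd h2
    rw [Derivation.leibniz, hφ0, hφ0, smul_zero, zero_add, smul_eq_mul] at h3
    exact (mul_eq_zero.1 h3).resolve_left (hunit z hz)
  induction x using MvPolynomial.induction_on with
  | C c => exact hD c
  | add p q hp hq => rw [map_add, map_add, hp, hq, add_zero]
  | mul_X p ρ hp =>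
    have h2 : dd (ι (X ρ)) = 0 := by
      rw [← alpha_rest W f ρ]
      exact h ρ.1 ρ.2.1
    rw [map_mul, Derivation.leibniz, hp, h2, smul_zero, smul_zero, add_zero]

/-- The substitution of the `alpha μ` for the coefficients. -/
noncomputable def subst : MvPolynomial M R →+* MvPolynomial W.Rest D :=
  eval₂Hom (C.comp (f.comp C)) (alpha W f)

theorem p6_main [IsDomain R] [IsDomain D] [CharZero D] (hf : ToChart U f)
    (L : Type) [Field L] [Algebra (MvPolynomial W.Rest D) L]
    [IsFractionRing (MvPolynomial W.Rest D) L]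
    (x : MvPolynomial W.Rest D) : ∃ p : Polynomial (MvPolynomial {μ : M // μ ≠ W.m0} R),
      p.map ((subst W f).comp (rename Subtype.val).toRingHom) ≠ 0 ∧
        (p.map ((subst W f).comp (rename Subtype.val).toRingHom)).eval x = 0 := by
  classical
  let ι : MvPolynomial W.Rest D →+* L := algebraMap (MvPolynomial W.Rest D) L
  have hι : Function.Injective ι := IsFractionRing.injective (MvPolynomial W.Rest D) L
  let φ : MvPolynomial {μ : M // μ ≠ W.m0} R →+* MvPolynomial W.Rest D :=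
    (subst W f).comp (rename Subtype.val).toRingHom
  let ψ : MvPolynomial {μ : M // μ ≠ W.m0} R →+* L := ι.comp φ
  let R₀ : Subring L := ψ.range
  let K : Type := FractionRing R₀
  have hF : FaithfulSMul R₀ L :=
    (faithfulSMul_iff_algebraMap_injective R₀ L).2 R₀.subtype_injective
  let _ : Algebra K L := FractionRing.liftAlgebra R₀ L
  have hT : IsScalarTower R₀ K L := FractionRing.isScalarTower_liftAlgebra R₀ L
  have hφC : ∀ c : R, φ (C c) = C (f (C c)) := by
    intro c
    show subst W f (rename Subtype.val (C c)) = _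
    rw [rename_C]
    exact eval₂Hom_C _ _ _
  have hφX : ∀ μ : {μ : M // μ ≠ W.m0}, φ (X μ) = alpha W f μ.1 := by
    intro μ
    show subst W f (rename Subtype.val (X μ)) = _
    rw [rename_X]
    exact eval₂Hom_X' _ _ _
  -- elements of `K`
  have hmem : ∀ q, ∃ k : K, algebraMap K L k = ψ q := by
    intro q
    refine ⟨algebraMap R₀ K ⟨ψ q, q, rfl⟩, ?_⟩
    rw [← IsScalarTower.algebraMap_apply R₀ K L]
    rfl
  -- `L` is finitely generated over `K`
  have hfg : Algebra.EssFiniteType K L := by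
    rw [← IntermediateField.fg_top_iff]
    let S : Finset L := (Finset.univ.image fun l : σ => ι (C (f (X l)))) ∪
      (Finset.univ.image fun ρ : W.Rest => ι (X ρ))
    refine ⟨S, ?_⟩
    rw [eq_top_iff]
    intro y _
    have h1 : ∀ a : MvPolynomial σ R, ι (C (f a)) ∈ IntermediateField.adjoin K (S : Set L) := by
      intro a
      induction a using MvPolynomial.induction_on with
      | C c =>
        obtain ⟨k, hk⟩ := hmem (C c)
        have h2 : ι (C (f (C c))) = algebraMap K L k := by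
          rw [hk, ← hφC]
          rfl
        rw [h2]
        exact IntermediateField.algebraMap_mem _ _
      | add p q hp hq =>
        rw [map_add, map_add, map_add]
        exact add_mem hp hq
      | mul_X p l hp =>
        rw [map_mul, map_mul, map_mul]
        refine mul_mem hp (IntermediateField.subset_adjoin _ _ ?_)
        exact Finset.mem_coe.2 (Finset.mem_union_left _
          (Finset.mem_image_of_mem _ (Finset.mem_univ l)))
    have h2 : ∀ c : D, ι (C c) ∈ IntermediateField.adjoin K (S : Set L) := by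
      intro c
      obtain ⟨a, z, hz, e⟩ := hf.surj c
      have h3 : ι (C c) = ι (C (f a)) / ι (C (f z)) := by
        have h4 : ι (C (f z)) ≠ 0 := by
          intro h5
          rw [map_eq_zero_iff ι hι, C_eq_zero] at h5
          rw [h5] at hz
          exact not_isUnit_zero hz
        rw [eq_div_iff h4, ← map_mul, ← map_mul, e]
      rw [h3]
      exact div_mem (h1 a) (h1 z)
    have h3 : ∀ a : MvPolynomial W.Rest D, ι a ∈ IntermediateField.adjoin K (S : Set L) := by
      intro a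
      induction a using MvPolynomial.induction_on with
      | C c => exact h2 c
      | add p q hp hq =>
        rw [map_add]
        exact add_mem hp hq
      | mul_X p ρ hp =>
        rw [map_mul]
        refine mul_mem hp (IntermediateField.subset_adjoin _ _ ?_)
        exact Finset.mem_coe.2 (Finset.mem_union_right _
          (Finset.mem_image_of_mem _ (Finset.mem_univ ρ)))
    obtain ⟨a, b, _, rfl⟩ := IsFractionRing.div_surjective (A := MvPolynomial W.Rest D) y
    exact div_mem (h3 a) (h3 b)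
  -- derivations
  have hder : ∀ dd : Derivation K L L, dd = 0 := by
    intro dd
    have h1 : ∀ a : MvPolynomial W.Rest D, dd (ι a) = 0 := by
      intro a
      have h2 : ∀ q, dd (ψ q) = 0 := by
        intro q
        obtain ⟨k, hk⟩ := hmem q
        rw [← hk, Derivation.map_algebraMap]
      let dz : Derivation ℤ L L :=
        { toLinearMap := dd.toLinearMap.toAddMonoidHom.toIntLinearMap
          map_one_eq_zero' := dd.map_one_eq_zero
          leibniz' := dd.leibniz }
      refine derivation_eq_zero W f hf ι hι dz ?_ ?_ a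
      · intro c
        have := h2 (C c)
        have e : ψ (C c) = ι (C (f (C c))) := by
          rw [← hφC]
          rfl
        rwa [e] at this
      · intro μ hμ
        have := h2 (X ⟨μ, hμ⟩)
        have e : ψ (X ⟨μ, hμ⟩) = ι (alpha W f μ) := by
          show ι (φ (X ⟨μ, hμ⟩)) = _
          rw [hφX]
        rwa [e] at this
    ext y
    obtain ⟨a, b, hb, rfl⟩ := IsFractionRing.div_surjective (A := MvPolynomial W.Rest D) y
    have e : (algebraMap (MvPolynomial W.Rest D) L a / algebraMap (MvPolynomial W.Rest D) L b) =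
        ι a * (ι b)⁻¹ := div_eq_mul_inv _ _
    rw [e, Derivation.leibniz, Derivation.leibniz_inv, h1, h1]
    simp
  have halg : Algebra.IsAlgebraic K L := isAlgebraic_of_derivation hder
  have h1 : IsAlgebraic R₀ (ι x) :=
    (IsFractionRing.isAlgebraic_iff R₀ K L).2 (halg.isAlgebraic (ι x))
  obtain ⟨p₀, hp₀, hx⟩ := h1
  obtain ⟨p, hp⟩ := Polynomial.map_surjective ψ.rangeRestrict ψ.rangeRestrict_surjective p₀
  have h2 : (p.map φ).map ι = p₀.map R₀.subtype := by
    rw [← hp, Polynomial.map_map, Polynomial.map_map]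
    rfl
  refine ⟨p, ?_, ?_⟩
  · intro h3
    apply hp₀
    have h4 : p₀.map R₀.subtype = 0 := by
      rw [← h2]
      show Polynomial.map ι (Polynomial.map φ p) = 0
      rw [show Polynomial.map φ p = 0 from h3, Polynomial.map_zero]
    exact (Polynomial.map_eq_zero_iff R₀.subtype_injective).1 h4
  · apply hι
    rw [map_zero]
    show ι ((p.map φ).eval x) = 0
    rw [← Polynomial.eval_map_apply, h2]
    have h5 : Polynomial.eval (ι x) (p₀.map (algebraMap R₀ L)) = 0 := by
      rw [Polynomial.eval_map_algebraMap]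
      exact hx
    exact h5

/-- Let `L` be the fraction field of `MvPolynomial Rest D`, and `K` the subfield generated
by the image of `R` and the `alpha μ`, `μ ≠ m0`. By `derivation_eq_zero` and
`isAlgebraic_of_derivation`, `L` is algebraic over `K` (`L` is a finitely generated field, by
`hf.surj`). So for each `x` there is a nonzero polynomial over the subring generated by these
elements with root `x`; its coefficients lift to polynomials in the variables `μ ≠ m0`. -/
theorem exists_relation [IsDomain R] [IsDomain D] [CharZero D] (hf : ToChart U f)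
    (x : MvPolynomial W.Rest D) : ∃ p : Polynomial (MvPolynomial {μ : M // μ ≠ W.m0} R),
      p.map ((subst W f).comp (rename Subtype.val).toRingHom) ≠ 0 ∧
        (p.map ((subst W f).comp (rename Subtype.val).toRingHom)).eval x = 0 := by
  exact p6_main W f hf (FractionRing (MvPolynomial W.Rest D)) x

end

section

variable {E : Type} [Field E] [NumberField E] {σ M D : Type} [DecidableEq σ] [Fintype σ]
  [Fintype M] [DecidableEq M] [CommRing D] [IsDomain D] {U : Std (𝓞 E) σ}
  (W : Mons (𝓞 E) σ U.T M) (f : MvPolynomial σ (𝓞 E) →+* D)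

omit [DecidableEq σ] [Fintype σ] [Fintype M] [IsDomain D] in
theorem p7_charZero (hinj : Function.Injective (f.comp C)) : CharZero D :=
  charZero_of_injective_ringHom hinj

theorem p7_lift (p : Polynomial (MvPolynomial {μ : M // μ ≠ W.m0} (𝓞 E))) :
    ∃ G : MvPolynomial M (𝓞 E), (p ≠ 0 → G ≠ 0) ∧ subst W f G =
      (p.map ((subst W f).comp (rename Subtype.val).toRingHom)).eval (alpha W f W.m0) := by
  let e : Option {μ : M // μ ≠ W.m0} ≃ M := Equiv.optionSubtypeNe W.m0
  let h1 : Polynomial (MvPolynomial {μ : M // μ ≠ W.m0} (𝓞 E)) →+* MvPolynomial W.Rest D :=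
    (subst W f).comp ((rename e).toRingHom.comp
      ((optionEquivLeft (𝓞 E) {μ : M // μ ≠ W.m0}).symm : _ →+* _))
  let h2 : Polynomial (MvPolynomial {μ : M // μ ≠ W.m0} (𝓞 E)) →+* MvPolynomial W.Rest D :=
    Polynomial.eval₂RingHom ((subst W f).comp (rename Subtype.val).toRingHom) (alpha W f W.m0)
  have h12 : h1 = h2 := by
    apply Polynomial.ringHom_ext'
    · apply MvPolynomial.ringHom_ext
      · intro c
        show subst W f (rename e ((optionEquivLeft (𝓞 E) _).symm (Polynomial.C (C c)))) =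
          Polynomial.eval₂ ((subst W f).comp (rename Subtype.val).toRingHom) _
            (Polynomial.C (C c))
        rw [optionEquivLeft_symm_C_C, rename_C, Polynomial.eval₂_C]
        show _ = subst W f (rename Subtype.val (C c))
        rw [rename_C]
      · intro μ
        show subst W f (rename e ((optionEquivLeft (𝓞 E) _).symm (Polynomial.C (X μ)))) =
          Polynomial.eval₂ ((subst W f).comp (rename Subtype.val).toRingHom) _
            (Polynomial.C (X μ))
        rw [optionEquivLeft_symm_C_X, rename_X, Polynomial.eval₂_C]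
        show _ = subst W f (rename Subtype.val (X μ))
        rw [rename_X]
        rfl
    · show subst W f (rename e ((optionEquivLeft (𝓞 E) _).symm Polynomial.X)) =
          Polynomial.eval₂ ((subst W f).comp (rename Subtype.val).toRingHom) _ Polynomial.X
      rw [optionEquivLeft_symm_X, rename_X, Polynomial.eval₂_X]
      exact eval₂Hom_X' _ _ _
  refine ⟨rename e ((optionEquivLeft (𝓞 E) {μ : M // μ ≠ W.m0}).symm p), ?_, ?_⟩
  · intro hp hG
    apply hp
    have h3 : (optionEquivLeft (𝓞 E) {μ : M // μ ≠ W.m0}).symm p = 0 :=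
      (map_eq_zero_iff _ (rename_injective _ e.injective)).1 hG
    exact (map_eq_zero_iff _ (optionEquivLeft (𝓞 E) {μ : M // μ ≠ W.m0}).symm.injective).1 h3
  · have h3 := congrArg (fun h => h p) h12
    rw [Polynomial.eval_map]
    exact h3

theorem p7_main (hinj : Function.Injective (f.comp C)) (L : Type) [Field L]
    [Algebra (MvPolynomial W.Rest D) L] [IsFractionRing (MvPolynomial W.Rest D) L]
    {G : MvPolynomial M (𝓞 E)} (hG : G ≠ 0) (hG0 : subst W f G = 0) :
    ∃ g : MvPolynomial M (𝓞 E), Irreducible (toE g) ∧ subst W f g = 0 := by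
  classical
  let ι : MvPolynomial W.Rest D →+* L := algebraMap (MvPolynomial W.Rest D) L
  have hι : Function.Injective ι := IsFractionRing.injective (MvPolynomial W.Rest D) L
  let c : 𝓞 E →+* L := ι.comp (C.comp (f.comp C))
  have hc : Function.Injective c := hι.comp ((C_injective _ _).comp hinj)
  let cE : E →+* L := IsFractionRing.lift (A := 𝓞 E) (K := E) hc
  have hcE : ∀ r : 𝓞 E, cE (algebraMap (𝓞 E) E r) = c r := fun r =>
    IsFractionRing.lift_algebraMap (A := 𝓞 E) (K := E) hc r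
  let Φ : MvPolynomial M E →+* L := eval₂Hom cE (fun μ => ι (alpha W f μ))
  have hΦ : ∀ g : MvPolynomial M (𝓞 E), Φ (toE g) = ι (subst W f g) := by
    intro g
    have h1 : Φ.comp (MvPolynomial.map (algebraMap (𝓞 E) E)) = ι.comp (subst W f) := by
      apply MvPolynomial.ringHom_ext
      · intro r
        show Φ (MvPolynomial.map (algebraMap (𝓞 E) E) (C r)) = ι (subst W f (C r))
        rw [map_C]
        have h2 : Φ (C (algebraMap (𝓞 E) E r)) = cE (algebraMap (𝓞 E) E r) := eval₂Hom_C _ _ _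
        have h3 : subst W f (C r) = C (f (C r)) := eval₂Hom_C _ _ _
        rw [h2, h3, hcE]
        rfl
      · intro μ
        show Φ (MvPolynomial.map (algebraMap (𝓞 E) E) (X μ)) = ι (subst W f (X μ))
        rw [map_X]
        have h2 : Φ (X μ) = ι (alpha W f μ) := eval₂Hom_X' _ _ _
        have h3 : subst W f (X μ) = alpha W f μ := eval₂Hom_X' _ _ _
        rw [h2, h3]
    exact congrArg (fun h : MvPolynomial M (𝓞 E) →+* L => h g) h1
  have hprime : (RingHom.ker Φ).IsPrime := RingHom.ker_isPrime Φ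
  have hinjE : Function.Injective (MvPolynomial.map (σ := M) (algebraMap (𝓞 E) E)) :=
    map_injective _ (IsFractionRing.injective (𝓞 E) E)
  have hne : RingHom.ker Φ ≠ ⊥ := by
    intro h1
    have h2 : toE G ∈ RingHom.ker Φ := by
      rw [RingHom.mem_ker, hΦ, hG0, map_zero]
    rw [h1, Ideal.mem_bot] at h2
    exact hG ((map_eq_zero_iff _ hinjE).1 h2)
  obtain ⟨q, hq, hqp⟩ := hprime.exists_mem_prime_of_ne_bot hne
  -- clear denominators
  obtain ⟨b, g, hg⟩ : ∃ (b : 𝓞 E) (g : MvPolynomial M (𝓞 E)), b ≠ 0 ∧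
      toE g = C (algebraMap (𝓞 E) E b) * q := by
    let _ : Algebra (MvPolynomial M (𝓞 E)) (MvPolynomial M E) := algebraMvPolynomial
    obtain ⟨⟨_, b, hb, rfl⟩, hx⟩ := IsLocalization.exists_integer_multiple
      ((nonZeroDivisors (𝓞 E)).map (C (σ := M))) q
    obtain ⟨g, hg⟩ := hx
    refine ⟨b, g, nonZeroDivisors.ne_zero hb, ?_⟩
    rw [Algebra.smul_def] at hg
    have h3 : algebraMap (MvPolynomial M (𝓞 E)) (MvPolynomial M E) =
        MvPolynomial.map (algebraMap (𝓞 E) E) := MvPolynomial.algebraMap_def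
    rw [h3] at hg
    rw [show toE g = MvPolynomial.map (algebraMap (𝓞 E) E) g from rfl, hg]
    show MvPolynomial.map (algebraMap (𝓞 E) E) (C b) * q = _
    rw [map_C]
  obtain ⟨hb, hg⟩ := hg
  have hbu : IsUnit (C (algebraMap (𝓞 E) E b) : MvPolynomial M E) := by
    apply IsUnit.map
    rw [isUnit_iff_ne_zero]
    exact fun h => hb ((map_eq_zero_iff _ (IsFractionRing.injective (𝓞 E) E)).1 h)
  refine ⟨g, ?_, ?_⟩
  · rw [hg]
    exact (irreducible_isUnit_mul hbu).2 hqp.irreducible
  · apply hι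
    rw [← hΦ, hg, map_mul, RingHom.mem_ker.1 hq, mul_zero, map_zero]

/-- Take `x = alpha m0` in `exists_relation` and substitute `X m0`: a nonzero polynomial in
the kernel of `subst`. The kernel of the extension to the coefficient field `E` (values in the
fraction field of `MvPolynomial Rest D`) is a prime ideal, so it contains an irreducible factor;
clear denominators. -/
theorem exists_g (hf : ToChart U f) : ∃ g : MvPolynomial M (𝓞 E), Irreducible (toE g) ∧
    subst W f g = 0 := by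
  have hcz : CharZero D := p7_charZero f hf.inj
  obtain ⟨p, hp, hx⟩ := exists_relation W f hf (alpha W f W.m0)
  obtain ⟨G, hG, hG0⟩ := p7_lift W f p
  rw [hx] at hG0
  have hp0 : p ≠ 0 := by
    rintro rfl
    exact hp (Polynomial.map_zero _)
  exact p7_main W f hf.inj (FractionRing (MvPolynomial W.Rest D)) (hG hp0) hG0

/-- Take `x = (gHess W f).det ≠ 0` in `exists_relation`, and divide the relation by a power
of the variable: `∑ j, c j * x ^ j = 0` with `c 0 ≠ 0`, so `x` divides `c 0`, which is in the image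
of `subst`. -/
theorem exists_G (hf : ToChart U f) : ∃ G : MvPolynomial M (𝓞 E), subst W f G ≠ 0 ∧
    (gHess W f).det ∣ subst W f G := by
  have hcz : CharZero D := charZero_of_injective_ringHom hf.inj
  obtain ⟨p, hp, hx⟩ := exists_relation W f hf (gHess W f).det
  have hx0 := gHess_det_ne_zero W f hf
  set x := (gHess W f).det with hxdef
  set p' := p.map ((subst W f).comp (rename Subtype.val).toRingHom) with hp'
  let n := p'.natTrailingDegree
  obtain ⟨q, hq⟩ := Polynomial.X_pow_dvd_iff.2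
    (fun d (hd : d < n) => Polynomial.coeff_eq_zero_of_lt_natTrailingDegree hd)
  have hq0 : q.coeff 0 = p'.coeff n := by
    conv_rhs => rw [hq]
    rw [Polynomial.coeff_X_pow_mul', if_pos le_rfl, Nat.sub_self]
  have hqx : q.eval x = 0 := by
    rw [hq, Polynomial.eval_mul, Polynomial.eval_pow, Polynomial.eval_X] at hx
    exact (mul_eq_zero.1 hx).resolve_left (pow_ne_zero _ hx0)
  have hc : p'.coeff n = subst W f (rename Subtype.val (p.coeff n)) := by
    rw [hp', Polynomial.coeff_map]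
    rfl
  refine ⟨rename Subtype.val (p.coeff n), ?_, ?_⟩
  · rw [← hc]
    exact Polynomial.trailingCoeff_nonzero_iff_nonzero.2 hp
  · rw [← hc, ← hq0]
    have h1 := Polynomial.sub_dvd_eval_sub x 0 q
    rw [sub_zero, hqx, zero_sub, dvd_neg, ← Polynomial.coeff_zero_eq_eval_zero] at h1
    exact h1

theorem p9_clear {E : Type} [Field E] [NumberField E] {M : Type} (q : MvPolynomial M E) :
    ∃ c : 𝓞 E, c ≠ 0 ∧ ∃ q' : MvPolynomial M (𝓞 E),
      toE q' = C (algebraMap (𝓞 E) E c) * q := by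
  induction q using MvPolynomial.induction_on with
  | C a =>
    obtain ⟨x, y, hy, hxy⟩ := IsFractionRing.div_surjective (A := 𝓞 E) a
    refine ⟨y, nonZeroDivisors.ne_zero hy, C x, ?_⟩
    have hy0 : algebraMap (𝓞 E) E y ≠ 0 := by
      intro h
      exact nonZeroDivisors.ne_zero hy ((map_eq_zero_iff _
        (FaithfulSMul.algebraMap_injective (𝓞 E) E)).1 h)
    unfold toE
    rw [map_C, ← C_mul, ← hxy, mul_div_cancel₀ _ hy0]
  | add p q hp hq =>
    obtain ⟨c, hc, p', hp'⟩ := hp
    obtain ⟨c', hc', q', hq'⟩ := hq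
    refine ⟨c * c', mul_ne_zero hc hc', C c' * p' + C c * q', ?_⟩
    unfold toE at *
    rw [map_add, map_mul, map_mul, hp', hq', map_C, map_C, map_mul, C_mul]
    ring
  | mul_X p i hp =>
    obtain ⟨c, hc, p', hp'⟩ := hp
    refine ⟨c, hc, p' * X i, ?_⟩
    unfold toE at *
    rw [map_mul, hp', map_X, mul_assoc]

/-- If `subst W f g = 0` and `subst W f G ≠ 0`, then `toE g` does not divide `toE G`. -/
theorem not_dvd (hf : ToChart U f) {g G : MvPolynomial M (𝓞 E)} (hg : subst W f g = 0)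
    (hG : subst W f G ≠ 0) : ¬ toE g ∣ toE G := by
  rintro ⟨q, hq⟩
  obtain ⟨c, hc, q', hq'⟩ := p9_clear q
  have h1 : toE (C c * G) = toE (g * q') := by
    unfold toE at *
    rw [map_mul, map_mul, hq', hq, map_C]
    ring
  have h2 : C c * G = g * q' :=
    MvPolynomial.map_injective _ (FaithfulSMul.algebraMap_injective (𝓞 E) E) h1
  have h3 : subst W f (C c * G) = 0 := by
    rw [h2, map_mul, hg, zero_mul]
  rw [map_mul] at h3
  rcases mul_eq_zero.1 h3 with h | h
  · have h4 : subst W f (C c) = C (f (C c)) := by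
      simp [subst]
    rw [h4] at h
    have h5 : (f.comp C) c = 0 := by
      exact (C_eq_zero (σ := W.Rest)).1 h
    exact hc ((map_eq_zero_iff _ hf.inj).1 h5)
  · exact hG h

omit [NumberField E] [DecidableEq M] in
theorem p10_vf_sum (a : M → 𝓞 E) (e : σ) (m : M → MvPolynomial σ (𝓞 E)) :
    U.vf e (∑ μ, C (a μ) * m μ) = ∑ μ, C (a μ) * U.vf e (m μ) := by
  rw [map_sum]
  refine Finset.sum_congr rfl fun μ _ => ?_
  rw [← smul_eq_C_mul, ← smul_eq_C_mul, Derivation.map_smul]

omit [NumberField E] [IsDomain D] in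
/-- The evaluation at a point of the chart. -/
theorem p10_eval (hf : ToChart U f) {κ : Type} [CommRing κ] (ψ : D →+* κ)
    (p : MvPolynomial σ (𝓞 E) →+* κ) (hp : ∀ x, ψ (f x) = p x) (a : M → 𝓞 E)
    (h0 : p (∑ μ, C (a μ) * W.mon μ) = 0)
    (h1 : ∀ e : U.T, p (U.vf e.1 (∑ μ, C (a μ) * W.mon μ)) = 0) (g : MvPolynomial M (𝓞 E)) :
    eval₂ ψ (fun ρ : W.Rest => p (C (a ρ.1))) (subst W f g) = p (C (eval a g)) := by
  have hal := eval_alpha W f hf ψ (fun μ => p (C (a μ)))
    (by
      rw [← h0, map_sum]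
      exact Finset.sum_congr rfl fun μ _ => by rw [map_mul, hp])
    (by
      intro e
      rw [← h1 e, p10_vf_sum, map_sum]
      exact Finset.sum_congr rfl fun μ _ => by rw [map_mul, hp])
  have key : (eval₂Hom ψ (fun ρ : W.Rest => p (C (a ρ.1)))).comp (subst W f) =
      (p.comp C).comp (eval a) := by
    apply MvPolynomial.ringHom_ext
    · intro c
      rw [RingHom.comp_apply, subst, coe_eval₂Hom, coe_eval₂Hom, eval₂_C, RingHom.comp_apply,
        eval₂_C, RingHom.comp_apply, RingHom.comp_apply, RingHom.comp_apply, eval_C, hp]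
    · intro μ
      rw [RingHom.comp_apply, subst, coe_eval₂Hom, coe_eval₂Hom, eval₂_X, hal μ,
        RingHom.comp_apply, RingHom.comp_apply, eval_X]
  exact congrArg (fun φ : MvPolynomial M (𝓞 E) →+* κ => φ g) key

omit [NumberField E] [IsDomain D] in
/-- The evaluation of the Hessian. -/
theorem p10_eval_hess (hf : ToChart U f) {κ : Type} [CommRing κ] (ψ : D →+* κ)
    (p : MvPolynomial σ (𝓞 E) →+* κ) (hp : ∀ x, ψ (f x) = p x) (a : M → 𝓞 E)
    (h0 : p (∑ μ, C (a μ) * W.mon μ) = 0)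
    (h1 : ∀ e : U.T, p (U.vf e.1 (∑ μ, C (a μ) * W.mon μ)) = 0) :
    eval₂ ψ (fun ρ : W.Rest => p (C (a ρ.1))) (gHess W f).det =
      p (U.hess (∑ μ, C (a μ) * W.mon μ)).det := by
  have hal := eval_alpha W f hf ψ (fun μ => p (C (a μ)))
    (by
      rw [← h0, map_sum]
      exact Finset.sum_congr rfl fun μ _ => by rw [map_mul, hp])
    (by
      intro e
      rw [← h1 e, p10_vf_sum, map_sum]
      exact Finset.sum_congr rfl fun μ _ => by rw [map_mul, hp])
  rw [← coe_eval₂Hom, RingHom.map_det, RingHom.map_det]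
  congr 1
  ext e e'
  rw [RingHom.mapMatrix_apply, RingHom.mapMatrix_apply, Matrix.map_apply, Matrix.map_apply,
    gHess, Std.hess, Matrix.of_apply, Matrix.of_apply, p10_vf_sum, p10_vf_sum, map_sum, map_sum]
  refine Finset.sum_congr rfl fun μ _ => ?_
  rw [map_mul, map_mul, coe_eval₂Hom, hal μ, eval₂_C, hp]

/-- Assembly. `D` is the localization of `MvPolynomial σ (𝓞 E) ⧸ I` at `h`. For `𝔮` let
`κ` be the fraction field of the quotient by `𝔮` and `ψ : D →+* κ`; by `eval_alpha`,
`eval₂ ψ a` maps `subst W f p` to the image of `eval a p`, and `(gHess W f).det` to the image of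
`(U.hess F).det`. -/
theorem exists_pair_aux {I : Ideal (MvPolynomial σ (𝓞 E))} (hI : I.IsPrime)
    (h0 : ∀ c : 𝓞 E, C c ∈ I → c = 0) (hU : U.For I) (hh : U.h ∉ I) :
    ∃ g G : MvPolynomial M (𝓞 E), Irreducible (toE g) ∧ ¬ toE g ∣ toE G ∧
      ∀ (a : M → 𝓞 E) (𝔮 : Ideal (MvPolynomial σ (𝓞 E))), 𝔮.IsPrime → I ≤ 𝔮 → U.h ∉ 𝔮 →
        ∑ μ, C (a μ) * W.mon μ ∈ 𝔮 → (∀ e ∈ U.T, U.vf e (∑ μ, C (a μ) * W.mon μ) ∈ 𝔮) →
          C (eval a g) ∈ 𝔮 ∧
            ((U.hess (∑ μ, C (a μ) * W.mon μ)).det ∈ 𝔮 → C (eval a G) ∈ 𝔮) := by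
  let B := MvPolynomial σ (𝓞 E) ⧸ I
  let hB : B := Ideal.Quotient.mk I U.h
  have hB0 : hB ≠ 0 := fun h => hh (Ideal.Quotient.eq_zero_iff_mem.1 h)
  let D' := Localization.Away hB
  have hle : Submonoid.powers hB ≤ nonZeroDivisors B :=
    powers_le_nonZeroDivisors_of_noZeroDivisors hB0
  have hdom : IsDomain D' := IsLocalization.isDomain_localization hle
  have hinjD : Function.Injective (algebraMap B D') := IsLocalization.injective D' hle
  let f' : MvPolynomial σ (𝓞 E) →+* D' := (algebraMap B D').comp (Ideal.Quotient.mk I)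
  have hf'h : IsUnit (f' U.h) := IsLocalization.Away.algebraMap_isUnit hB
  have hf : ToChart U f' := by
    refine ⟨fun κ => ?_, ?_, ?_, ?_⟩
    · change algebraMap B D' (Ideal.Quotient.mk I (U.g κ)) = 0
      rw [Ideal.Quotient.eq_zero_iff_mem.2 (hU.mem κ), map_zero]
    · rw [Std.h, map_mul] at hf'h
      exact isUnit_of_mul_isUnit_right hf'h
    · rw [injective_iff_map_eq_zero]
      intro c hc
      have hc' : algebraMap B D' (Ideal.Quotient.mk I (C c)) = 0 := hc
      rw [map_eq_zero_iff _ hinjD, Ideal.Quotient.eq_zero_iff_mem] at hc'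
      exact h0 c hc'
    · intro y
      obtain ⟨k, b, hb⟩ := IsLocalization.Away.surj hB y
      obtain ⟨b', rfl⟩ := Ideal.Quotient.mk_surjective b
      refine ⟨b', U.h ^ k, ?_, ?_⟩
      · rw [map_pow]
        exact hf'h.pow k
      · rw [map_pow]
        exact hb
  obtain ⟨g, hg, hg0⟩ := exists_g W f' hf
  obtain ⟨G, hG0, hG⟩ := exists_G W f' hf
  refine ⟨g, G, hg, not_dvd W f' hf hg0 hG0, ?_⟩
  intro a 𝔮 h𝔮 hI𝔮 hh𝔮 hF hvf
  let κ := FractionRing (MvPolynomial σ (𝓞 E) ⧸ 𝔮)
  let p : MvPolynomial σ (𝓞 E) →+* κ :=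
    (algebraMap (MvPolynomial σ (𝓞 E) ⧸ 𝔮) κ).comp (Ideal.Quotient.mk 𝔮)
  have hp0 : ∀ x, p x = 0 ↔ x ∈ 𝔮 := by
    intro x
    change algebraMap (MvPolynomial σ (𝓞 E) ⧸ 𝔮) κ (Ideal.Quotient.mk 𝔮 x) = 0 ↔ x ∈ 𝔮
    rw [map_eq_zero_iff _ (IsFractionRing.injective (MvPolynomial σ (𝓞 E) ⧸ 𝔮) κ),
      Ideal.Quotient.eq_zero_iff_mem]
  let pB : B →+* κ := Ideal.Quotient.lift I p fun x hx => (hp0 x).2 (hI𝔮 hx)
  have hu : IsUnit (pB hB) := by
    rw [isUnit_iff_ne_zero]
    change p U.h ≠ 0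
    rw [Ne, hp0]
    exact hh𝔮
  let ψ : D' →+* κ := IsLocalization.Away.lift hB hu
  have hp : ∀ x, ψ (f' x) = p x := by
    intro x
    exact IsLocalization.Away.lift_eq hB hu (Ideal.Quotient.mk I x)
  have hF' := (hp0 _).2 hF
  have hvf' : ∀ e : U.T, p (U.vf e.1 (∑ μ, C (a μ) * W.mon μ)) = 0 := fun e =>
    (hp0 _).2 (hvf e.1 e.2)
  constructor
  · rw [← hp0, ← p10_eval W f' hf ψ p hp a hF' hvf' g, hg0, eval₂_zero]
  · intro hdet
    rw [← hp0, ← p10_eval W f' hf ψ p hp a hF' hvf' G]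
    obtain ⟨q, hq⟩ := hG
    rw [hq, eval₂_mul, p10_eval_hess W f' hf ψ p hp a hF' hvf', (hp0 _).2 hdet, zero_mul]

end

/-- The dehomogenized monomial. -/
noncomputable def p11_mon {R : Type} [CommRing R] {n d : ℕ} (i : Fin (n + 1)) (μ : Mono n d) :
    MvPolynomial {l : Fin (n + 1) // l ≠ i} R :=
  dehom i (MvPolynomial.map (algebraMap ℤ R) (DensPair.mon μ))

theorem p11_inj2 {n d : ℕ} (hd : 2 ≤ d) (i : Fin (n + 1)) (j l : {l : Fin (n + 1) // l ≠ i})
    (h : DensPair.dm hd i j = DensPair.dm hd i l) : j = l := by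
  by_contra hne
  have hne' : j.1 ≠ l.1 := fun h => hne (Subtype.ext h)
  have := congrArg (fun μ : Mono n d => (μ.1 j.1 : ℕ)) h
  simp [DensPair.dm, j.2, hne'] at this

/-- The monomials of degree `d` in `X 0, ..., X n`, dehomogenized. -/
theorem exists_mons {R : Type} [CommRing R] {n d : ℕ} (hd : 2 ≤ d) (i : Fin (n + 1))
    (T : Finset {l : Fin (n + 1) // l ≠ i}) :
    ∃ W : Mons R {l : Fin (n + 1) // l ≠ i} T (Mono n d),
      ∀ a : Mono n d → R, dF a i = ∑ μ, C (a μ) * W.mon μ := by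
  refine ⟨{
    mon := p11_mon i
    m0 := DensPair.cm n d i
    m1 := fun e => DensPair.bm hd i e.1
    m2 := fun e => DensPair.dm hd i e.1
    mon_m0 := ?_
    mon_m1 := fun e => ?_
    mon_m2 := fun e => ?_
    inj1 := fun e e' h => Subtype.ext (DensPair.bm_inj hd i _ _ h)
    inj2 := fun e e' h => Subtype.ext (p11_inj2 hd i _ _ h)
    ne01 := fun e h => DensPair.cm_ne_bm hd i e.1 h.symm
    ne02 := fun e => DensPair.dm_ne_cm hd i e.1
    ne12 := fun e e' => DensPair.dm_ne_bm hd i e.1 e'.1 }, fun a => ?_⟩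
  · rw [p11_mon, DensPair.mon_cm, map_pow, map_X, map_pow, dehom_X_self, one_pow]
  · rw [p11_mon, DensPair.mon_bm, map_mul, map_pow, map_X, map_X, map_mul, map_pow,
      dehom_X_self, one_pow, one_mul, dehom_X]
  · rw [p11_mon, DensPair.mon_dm, map_mul, map_pow, map_pow, map_X, map_X, map_mul, map_pow,
      map_pow, dehom_X_self, one_pow, one_mul, dehom_X]
  · rw [dF, DensPair.form_eq, map_sum]
    refine Finset.sum_congr rfl fun μ _ => ?_
    rw [map_mul, dehom_C]
    rfl

theorem exists_pair {E : Type} [Field E] [NumberField E] {n d : ℕ} (hd : 2 ≤ d)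
    (i : Fin (n + 1)) {I : Ideal (MvPolynomial {l : Fin (n + 1) // l ≠ i} (𝓞 E))}
    (hI : I.IsPrime) (h0 : ∀ c : 𝓞 E, C c ∈ I → c = 0)
    (U : Std (𝓞 E) {l : Fin (n + 1) // l ≠ i}) (hU : U.For I) (hh : U.h ∉ I) :
    ∃ g G : MvPolynomial (Mono n d) (𝓞 E), Irreducible (toE g) ∧ ¬ toE g ∣ toE G ∧
      ∀ (a : Mono n d → 𝓞 E) (𝔮 : Ideal (MvPolynomial {l : Fin (n + 1) // l ≠ i} (𝓞 E))),
        𝔮.IsPrime → I ≤ 𝔮 → U.h ∉ 𝔮 → dF a i ∈ 𝔮 → (∀ e ∈ U.T, U.vf e (dF a i) ∈ 𝔮) →
          C (eval a g) ∈ 𝔮 ∧ ((U.hess (dF a i)).det ∈ 𝔮 → C (eval a G) ∈ 𝔮) := by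
  obtain ⟨W, hW⟩ := exists_mons (R := 𝓞 E) hd i U.T
  obtain ⟨g, G, h1, h2, h3⟩ := exists_pair_aux W hI h0 hU hh
  refine ⟨g, G, h1, h2, fun a 𝔮 => ?_⟩
  rw [hW a]
  exact h3 a 𝔮

end Pool.Agent.Lib.MP_6a3dac_ag.Bert
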