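import Pool.Agent.Lib.MP_6a3dac_ag.Bert.Indep
import Pool.Agent.Lib.MP_6a3dac_ag.Bert.Pair

/-!
# The density of the good sections
-/

set_option autoImplicit false

namespace Pool.Agent.Lib.MP_6a3dac_ag.Bert

open MvPolynomial CategoryTheory Limits AlgebraicGeometry NumberField IsDedekindDomain Filter
open Pool.Agent.Lib.MP_6a3dac_ag.DNF Pool.Agent.Lib.MP_6a3dac_ag.Maj
open Pool.Agent.Lib.MP_6a3dac_ag.Sys

/-- Infinite products. -/
theorem prod_facts {Y : Type} {a : Y → ℝ} (h0 : ∀ y, 0 ≤ a y) (h1 : ∀ y, a y < 1)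
    (hs : Summable a) : (Multipliable fun y => 1 - a y) ∧ 0 < ∏' y, (1 - a y) ∧
      ∀ S : Finset Y, ∏' y, (1 - a y) ≤ ∏ y ∈ S, (1 - a y) := by
  have hpos : ∀ y, 0 < 1 - a y := fun y => by linarith [h1 y]
  have hlog : Summable fun y => Real.log (1 - a y) := by
    have h := Real.summable_log_one_add_of_summable hs.neg
    simpa [sub_eq_add_neg] using h
  have hexp : Real.exp (∑' y, Real.log (1 - a y)) = ∏' y, (1 - a y) :=
    Real.rexp_tsum_eq_tprod hpos hlog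
  refine ⟨Real.multipliable_of_summable_log hpos hlog, ?_, fun S => ?_⟩
  · rw [← hexp]
    exact Real.exp_pos _
  · have h2 : ∏ y ∈ S, (1 - a y) = Real.exp (∑ y ∈ S, Real.log (1 - a y)) := by
      rw [Real.exp_sum]
      exact Finset.prod_congr rfl fun y _ => (Real.exp_log (hpos y)).symm
    rw [← hexp, h2, Real.exp_le_exp]
    have h3 := hlog.neg.sum_le_tsum S (fun y _ => by
      have h3 : Real.log (1 - a y) ≤ 0 :=
        Real.log_nonpos (hpos y).le (by linarith [h0 y])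
      linarith)
    rw [tsum_neg, Finset.sum_neg_distrib] at h3
    linarith

section

variable {E : Type} [Field E] [NumberField E] {n m : ℕ} {I : HomIdeal (𝓞 E) (n + 1)}

/-- The sections to which the local criterion applies. -/
def Good {d : ℕ} (𝒰 : Charts (𝓞 E) n) (I : HomIdeal (𝓞 E) (n + 1)) (m₀ : 𝓞 E)
    (a : Mono n d → 𝓞 E) : Prop :=
  SmoothIn 𝒰 I a ∧ ∀ P : HeightOneSpectrum (𝓞 E),
    TotReg I P a ∨ (m₀ ∉ P.asIdeal ∧ NodalAt 𝒰 I P a)

/-- The section is smooth over `E`, and nodal at the large primes, with a probability close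
to one. -/
theorem UD_nodal {s : ℕ} (b : Module.Basis (Fin s) ℤ (𝓞 E)) {𝒰 : Charts (𝓞 E) n} {m₀ : 𝓞 E}
    (h : Hyp I m 𝒰 m₀) {d : ℕ} (hd : 2 ≤ d) :
    UD (fun u : Mono n d × Fin s → ℤ => ¬ SmoothIn 𝒰 I (coeffs b u)) 0 ∧
    ∃ (c : ℝ) (M₀ : ℕ), ∀ M, M₀ ≤ M → UD (fun u : Mono n d × Fin s → ℤ =>
      ∃ P : HeightOneSpectrum (𝓞 E), (¬ ∃ p : ℕ, p.Prime ∧ p ≤ M ∧ (p : 𝓞 E) ∈ P.asIdeal) ∧
        ¬ NodalAt 𝒰 I P (coeffs b u)) (c / M) := by
  classical
  let T : Type := {p : Σ i, 𝒰.τ i // (𝒰.U p.1 p.2).h ∉ dId I p.1}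
  have hfin : Fintype T := Fintype.ofFinite T
  have hprime : ∀ t : T, (dId I t.1.1).IsPrime ∧ ∀ c : 𝓞 E, C c ∈ dId I t.1.1 → c = 0 := by
    intro t
    have h1 : dId I t.1.1 ≠ ⊤ := fun h2 => t.2 (h2 ▸ Submodule.mem_top)
    obtain ⟨𝔮, h2, h3⟩ := Ideal.exists_le_maximal _ h1
    exact dId_prime h.prime h.inj _ h2.isPrime h3
  choose g G hg hgG hpair using fun t : T =>
    exists_pair hd t.1.1 (hprime t).1 (hprime t).2 (𝒰.U t.1.1 t.1.2) (h.charts.is _ _) t.2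
  have hne : ∀ (i : Fin (n + 1)) (t : 𝒰.τ i)
      (𝔮 : Ideal (MvPolynomial {l : Fin (n + 1) // l ≠ i} (𝓞 E))), dId I i ≤ 𝔮 →
      (𝒰.U i t).h ∉ 𝔮 → (𝒰.U i t).h ∉ dId I i := fun i t 𝔮 h1 h2 h3 => h2 (h1 h3)
  refine ⟨?_, ?_⟩
  · have h1 : UD (fun u : Mono n d × Fin s → ℤ => ∃ t ∈ (Finset.univ : Finset T),
        eval (coeffs b u) (g t) = 0) (∑ t : T, (0 : ℝ)) :=
      UD.exists_finset Finset.univ fun t _ => UD_eval_eq_zero b (fun h0 => (hg t).ne_zero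
        (by rw [h0, toE, map_zero]))
    rw [Finset.sum_const_zero] at h1
    refine h1.mono (fun u hu => ?_) le_rfl
    unfold SmoothIn at hu
    push Not at hu
    obtain ⟨i, t, 𝔮, h2, h3, h4, h5, h6, h7⟩ := hu
    refine ⟨⟨⟨i, t⟩, hne i t 𝔮 h3 h5⟩, Finset.mem_univ _, ?_⟩
    exact h4 _ (hpair ⟨⟨i, t⟩, hne i t 𝔮 h3 h5⟩ (coeffs b u) 𝔮 h2 h3 h5 h6 h7).1
  · obtain ⟨c, M₀, hc⟩ := tail_bound' b g G hg hgG
    refine ⟨c, M₀, fun M hM => (hc M hM).mono ?_ le_rfl⟩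
    rintro u ⟨P, hP, hu⟩
    refine ⟨P, hP, ?_⟩
    unfold NodalAt at hu
    push Not at hu
    obtain ⟨i, t, 𝔮, h2, h3, h4, h5, h6, h7, h8⟩ := hu
    have h9 := hpair ⟨⟨i, t⟩, hne i t 𝔮 h3 h5⟩ (coeffs b u) 𝔮 h2 h3 h5 h6 h7
    have hcom : 𝔮.comap C = P.asIdeal := by
      refine (P.isMaximal.eq_of_le ?_ ?_).symm
      · exact (Ideal.IsPrime.comap C).ne_top
      · rw [← Ideal.map_le_iff_le_comap]
        exact h4
    refine ⟨⟨⟨i, t⟩, hne i t 𝔮 h3 h5⟩, ?_, ?_⟩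
    · rw [← hcom, Ideal.mem_comap]
      exact h9.1
    · rw [← hcom, Ideal.mem_comap]
      exact h9.2 h8

/-- The factors are less than one. -/
theorem two_le_card {𝒰 : Charts (𝓞 E) n} {m₀ : 𝓞 E} (h : Hyp I m 𝒰 m₀)
    (y : closedPoints (hProj I)) : 2 ≤ Nat.card ((hProj I).residueField y.1) := by
  obtain ⟨i, 𝔮, hy⟩ := exists_atPt I y.1
  have hmax := (hy.mem_closedPoints_iff).mp y.2
  rw [hy.card_residueField I hmax]
  obtain ⟨P, hP⟩ := exists_prime_le hmax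
  obtain ⟨h1, h2, e, he, h3⟩ := exists_card_residue' i P hmax hP
  rw [h3]
  have h4 : 2 ≤ Nat.card (𝓞 E ⧸ P.asIdeal) := by
    have := two_le_norm P
    exact_mod_cast this
  calc 2 ≤ Nat.card (𝓞 E ⧸ P.asIdeal) ^ 1 := by simpa using h4
    _ ≤ _ := Nat.pow_le_pow_right (by omega) he

theorem bert_prod {𝒰 : Charts (𝓞 E) n} {m₀ : 𝓞 E} (h : Hyp I m 𝒰 m₀) :
    (Multipliable fun y : closedPoints (hProj I) => ptFactor m y.1) ∧
      0 < ∏' y : closedPoints (hProj I), ptFactor m y.1 ∧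
      ∀ S : Finset (closedPoints (hProj I)),
        ∏' y : closedPoints (hProj I), ptFactor m y.1 ≤ ∏ y ∈ S, ptFactor m y.1 := by
  refine prod_facts (a := fun y : closedPoints (hProj I) =>
    1 / (Nat.card ((hProj I).residueField y.1) : ℝ) ^ (m + 1)) (fun y => by positivity)
    (fun y => ?_) (summable_points h)
  have h1 : (2 : ℝ) ≤ Nat.card ((hProj I).residueField y.1) := by
    exact_mod_cast two_le_card h y
  rw [div_lt_one (by positivity)]
  exact one_lt_pow₀ (by linarith) (by omega)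

/-- **The density of the good sections.** -/
theorem bert_density {s : ℕ} (b : Module.Basis (Fin s) ℤ (𝓞 E)) {𝒰 : Charts (𝓞 E) n}
    {m₀ : 𝓞 E} (h : Hyp I m 𝒰 m₀) {ε : ℝ} (hε : 0 < ε) :
    ∃ d₀ : ℕ, ∀ d, d₀ ≤ d → ∀ᶠ H in atTop,
      ∏' y : closedPoints (hProj I), ptFactor m y.1 - ε ≤
        prop (fun u : Mono n d × Fin s → ℤ => Good 𝒰 I m₀ (coeffs b u)) H := by
  classical
  obtain ⟨-, -, hprod⟩ := bert_prod h
  obtain ⟨Z, hZ⟩ : ∃ Z, Z = ∏' y : closedPoints (hProj I), ptFactor m y.1 := ⟨_, rfl⟩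
  rw [← hZ] at hprod ⊢
  obtain ⟨c₁, d₁, h1⟩ := UD_good b h
  have hc₁ : 0 ≤ |c₁| := abs_nonneg _
  -- the tail of the sum over the primes
  have hsum := (summable_norm E).mul_left (|c₁|)
  obtain ⟨T₀, hT₀⟩ := (summable_iff_vanishing_norm.mp hsum) (ε / 8) (by linarith)
  -- the small primes: T₀ and the primes containing `m₀`
  have hm₀fin : {P : HeightOneSpectrum (𝓞 E) | m₀ ∈ P.asIdeal}.Finite := by
    have h2 : Ideal.span {m₀} ≠ (⊥ : Ideal (𝓞 E)) := by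
      rw [Ne, Ideal.span_singleton_eq_bot]
      exact h.ne
    refine (Ideal.finite_factors h2).subset ?_
    intro P hP
    exact Ideal.dvd_iff_le.mpr ((Ideal.span_singleton_le_iff_mem _).mpr hP)
  set T₁ : Finset (HeightOneSpectrum (𝓞 E)) := T₀ ∪ hm₀fin.toFinset with hT₁
  have hT₁pos : (0 : ℝ) < T₁.card + 1 := by positivity
  choose e₀ d₂ h2 using fun P : HeightOneSpectrum (𝓞 E) =>
    UD_any b h P (show (0 : ℝ) < ε / (8 * (T₁.card + 1)) by positivity)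
  -- the finite set of closed points
  let S₀ : HeightOneSpectrum (𝓞 E) → Finset (closedPoints (hProj I)) := fun P =>
    (finite_points h P (Nat.card (𝓞 E ⧸ P.asIdeal) ^ e₀ P)).toFinset
  let S : Finset (closedPoints (hProj I)) := T₁.biUnion S₀
  obtain ⟨d₃, h3⟩ := UD_finset b h S
  refine ⟨max (max d₁ (T₁.sup d₂)) (max d₃ 2), fun d hd => ?_⟩
  have hdd₁ : d₁ ≤ d := ((le_max_left _ _).trans (le_max_left _ _)).trans hd
  have hdd₂ : ∀ P ∈ T₁, d₂ P ≤ d := fun P hP =>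
    (((Finset.le_sup hP).trans (le_max_right _ _)).trans (le_max_left _ _)).trans hd
  have hdd₃ : d₃ ≤ d := ((le_max_left _ _).trans (le_max_right _ _)).trans hd
  have hd2 : 2 ≤ d := ((le_max_right _ _).trans (le_max_right _ _)).trans hd
  obtain ⟨h4, c₂, M₀, h5⟩ := UD_nodal b h hd2
  obtain ⟨M, hM⟩ := exists_nat_gt (max (M₀ : ℝ) (|c₂| / (ε / 8)))
  have hM0 : M₀ ≤ M := by
    have := (le_max_left _ _).trans hM.le
    exact_mod_cast this
  have hMpos : (0 : ℝ) < M := by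
    have h6 : (0 : ℝ) ≤ |c₂| / (ε / 8) := by positivity
    exact h6.trans_lt ((le_max_right _ _).trans_lt hM)
  have hCM : c₂ / M ≤ ε / 8 := by
    rw [div_le_iff₀ hMpos]
    have h6 := (le_max_right _ _).trans_lt hM
    rw [div_lt_iff₀ (by linarith)] at h6
    have := le_abs_self c₂
    linarith
  set T : Finset (HeightOneSpectrum (𝓞 E)) := (finite_small E M).toFinset with hT
  have hmem : ∀ P, P ∈ T ↔ ∃ p : ℕ, p.Prime ∧ p ≤ M ∧ (p : 𝓞 E) ∈ P.asIdeal := by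
    intro P
    simp [hT]
  -- the events
  have hA := (h5 M hM0).mono (fun u hu => hu) hCM
  have hB : UD (fun u : Mono n d × Fin s → ℤ => ∃ P ∈ T \ T₁, ¬ TotReg I P (coeffs b u))
      (ε / 8) := by
    refine (UD.exists_finset (T \ T₁) (c := fun P =>
      |c₁| * (1 / (Nat.card (𝓞 E ⧸ P.asIdeal) : ℝ) ^ 2)) fun P hP => ?_).mono (fun u hu => hu) ?_
    · have hP' : m₀ ∉ P.asIdeal := by
        intro h6
        refine (Finset.mem_sdiff.mp hP).2 ?_
        rw [hT₁, Finset.mem_union]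
        exact Or.inr (hm₀fin.mem_toFinset.mpr h6)
      refine (h1 P hP' d hdd₁).mono (fun u hu => hu) ?_
      rw [mul_one_div]
      exact div_le_div_of_nonneg_right (le_abs_self _) (by positivity)
    · have h6 := hT₀ (T \ T₁) (by
        rw [Finset.disjoint_left]
        intro P hP hP0
        exact (Finset.mem_sdiff.mp hP).2 (by rw [hT₁]; exact Finset.mem_union_left _ hP0))
      rw [Real.norm_eq_abs] at h6
      exact (le_abs_self _).trans h6.le
  have hC' : UD (fun u : Mono n d × Fin s → ℤ => ∃ P ∈ T₁,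
      ∃ (i : Fin (n + 1)) (𝔮 : Ideal (MvPolynomial {l : Fin (n + 1) // l ≠ i} (𝓞 E))),
        𝔮.IsMaximal ∧ dId I i ≤ 𝔮 ∧ P.asIdeal.map C ≤ 𝔮 ∧
        Nat.card (𝓞 E ⧸ P.asIdeal) ^ e₀ P ≤
          Nat.card (MvPolynomial {l : Fin (n + 1) // l ≠ i} (𝓞 E) ⧸ 𝔮) ∧
        BadAt I (coeffs b u) i 𝔮) (ε / 8) := by
    refine (UD.exists_finset T₁ fun P hP => h2 P d (hdd₂ P hP)).mono (fun u hu => hu) ?_
    rw [Finset.sum_const, nsmul_eq_mul, mul_div_assoc', div_le_div_iff₀ (by positivity)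
      (by norm_num)]
    have h6 : (0 : ℝ) ≤ T₁.card := by positivity
    nlinarith
  have hD := h3 d hdd₃
  have hall := (((hA.or hB).or hC').or hD).or h4
  filter_upwards [hall (ε / 8) (by linarith)] with H hH
  have h7 : 1 - prop (fun u : Mono n d × Fin s → ℤ => Good 𝒰 I m₀ (coeffs b u)) H ≤
      ε / 8 + ε / 8 + ε / 8 + (1 - ∏ y ∈ S, ptFactor m y.1) + 0 + ε / 8 := by
    rw [← prop_compl]
    refine (prop_mono (fun u hu => ?_) H).trans hH
    by_contra hcon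
    push Not at hcon
    obtain ⟨⟨⟨⟨hc1, hc2⟩, hc3⟩, hc4⟩, hc5⟩ := hcon
    apply hu
    refine ⟨hc5, fun P => ?_⟩
    by_cases hPT : P ∈ T₁
    · left
      intro i 𝔮 hmax hI hP hbad
      have h8 := hc3 P hPT i 𝔮 hmax hI hP
      by_cases hcard : Nat.card (𝓞 E ⧸ P.asIdeal) ^ e₀ P ≤
          Nat.card (MvPolynomial {l : Fin (n + 1) // l ≠ i} (𝓞 E) ⧸ 𝔮)
      · exact h8 hcard hbad
      · obtain ⟨y, hy⟩ := exists_pt I i hmax.isPrime hI
        have hyc : y ∈ closedPoints (hProj I) := hy.mem_closedPoints_iff.mpr hmax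
        refine hc4 ⟨y, hyc⟩ ?_ i 𝔮 hy hbad
        simp only [S, Finset.mem_biUnion]
        refine ⟨P, hPT, ?_⟩
        simp only [S₀, Set.Finite.mem_toFinset, Set.mem_ofPred_eq]
        refine ⟨?_, i, 𝔮, hy, hP⟩
        rw [hy.card_residueField I hmax]
        exact (not_le.mp hcard).le
    · have hPm : m₀ ∉ P.asIdeal := by
        intro h6
        exact hPT (by rw [hT₁, Finset.mem_union]; exact Or.inr (hm₀fin.mem_toFinset.mpr h6))
      by_cases hPT' : P ∈ T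
      · left
        exact hc2 P (Finset.mem_sdiff.mpr ⟨hPT', hPT⟩)
      · right
        refine ⟨hPm, ?_⟩
        refine hc1 P ?_
        rintro p hp1 hp2 hp3
        exact hPT' ((hmem P).mpr ⟨p, hp1, hp2, hp3⟩)
  have h9 := hprod S
  linarith

end

end Pool.Agent.Lib.MP_6a3dac_ag.Bert
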