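import Pool.Agent.Lib.MP_6a3dac_ag.Bert.Alg
import Pool.Agent.Lib.MP_6a3dac_ag.Mg.G067

/-!
# Geometric points of the standard charts
-/

set_option autoImplicit false

namespace Pool.Agent.Lib.MP_6a3dac_ag.Bert

open MvPolynomial
open Pool.Agent.Lib.MP_6a3dac_ag.DNF Pool.Agent.Lib.MP_6a3dac_ag.Maj

namespace Std

variable {σ : Type} [DecidableEq σ] [Fintype σ]

theorem b1_isAlgebraic_of_derivation {K L : Type} [Field K] [Field L] [Algebra K L]
    [Algebra.EssFiniteType K L] (h : ∀ D : Derivation K L L, D = 0) : Algebra.IsAlgebraic K L := by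
  have h1 : Subsingleton (Ω[L⁄K]) := by
    by_contra hcon
    rw [not_subsingleton_iff_nontrivial] at hcon
    obtain ⟨v, hv⟩ := exists_ne (0 : Ω[L⁄K])
    refine hv ((Module.forall_dual_apply_eq_zero_iff L v).1 fun φ => ?_)
    have h2 : φ = 0 := by
      have h3 := h (φ.compDer (KaehlerDifferential.D K L))
      have h4 : (KaehlerDifferential.linearMapEquivDerivation K L) φ = 0 := h3
      exact (LinearEquiv.map_eq_zero_iff _).1 h4
    rw [h2]
    rfl
  have h2 : Algebra.FormallyUnramified K L := ⟨h1⟩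
  have h3 : Algebra.IsSeparable K L := (Algebra.FormallyUnramified.iff_isSeparable K L).1 h2
  infer_instance

omit [DecidableEq σ] in
theorem b1_chain {K F L : Type} [Field K] [Field F] [Field L] [Algebra K F] [Algebra F L]
    [Algebra K L] [IsScalarTower K F L] (D : Derivation F L L) (z : σ → L)
    (f : MvPolynomial σ K) :
    D (aeval z f) = ∑ l, D (z l) * aeval z (pderiv l f) := by
  classical
  induction f using MvPolynomial.induction_on with
  | C a =>
    rw [aeval_C, IsScalarTower.algebraMap_apply K F L, Derivation.map_algebraMap]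
    simp
  | add p q hp hq =>
    simp only [map_add, hp, hq, mul_add, Finset.sum_add_distrib]
  | mul_X p i hp =>
    rw [map_mul, aeval_X, Derivation.leibniz, hp]
    simp only [Derivation.leibniz, pderiv_X, smul_eq_mul, map_add, map_mul, aeval_X, mul_add,
      Finset.sum_add_distrib, Finset.mul_sum]
    congr 1
    · rw [Finset.sum_eq_single i]
      · simp only [Pi.single_eq_same, map_one, mul_one]
        ring
      · intro j _ hj
        rw [Pi.single_eq_of_ne hj.symm, map_zero]
        ring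
      · intro h
        exact absurd (Finset.mem_univ i) h
    · refine Finset.sum_congr rfl fun l _ => ?_
      ring

/-- Replace `K` by its algebraic closure `F` in `Ω` (an intermediate field, all `z e`,
`e ∈ T`, lie in `F`) and let `L = F(z)`. A derivation `D` of `L` over `F` satisfies
`∑ l ∉ T, (∂ g κ / ∂ x l) (z) * D (z l) = 0` for all `κ`, so `Δ(z) * D (z l) = 0` and `D = 0`. So
`Ω[L⁄F] = 0`, and `L` is algebraic over `F` by `Algebra.FormallyUnramified.iff_isSeparable`. -/
theorem isAlgebraic_of_mem_pts {K Ω : Type} [Field K] [Field Ω] [Algebra K Ω] (U : Std K σ)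
    {z : σ → Ω} (hz : z ∈ U.pts Ω) (h : ∀ e ∈ U.T, IsAlgebraic K (z e)) (l : σ) :
    IsAlgebraic K (z l) := by
  let F : IntermediateField K Ω := algebraicClosure K Ω
  let L : IntermediateField F Ω := IntermediateField.adjoin F (Set.range z)
  have hzL : ∀ l, z l ∈ L := fun l => IntermediateField.subset_adjoin F _ ⟨l, rfl⟩
  let z' : σ → L := fun l => ⟨z l, hzL l⟩
  have hKL : IsScalarTower K L Ω := IsScalarTower.of_algebraMap_eq fun x => rfl
  have hzz : ∀ f : MvPolynomial σ K, algebraMap L Ω (aeval z' f) = aeval z f := by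
    intro f
    rw [← MvPolynomial.aeval_algebraMap_apply]
    rfl
  have hL : Algebra.EssFiniteType F L := by
    rw [IntermediateField.essFiniteType_iff]
    exact IntermediateField.fg_adjoin_of_finite (Set.finite_range z)
  have hD : ∀ D : Derivation F L L, D = 0 := by
    intro D
    have h1 : ∀ e ∈ U.T, D (z' e) = 0 := by
      intro e he
      have h2 : z e ∈ F := mem_algebraicClosure_iff.2 (h e he)
      have h3 : z' e = algebraMap F L ⟨z e, h2⟩ := rfl
      rw [h3, Derivation.map_algebraMap]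
    have h2 : ∀ κ, ∑ l, D (z' l) * (aeval z').toRingHom (pderiv l (U.g κ)) = 0 := by
      intro κ
      have h3 := b1_chain D z' (U.g κ)
      have h4 : aeval z' (U.g κ) = 0 := by
        apply (algebraMap L Ω).injective
        rw [hzz, map_zero]
        exact hz.1 κ
      rw [h4, map_zero] at h3
      exact h3.symm
    have h3 : ∀ l, D (z' l) = 0 := by
      intro l
      have h4 := U.cramer (aeval z').toRingHom (fun l => D (z' l)) h2 (X l)
      rw [Finset.sum_eq_zero (s := U.T) (fun e he => by rw [h1 e he, zero_mul])] at h4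
      have h5 : (aeval z').toRingHom U.Δ ≠ 0 := by
        intro h6
        apply hz.2
        have h7 : aeval z' U.h = 0 := by
          show aeval z' (U.s * U.Δ) = 0
          rw [map_mul]
          have h8 : aeval z' U.Δ = 0 := h6
          rw [h8, mul_zero]
        rw [← hzz, h7, map_zero]
      have h6 := (mul_eq_zero.1 h4).resolve_left h5
      rw [Finset.sum_eq_single l] at h6
      · simpa using h6
      · intro j _ hj
        rw [pderiv_X_of_ne hj.symm, map_zero, mul_zero]
      · intro h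
        exact absurd (Finset.mem_univ l) h
    ext x
    have key : ∀ (y : Ω) (hy : y ∈ IntermediateField.adjoin F (Set.range z)),
        D (⟨y, hy⟩ : L) = 0 := by
      intro y hy
      induction hy using IntermediateField.adjoin_induction with
      | mem x hx =>
        obtain ⟨l, rfl⟩ := hx
        exact h3 l
      | algebraMap x => exact D.map_algebraMap x
      | add x y hx hy h1 h2 =>
        have e : (⟨x + y, add_mem hx hy⟩ : L) = ⟨x, hx⟩ + ⟨y, hy⟩ := rfl
        rw [e, map_add, h1, h2, add_zero]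
      | inv x hx h1 =>
        have e : (⟨x⁻¹, inv_mem hx⟩ : L) = (⟨x, hx⟩ : L)⁻¹ := rfl
        rw [e, Derivation.leibniz_inv, h1, smul_zero]
      | mul x y hx hy h1 h2 =>
        have e : (⟨x * y, mul_mem hx hy⟩ : L) = ⟨x, hx⟩ * ⟨y, hy⟩ := rfl
        rw [e, Derivation.leibniz, h1, h2, smul_zero, smul_zero, add_zero]
    have := key x.1 x.2
    exact congrArg Subtype.val this
  have h1 : Algebra.IsAlgebraic F L := b1_isAlgebraic_of_derivation hD
  have h2 : IsAlgebraic F (z l) := by
    have h3 := h1.isAlgebraic (z' l)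
    exact (isAlgebraic_algebraMap_iff (algebraMap L Ω).injective).2 h3
  exact h2.restrictScalars K

/-- The points of the chart with the coordinates `τ i` for `i ∈ I` where the vector fields `vf e`
with `e ∈ A` annihilate `f`. -/
def zset {k Ω : Type} [Field k] [Field Ω] [Algebra k Ω] (U : Std k σ) (τ : Option σ → Ω)
    (f : MvPolynomial σ k) (A I : Finset σ) : Set (σ → Ω) :=
  {z | z ∈ U.pts Ω ∧ (∀ e ∈ A, aeval z (U.vf e f) = 0) ∧ ∀ i ∈ I, z i = τ (some i)}

/-- `card_zeros` of Maj/Zeros.lean for the system `rename some (g κ)` (`κ ∉ T`),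
`X none * rename some h - 1`, `rename some (vf e f)` (`e ∈ A`), `X (some i) - C (τ (some i))`
(`i ∈ I`) of `(card σ - card T) + 1 + card A + card I = card σ + 1` equations in the variables
`Option σ`; its zeros correspond to the points of `zset` by `z ↦ (h(z)⁻¹, z)`. See
`i6_card_Zset` of Maj/FinProb.lean. -/
theorem card_zset {k Ω : Type} [Field k] [Field Ω] [Algebra k Ω] [IsAlgClosed Ω] (U : Std k σ)
    (τ : Option σ → Ω) (f : MvPolynomial σ k) {A I : Finset σ}
    (hAI : A.card + I.card = U.T.card) {D : ℕ} (hD : U.deg + f.totalDegree ≤ D)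
    (hfin : (U.zset τ f A I).Finite) :
    (U.zset τ f A I).ncard ≤ ((Fintype.card σ + 1) * D + 1) ^ ((Fintype.card σ + 1) ^ 2) := by
  classical
  let g : {l : σ // l ∉ U.T} ⊕ (Unit ⊕ (A ⊕ I)) → MvPolynomial (Option σ) Ω :=
    Sum.elim (fun κ => rename some (MvPolynomial.map (algebraMap k Ω) (U.g κ)))
      (Sum.elim (fun _ => X none * rename some (MvPolynomial.map (algebraMap k Ω) U.h) - C 1)
        (Sum.elim (fun e => rename some (MvPolynomial.map (algebraMap k Ω) (U.vf e.1 f)))
          (fun j => X (some j.1) - C (τ (some j.1)))))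
  have hev : ∀ (w : Option σ → Ω) (p : MvPolynomial σ k),
      eval w (rename some (MvPolynomial.map (algebraMap k Ω) p)) = aeval (w ∘ some) p := by
    intro w p
    rw [eval_rename, eval_map, ← aeval_def]
  have hZ : ∀ w : Option σ → Ω, (∀ t, eval w (g t) = 0) ↔
      (w ∘ some ∈ U.zset τ f A I ∧ w none * aeval (w ∘ some) U.h = 1) := by
    intro w
    constructor
    · intro hw
      have hn : w none * aeval (w ∘ some) U.h = 1 := by
        have h1 := hw (Sum.inr (Sum.inl ()))
        simp only [g, Sum.elim_inr, Sum.elim_inl, map_sub, map_mul, eval_X, eval_C, hev] at h1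
        exact sub_eq_zero.mp h1
      refine ⟨⟨⟨fun κ => ?_, ?_⟩, fun e he => ?_, fun j hj => ?_⟩, hn⟩
      · have h1 := hw (Sum.inl κ)
        simp only [g, Sum.elim_inl, hev] at h1
        exact h1
      · intro h0
        rw [h0, mul_zero] at hn
        exact zero_ne_one hn
      · have h1 := hw (Sum.inr (Sum.inr (Sum.inl ⟨e, he⟩)))
        simp only [g, Sum.elim_inr, Sum.elim_inl, hev] at h1
        exact h1
      · have h1 := hw (Sum.inr (Sum.inr (Sum.inr ⟨j, hj⟩)))
        simp only [g, Sum.elim_inr, map_sub, eval_X, eval_C] at h1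
        exact sub_eq_zero.mp h1
    · rintro ⟨⟨⟨h1, _⟩, h3, h4⟩, h5⟩ (κ | _ | e | j)
      · simp only [g, Sum.elim_inl, hev]
        exact h1 κ
      · simp only [g, Sum.elim_inr, Sum.elim_inl, map_sub, map_mul, eval_X, eval_C, hev]
        rw [h5, sub_self]
      · simp only [g, Sum.elim_inr, Sum.elim_inl, hev]
        exact h3 e.1 e.2
      · simp only [g, Sum.elim_inr, map_sub, eval_X, eval_C]
        exact sub_eq_zero.mpr (h4 j.1 j.2)
  have hT : Fintype.card ({l : σ // l ∉ U.T} ⊕ (Unit ⊕ (A ⊕ I))) = Fintype.card (Option σ) := by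
    rw [Fintype.card_sum, Fintype.card_sum, Fintype.card_sum, Fintype.card_coe, Fintype.card_coe,
      Fintype.card_unit, Fintype.card_option, hAI, Fintype.card_subtype_compl, Fintype.card_coe]
    have := U.T.card_le_univ
    omega
  have hg1 : ∀ κ, (U.g κ).totalDegree ≤ U.deg := by
    intro κ
    have h1 : (U.g κ).totalDegree ≤ ∑ κ, (U.g κ).totalDegree :=
      Finset.single_le_sum (f := fun κ => (U.g κ).totalDegree) (fun _ _ => Nat.zero_le _)
        (Finset.mem_univ κ)
    unfold deg
    omega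
  have hh1 : 1 + U.h.totalDegree ≤ U.deg := by
    unfold deg
    omega
  have hren : ∀ p : MvPolynomial σ k,
      (rename (some : σ → Option σ) (MvPolynomial.map (algebraMap k Ω) p)).totalDegree ≤
        p.totalDegree := fun p =>
    (totalDegree_rename_le _ _).trans (Finset.sup_mono (support_map_subset _ _))
  have hDg : ∀ t, (g t).totalDegree ≤ D := by
    rintro (κ | _ | e | j)
    · simp only [g, Sum.elim_inl]
      exact (hren _).trans ((hg1 κ).trans (by omega))
    · simp only [g, Sum.elim_inr, Sum.elim_inl]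
      refine (totalDegree_sub_C_le _ _).trans ((totalDegree_mul _ _).trans ?_)
      rw [totalDegree_X]
      exact (Nat.add_le_add_left (hren _) 1).trans (hh1.trans (by omega))
    · simp only [g, Sum.elim_inr, Sum.elim_inl]
      exact (hren _).trans ((U.totalDegree_vf_le e.1 f).trans hD)
    · simp only [g, Sum.elim_inr]
      refine (totalDegree_sub_C_le _ _).trans ?_
      rw [totalDegree_X]
      have : 1 ≤ U.deg := by unfold deg; omega
      omega
  have hinj : Set.InjOn (fun w : Option σ → Ω => w ∘ some) {w | ∀ t, eval w (g t) = 0} := by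
    intro w hw w' hw' he
    have h1 := ((hZ w).1 hw).2
    have h2 := ((hZ w').1 hw').2
    have he' : w ∘ some = w' ∘ some := he
    funext o
    cases o with
    | some l => exact congrFun he' l
    | none =>
      rw [← he'] at h2
      have h3 : aeval (w ∘ some) U.h ≠ 0 := by
        intro h0
        rw [h0, mul_zero] at h1
        exact zero_ne_one h1
      exact mul_right_cancel₀ h3 (h1.trans h2.symm)
  have hfin' : {w : Option σ → Ω | ∀ t, eval w (g t) = 0}.Finite := by
    refine Set.Finite.of_finite_image (hfin.subset ?_) hinj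
    rintro _ ⟨w, hw, rfl⟩
    exact ((hZ w).1 hw).1
  have hsub : U.zset τ f A I ⊆ (fun w : Option σ → Ω => w ∘ some) ''
      {w | ∀ t, eval w (g t) = 0} := by
    intro z hz
    refine ⟨fun o => o.elim (aeval z U.h)⁻¹ z, ?_, rfl⟩
    have h1 : (fun o : Option σ => o.elim (aeval z U.h)⁻¹ z) ∘ some = z := rfl
    refine (hZ _).2 ⟨?_, ?_⟩
    · rw [h1]; exact hz
    · rw [h1]
      exact inv_mul_cancel₀ hz.1.2
  have h1 := card_zeros hT g hDg hfin'
  rw [Fintype.card_option] at h1
  exact (Set.ncard_le_ncard hsub (hfin'.image _)).trans ((Set.ncard_image_le hfin').trans h1)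

open scoped IntermediateField.algebraAdjoinAdjoin in
theorem b3_transc {k Ω : Type} [Field k] [Field Ω] [Algebra k Ω] {ρ : Type} {τ : ρ → Ω}
    (hτ : AlgebraicIndependent k τ) (I : Finset ρ) {j : ρ} (hj : j ∉ I) :
    Transcendental (IntermediateField.adjoin k (τ '' (I : Set ρ))) (τ j) := by
  have h1 : Transcendental (Algebra.adjoin k (τ '' (I : Set ρ))) (τ j) :=
    hτ.transcendental_adjoin (by simpa using hj)
  intro h2
  apply h1
  exact (IsFractionRing.isAlgebraic_iff (Algebra.adjoin k (τ '' (I : Set ρ)))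
    (IntermediateField.adjoin k (τ '' (I : Set ρ))) Ω).mpr h2

/-- As `exists_insert_of_infinite` of Maj/FinProb.lean. Let `K = k(τ (some i) : i ∈ I)`, and
`J` the ideal of `K[X o : o ∈ Option σ]` generated by `rename some (g κ)`,
`X none * rename some h - 1`, `rename some (vf e f)` for `e ∈ A` and `X (some i) - τ (some i)` for
`i ∈ I`. If the claim fails, `exists_poly_of_no_generic` gives for each `e ∈ T` a polynomial in
`X (some e)` in `J`, so all zeros of `J` have algebraic coordinates `z e`, `e ∈ T`, over `K`, and by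
`isAlgebraic_of_mem_pts` all coordinates of all zeros are algebraic over `K`. As `τ none` is
transcendental over `K`, `exists_poly_of_no_generic` applies to the other variables, and
`finite_zeros_of_poly` gives a contradiction. -/
theorem exists_insert {k Ω : Type} [Field k] [Field Ω] [Algebra k Ω] [IsAlgClosed Ω]
    (U : Std k σ) {τ : Option σ → Ω} (hτ : AlgebraicIndependent k τ) (f : MvPolynomial σ k)
    (A : Finset σ) {I : Finset σ} (hI : I ⊆ U.T) (h : ¬ (U.zset τ f A I).Finite) :
    ∃ j ∈ U.T, j ∉ I ∧ (U.zset τ f A (insert j I)).Nonempty := by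
  by_contra hcon
  push Not at hcon
  apply h
  set I' : Finset (Option σ) := I.map Function.Embedding.some with hI'
  let K := IntermediateField.adjoin k (τ '' (I' : Set (Option σ)))
  have hmem : ∀ i : I, τ (some (i : σ)) ∈ K := fun i =>
    IntermediateField.subset_adjoin _ _ ⟨some i, by
      simp [hI', i.2], rfl⟩
  let φ : k →+* K := algebraMap k K
  let J : Ideal (MvPolynomial (Option σ) K) := Ideal.span
    (((Set.range fun κ => rename some (MvPolynomial.map φ (U.g κ))) ∪
      {X none * rename some (MvPolynomial.map φ U.h) - 1}) ∪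
      ((fun e => rename some (MvPolynomial.map φ (U.vf e f))) '' (A : Set σ) ∪
        Set.range fun i : I => X (some (i : σ)) - C (⟨τ (some (i : σ)), hmem i⟩ : K)))
  have hev : ∀ (w : Option σ → Ω) (p : MvPolynomial σ k),
      aeval w (rename some (MvPolynomial.map φ p) : MvPolynomial (Option σ) K) =
        aeval (fun l => w (some l)) p := by
    intro w p
    rw [aeval_rename]
    exact aeval_map_algebraMap K (fun l => w (some l)) p
  have hJ : ∀ w : Option σ → Ω, (∀ g ∈ J, aeval w g = 0) ↔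
      (fun l => w (some l)) ∈ U.zset τ f A I ∧
        w none * aeval (fun l => w (some l)) U.h = 1 := by
    intro w
    have h1 : (∀ g ∈ J, aeval w g = 0) ↔
        J ≤ RingHom.ker (aeval w : MvPolynomial (Option σ) K →ₐ[K] Ω) := Iff.rfl
    rw [h1, Ideal.span_le]
    constructor
    · intro h2
      have e2 : w none * aeval (fun l => w (some l)) U.h = 1 := by
        have h3 := h2 (Or.inl (Or.inr rfl))
        simp only [SetLike.mem_coe, RingHom.mem_ker, map_sub, map_mul, aeval_X, map_one] at h3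
        rw [hev, sub_eq_zero] at h3
        exact h3
      refine ⟨⟨⟨fun κ => ?_, fun h0 => ?_⟩, fun e he => ?_, fun i hi => ?_⟩, e2⟩
      · have h3 := h2 (Or.inl (Or.inl ⟨κ, rfl⟩))
        simp only [SetLike.mem_coe, RingHom.mem_ker] at h3
        rwa [hev] at h3
      · rw [h0, mul_zero] at e2
        exact zero_ne_one e2
      · have h3 := h2 (Or.inr (Or.inl ⟨e, he, rfl⟩))
        simp only [SetLike.mem_coe, RingHom.mem_ker] at h3
        rwa [hev] at h3
      · have h3 := h2 (Or.inr (Or.inr ⟨⟨i, hi⟩, rfl⟩))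
        simp only [SetLike.mem_coe, RingHom.mem_ker, map_sub, aeval_X, aeval_C] at h3
        exact sub_eq_zero.mp h3
    · rintro ⟨⟨⟨h2, -⟩, h3, h4⟩, h5⟩ g ((⟨κ, rfl⟩ | hg) | (⟨e, he, rfl⟩ | ⟨i, rfl⟩))
      · simp only [SetLike.mem_coe, RingHom.mem_ker]
        rw [hev]
        exact h2 κ
      · rw [Set.mem_singleton_iff] at hg
        subst hg
        simp only [SetLike.mem_coe, RingHom.mem_ker, map_sub, map_mul, aeval_X, map_one]
        rw [hev, h5, sub_self]
      · simp only [SetLike.mem_coe, RingHom.mem_ker]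
        rw [hev]
        exact h3 e he
      · simp only [SetLike.mem_coe, RingHom.mem_ker, map_sub, aeval_X, aeval_C]
        exact sub_eq_zero.mpr (h4 i i.2)
  have hpoly : ∀ e ∈ U.T, ∃ p : Polynomial K, p ≠ 0 ∧
      Polynomial.aeval (X (some e) : MvPolynomial (Option σ) K) p ∈ J := by
    intro e he
    by_cases heI : e ∈ I
    · refine ⟨Polynomial.X - Polynomial.C (⟨τ (some e), hmem ⟨e, heI⟩⟩ : K),
        Polynomial.X_sub_C_ne_zero _, ?_⟩
      have h1 : Polynomial.aeval (X (some e) : MvPolynomial (Option σ) K)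
          (Polynomial.X - Polynomial.C (⟨τ (some e), hmem ⟨e, heI⟩⟩ : K)) =
          X (some e) - C (⟨τ (some e), hmem ⟨e, heI⟩⟩ : K) := by
        simp
      rw [h1]
      exact Ideal.subset_span (Or.inr (Or.inr ⟨⟨e, heI⟩, rfl⟩))
    · have heI' : some e ∉ I' := by
        simp [hI', heI]
      refine exists_poly_of_no_generic J (some e) (b3_transc hτ I' heI') fun w hw hwe => ?_
      have hw' := ((hJ w).mp hw).1
      have h1 := hcon e he heI
      refine Set.eq_empty_iff_forall_notMem.mp h1 (fun l => w (some l))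
        ⟨hw'.1, hw'.2.1, fun i hi => ?_⟩
      rcases Finset.mem_insert.mp hi with rfl | hi
      · exact hwe
      · exact hw'.2.2 i hi
  have halg : ∀ w : Option σ → Ω, (∀ g ∈ J, aeval w g = 0) → ∀ o, IsAlgebraic K (w o) := by
    intro w hw
    have hw' := (hJ w).mp hw
    have h1 : (fun l => w (some l)) ∈ (U.map φ).pts Ω := by
      refine ⟨fun κ => ?_, ?_⟩
      · change aeval (fun l => w (some l)) (MvPolynomial.map φ (U.g κ)) = 0
        exact (aeval_map_algebraMap K (fun l => w (some l)) (U.g κ)).trans (hw'.1.1.1 κ)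
      · rw [map_h]
        intro h0
        apply hw'.1.1.2
        exact (aeval_map_algebraMap K (fun l => w (some l)) U.h).symm.trans h0
    have h2 : ∀ e ∈ U.T, IsAlgebraic K (w (some e)) := by
      intro e he
      obtain ⟨p, hp, hpJ⟩ := hpoly e he
      refine ⟨p, hp, ?_⟩
      have h3 := hw _ hpJ
      have h4 := Polynomial.aeval_algHom_apply
        (aeval w : MvPolynomial (Option σ) K →ₐ[K] Ω) (X (some e)) p
      rw [aeval_X] at h4
      rw [h4, h3]
    have h3 : ∀ l, IsAlgebraic K (w (some l)) := fun l =>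
      isAlgebraic_of_mem_pts (U.map φ) h1 h2 l
    rintro (_ | l)
    · have h4 : IsAlgebraic K (aeval (fun l => w (some l)) (MvPolynomial.map φ U.h)) := by
        induction (MvPolynomial.map φ U.h) using MvPolynomial.induction_on with
        | C a => rw [aeval_C]; exact isAlgebraic_algebraMap a
        | add p q hp hq => rw [map_add]; exact hp.add hq
        | mul_X p j hp => rw [map_mul, aeval_X]; exact hp.mul (h3 j)
      have h5 : w none = (aeval (fun l => w (some l)) (MvPolynomial.map φ U.h))⁻¹ := by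
        have h6 : aeval (fun l => w (some l)) (MvPolynomial.map φ U.h) =
            aeval (fun l => w (some l)) U.h :=
          aeval_map_algebraMap K (fun l => w (some l)) U.h
        rw [h6]
        exact eq_inv_of_mul_eq_one_left hw'.2
      rw [h5]
      exact h4.inv
    · exact h3 l
  have hnone : (none : Option σ) ∉ I' := by simp [hI']
  have hfin : {w : Option σ → Ω | ∀ g ∈ J, aeval w g = 0}.Finite := by
    refine finite_zeros_of_poly J fun o => ?_
    refine exists_poly_of_no_generic J o (b3_transc hτ I' hnone) fun w hw hwo => ?_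
    have h1 := halg w hw o
    rw [hwo] at h1
    exact b3_transc hτ I' hnone h1
  refine (hfin.image fun w l => w (some l)).subset fun z hz => ?_
  refine ⟨fun o => o.elim (aeval z U.h)⁻¹ z, ?_, rfl⟩
  refine (hJ _).mpr ⟨hz, ?_⟩
  exact inv_mul_cancel₀ hz.1.2

theorem b4_exists_transc (k : Type) [Field k] :
    ∃ (Ω : Type) (_ : Field Ω) (_ : Algebra k Ω) (_ : IsAlgClosed Ω) (t : Ω),
      Transcendental k t := by
  let K := FractionRing (Polynomial k)
  let Ω := AlgebraicClosure K
  let φ : Polynomial k →ₐ[k] Ω := IsScalarTower.toAlgHom k (Polynomial k) Ω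
  have hφ : Function.Injective φ := by
    have h1 : Function.Injective (algebraMap (Polynomial k) Ω) := by
      rw [IsScalarTower.algebraMap_eq (Polynomial k) K Ω]
      exact (algebraMap K Ω).injective.comp (IsFractionRing.injective (Polynomial k) K)
    exact h1
  refine ⟨Ω, inferInstance, inferInstance, inferInstance, φ Polynomial.X, ?_⟩
  rw [transcendental_iff_injective]
  have h2 : (Polynomial.aeval (φ Polynomial.X) : Polynomial k →ₐ[k] Ω) = φ := by
    apply Polynomial.algHom_ext
    rw [Polynomial.aeval_X]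
  rw [h2]
  exact hφ

/-- Finiteness: `v e ∈ Ω` is algebraic over `Ω`; apply `exists_poly_of_no_generic` over
the field `Ω` with a transcendental element of an algebraically closed extension `Ω'` of `Ω`, as in
`exists_insert`. Bound: `card_zset` with `A = ∅`, `I = T` and `τ (some i) = v i`. -/
theorem card_fibre {k Ω : Type} [Field k] [Field Ω] [Algebra k Ω] [IsAlgClosed Ω] (U : Std k σ)
    (v : σ → Ω) : {z : σ → Ω | z ∈ U.pts Ω ∧ ∀ e ∈ U.T, z e = v e}.Finite ∧
      {z : σ → Ω | z ∈ U.pts Ω ∧ ∀ e ∈ U.T, z e = v e}.ncard ≤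
        ((Fintype.card σ + 1) * U.deg + 1) ^ ((Fintype.card σ + 1) ^ 2) := by
  classical
  have hfin : {z : σ → Ω | z ∈ U.pts Ω ∧ ∀ e ∈ U.T, z e = v e}.Finite := by
    obtain ⟨Ω', _, _, _, t, ht⟩ := b4_exists_transc Ω
    let J : Ideal (MvPolynomial (Option σ) Ω) := Ideal.span
      ((Set.range fun κ => rename some (MvPolynomial.map (algebraMap k Ω) (U.g κ))) ∪
        ({X none * rename some (MvPolynomial.map (algebraMap k Ω) U.h) - 1} ∪
          Set.range fun e : U.T => X (some (e : σ)) - C (v e)))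
    have hmem : ∀ (Ω₁ : Type) [Field Ω₁] [Algebra Ω Ω₁] (w : Option σ → Ω₁),
        (∀ g ∈ J, aeval w g = 0) ↔
        ((∀ κ, aeval (w ∘ some) (MvPolynomial.map (algebraMap k Ω) (U.g κ)) = 0) ∧
          w none * aeval (w ∘ some) (MvPolynomial.map (algebraMap k Ω) U.h) = 1 ∧
          ∀ e ∈ U.T, w (some e) = algebraMap Ω Ω₁ (v e)) := by
      intro Ω₁ _ _ w
      have h1 : (∀ g ∈ J, aeval w g = 0) ↔
          J ≤ RingHom.ker (aeval w : MvPolynomial (Option σ) Ω →ₐ[Ω] Ω₁) := Iff.rfl
      rw [h1, Ideal.span_le]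
      constructor
      · intro h2
        refine ⟨fun κ => ?_, ?_, fun e he => ?_⟩
        · have h3 := h2 (Or.inl ⟨κ, rfl⟩)
          simp only [SetLike.mem_coe, RingHom.mem_ker, aeval_rename] at h3
          exact h3
        · have h3 := h2 (Or.inr (Or.inl rfl))
          simp only [SetLike.mem_coe, RingHom.mem_ker, map_sub, map_mul, aeval_X, map_one,
            aeval_rename] at h3
          exact sub_eq_zero.mp h3
        · have h3 := h2 (Or.inr (Or.inr ⟨⟨e, he⟩, rfl⟩))
          simp only [SetLike.mem_coe, RingHom.mem_ker, map_sub, aeval_X, aeval_C] at h3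
          exact sub_eq_zero.mp h3
      · rintro ⟨h2, h3, h4⟩ g (⟨κ, rfl⟩ | rfl | ⟨e, rfl⟩)
        · simp only [SetLike.mem_coe, RingHom.mem_ker, aeval_rename]
          exact h2 κ
        · simp only [SetLike.mem_coe, RingHom.mem_ker, map_sub, map_mul, aeval_X, map_one,
            aeval_rename]
          rw [h3, sub_self]
        · simp only [SetLike.mem_coe, RingHom.mem_ker, map_sub, aeval_X, aeval_C]
          exact sub_eq_zero.mpr (h4 e.1 e.2)
    have hzeros : {w : Option σ → Ω | ∀ g ∈ J, aeval w g = 0}.Finite := by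
      refine finite_zeros_of_poly J fun j => ?_
      refine exists_poly_of_no_generic J j ht fun w hw hwj => ?_
      obtain ⟨h1, h2, h3⟩ := (hmem Ω' w).1 hw
      have hpt : w ∘ some ∈ (U.map (algebraMap k Ω)).pts Ω' := by
        refine ⟨h1, ?_⟩
        rw [U.map_h]
        intro h0
        rw [h0, mul_zero] at h2
        exact zero_ne_one h2
      have halg : ∀ l, IsAlgebraic Ω ((w ∘ some) l) := fun l =>
        (U.map (algebraMap k Ω)).isAlgebraic_of_mem_pts hpt (fun e he => by
          change IsAlgebraic Ω (w (some e))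
          rw [h3 e he]
          exact isAlgebraic_algebraMap _) l
      apply ht
      rw [← hwj]
      cases j with
      | some l => exact halg l
      | none =>
        have h4 : w none = (aeval (w ∘ some) (MvPolynomial.map (algebraMap k Ω) U.h))⁻¹ :=
          eq_inv_of_mul_eq_one_left h2
        rw [h4, IsAlgebraic.inv_iff]
        have h5 : ∀ p : MvPolynomial σ Ω, IsAlgebraic Ω (aeval (w ∘ some) p) := by
          intro p
          induction p using MvPolynomial.induction_on with
          | C a =>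
            rw [aeval_C]
            exact isAlgebraic_algebraMap _
          | add p q hp hq =>
            rw [map_add]
            exact hp.add hq
          | mul_X p l hp =>
            rw [map_mul, aeval_X]
            exact hp.mul (halg l)
        exact h5 _
    refine Set.Finite.subset (hzeros.image fun w => w ∘ some) ?_
    rintro z ⟨⟨hz1, hz2⟩, hz3⟩
    refine ⟨fun o => o.elim (aeval z U.h)⁻¹ z, ?_, rfl⟩
    refine (hmem Ω _).2 ⟨fun κ => ?_, ?_, fun e he => ?_⟩
    · change aeval z (MvPolynomial.map (algebraMap k Ω) (U.g κ)) = 0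
      rw [aeval_map_algebraMap]
      exact hz1 κ
    · change (aeval z U.h)⁻¹ * aeval z (MvPolynomial.map (algebraMap k Ω) U.h) = 1
      rw [aeval_map_algebraMap]
      exact inv_mul_cancel₀ hz2
    · exact hz3 e he
  refine ⟨hfin, ?_⟩
  have hset : {z : σ → Ω | z ∈ U.pts Ω ∧ ∀ e ∈ U.T, z e = v e} =
      U.zset (fun o : Option σ => o.elim 0 v) 0 ∅ U.T := by
    ext z
    constructor
    · rintro ⟨h1, h2⟩
      exact ⟨h1, fun e he => absurd he (Finset.notMem_empty e), h2⟩
    · rintro ⟨h1, _, h2⟩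
      exact ⟨h1, h2⟩
  rw [hset] at hfin ⊢
  exact U.card_zset _ 0 (by rw [Finset.card_empty, zero_add]) (by rw [totalDegree_zero, add_zero])
    hfin

/-- The critical points of `f`, as maximal ideals. -/
def critIdeals {k : Type} [Field k] (U : Std k σ) (f : MvPolynomial σ k) :
    Set (Ideal (MvPolynomial σ k)) :=
  {𝔮 | 𝔮.IsMaximal ∧ (∀ κ, U.g κ ∈ 𝔮) ∧ U.h ∉ 𝔮 ∧ ∀ e ∈ U.T, U.vf e f ∈ 𝔮}

theorem b5_exists {k Ω : Type} [Field k] [Field Ω] [Algebra k Ω] [IsAlgClosed Ω] {σ : Type}
    [Finite σ] (𝔮 : Ideal (MvPolynomial σ k)) (h : 𝔮.IsMaximal) :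
    ∃ φ : (MvPolynomial σ k ⧸ 𝔮) →ₐ[k] Ω, ∀ p : MvPolynomial σ k,
      aeval (fun l => φ (Ideal.Quotient.mk 𝔮 (X l))) p = φ (Ideal.Quotient.mk 𝔮 p) := by
  let _ : Field (MvPolynomial σ k ⧸ 𝔮) := Ideal.Quotient.field 𝔮
  have _ : Algebra.FiniteType k (MvPolynomial σ k ⧸ 𝔮) := inferInstance
  have _ : Module.Finite k (MvPolynomial σ k ⧸ 𝔮) := finite_of_finite_type_of_isJacobsonRing k _
  have _ : Algebra.IsAlgebraic k (MvPolynomial σ k ⧸ 𝔮) := Algebra.IsAlgebraic.of_finite k _
  let φ : (MvPolynomial σ k ⧸ 𝔮) →ₐ[k] Ω := IsAlgClosed.lift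
  refine ⟨φ, fun p => ?_⟩
  have h1 : aeval (fun l => φ (Ideal.Quotient.mk 𝔮 (X l))) = φ.comp (Ideal.Quotient.mkₐ k 𝔮) := by
    apply algHom_ext
    intro l
    rw [aeval_X]
    rfl
  rw [h1]
  rfl

theorem b5_ker {k Ω : Type} [Field k] [Field Ω] [Algebra k Ω] {σ : Type}
    {𝔮 : Ideal (MvPolynomial σ k)} (h : 𝔮.IsMaximal) (φ : (MvPolynomial σ k ⧸ 𝔮) →ₐ[k] Ω)
    (hφ : ∀ p : MvPolynomial σ k,
      aeval (fun l => φ (Ideal.Quotient.mk 𝔮 (X l))) p = φ (Ideal.Quotient.mk 𝔮 p)) :
    RingHom.ker (aeval (fun l => φ (Ideal.Quotient.mk 𝔮 (X l))) : MvPolynomial σ k →ₐ[k] Ω) =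
      𝔮 := by
  let _ : Field (MvPolynomial σ k ⧸ 𝔮) := Ideal.Quotient.field 𝔮
  ext p
  rw [RingHom.mem_ker, hφ, ← Ideal.Quotient.eq_zero_iff_mem]
  exact map_eq_zero_iff φ (RingHom.injective (φ : (MvPolynomial σ k ⧸ 𝔮) →+* Ω))

/-- Each maximal ideal `𝔮` in the set is the kernel of `aeval z` for some `z` in
`zset τ f T ∅` (embed the residue field, which is algebraic over `k`, in `Ω`), and `z` determines
`𝔮`. -/
theorem card_critIdeals {k Ω : Type} [Field k] [Field Ω] [Algebra k Ω] [IsAlgClosed Ω]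
    (U : Std k σ) (τ : Option σ → Ω) (f : MvPolynomial σ k)
    (hfin : (U.zset τ f U.T ∅).Finite) :
    (U.critIdeals f).Finite ∧ (U.critIdeals f).ncard ≤ (U.zset τ f U.T ∅).ncard := by
  have hsub : U.critIdeals f ⊆ (fun z : σ → Ω =>
      RingHom.ker (aeval z : MvPolynomial σ k →ₐ[k] Ω)) '' U.zset τ f U.T ∅ := by
    rintro 𝔮 ⟨hmax, h1, h2, h3⟩
    obtain ⟨φ, hφ⟩ := b5_exists (Ω := Ω) 𝔮 hmax
    have hker := b5_ker hmax φ hφ
    have hmem : ∀ p, aeval (fun l => φ (Ideal.Quotient.mk 𝔮 (X l))) p = 0 ↔ p ∈ 𝔮 := by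
      intro p
      rw [← RingHom.mem_ker, hker]
    refine ⟨_, ⟨⟨fun κ => (hmem _).2 (h1 κ), fun h0 => h2 ((hmem _).1 h0)⟩,
      fun e he => (hmem _).2 (h3 e he), fun i hi => absurd hi (Finset.notMem_empty i)⟩, hker⟩
  exact ⟨(hfin.image _).subset hsub,
    (Set.ncard_le_ncard hsub (hfin.image _)).trans (Set.ncard_image_le hfin)⟩

theorem b6_exists {k Ω : Type} [Field k] [Field Ω] [Algebra k Ω] [IsAlgClosed Ω] {σ : Type}
    [Finite σ] (𝔮 : Ideal (MvPolynomial σ k)) (h : 𝔮.IsMaximal) :
    ∃ φ : (MvPolynomial σ k ⧸ 𝔮) →ₐ[k] Ω, ∀ p : MvPolynomial σ k,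
      aeval (fun l => φ (Ideal.Quotient.mk 𝔮 (X l))) p = φ (Ideal.Quotient.mk 𝔮 p) := by
  let _ : Field (MvPolynomial σ k ⧸ 𝔮) := Ideal.Quotient.field 𝔮
  have _ : Algebra.FiniteType k (MvPolynomial σ k ⧸ 𝔮) := inferInstance
  have _ : Module.Finite k (MvPolynomial σ k ⧸ 𝔮) := finite_of_finite_type_of_isJacobsonRing k _
  have _ : Algebra.IsAlgebraic k (MvPolynomial σ k ⧸ 𝔮) := Algebra.IsAlgebraic.of_finite k _
  let φ : (MvPolynomial σ k ⧸ 𝔮) →ₐ[k] Ω := IsAlgClosed.lift
  refine ⟨φ, fun p => ?_⟩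
  have h1 : aeval (fun l => φ (Ideal.Quotient.mk 𝔮 (X l))) = φ.comp (Ideal.Quotient.mkₐ k 𝔮) := by
    apply algHom_ext
    intro l
    rw [aeval_X]
    rfl
  rw [h1]
  rfl

theorem b6_ker {k Ω : Type} [Field k] [Field Ω] [Algebra k Ω] {σ : Type}
    {𝔮 : Ideal (MvPolynomial σ k)} (h : 𝔮.IsMaximal) (φ : (MvPolynomial σ k ⧸ 𝔮) →ₐ[k] Ω)
    (hφ : ∀ p : MvPolynomial σ k,
      aeval (fun l => φ (Ideal.Quotient.mk 𝔮 (X l))) p = φ (Ideal.Quotient.mk 𝔮 p)) :
    RingHom.ker (aeval (fun l => φ (Ideal.Quotient.mk 𝔮 (X l))) : MvPolynomial σ k →ₐ[k] Ω) =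
      𝔮 := by
  let _ : Field (MvPolynomial σ k ⧸ 𝔮) := Ideal.Quotient.field 𝔮
  ext p
  rw [RingHom.mem_ker, hφ, ← Ideal.Quotient.eq_zero_iff_mem]
  exact map_eq_zero_iff φ (RingHom.injective (φ : (MvPolynomial σ k ⧸ 𝔮) →+* Ω))

/-- Let `Ω` be the algebraic closure of `k`, and `L ⊆ Ω` the set of the `x` with
`x ^ (q ^ e) = x`, which has `q ^ e` elements. For each `𝔮` in the set there is an embedding over
`k` of the residue field in `Ω`; it gives a point `z` of the chart with coordinates in `L` and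
kernel of `aeval z` equal to `𝔮`. By `card_fibre` there are at most `B * (q ^ e) ^ card T` such
`z`. -/
theorem card_points {k : Type} [Field k] [Finite k] (U : Std k σ) {e : ℕ} (he : 1 ≤ e) :
    {𝔮 : Ideal (MvPolynomial σ k) | 𝔮.IsMaximal ∧ (∀ κ, U.g κ ∈ 𝔮) ∧ U.h ∉ 𝔮 ∧
      Nat.card (MvPolynomial σ k ⧸ 𝔮) = Nat.card k ^ e}.Finite ∧
    {𝔮 : Ideal (MvPolynomial σ k) | 𝔮.IsMaximal ∧ (∀ κ, U.g κ ∈ 𝔮) ∧ U.h ∉ 𝔮 ∧
      Nat.card (MvPolynomial σ k ⧸ 𝔮) = Nat.card k ^ e}.ncard ≤
        ((Fintype.card σ + 1) * U.deg + 1) ^ ((Fintype.card σ + 1) ^ 2) *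
          (Nat.card k ^ e) ^ U.T.card := by
  classical
  let Ω := AlgebraicClosure k
  set Q := Nat.card k ^ e with hQ
  have hQ1 : 1 < Q := Nat.one_lt_pow (by omega) Finite.one_lt_card
  let L : Finset Ω := (Polynomial.X ^ Q - Polynomial.X : Polynomial Ω).roots.toFinset
  have hL : ∀ x : Ω, x ^ Q = x → x ∈ L := by
    intro x hx
    rw [Multiset.mem_toFinset, Polynomial.mem_roots (FiniteField.X_pow_card_sub_X_ne_zero Ω hQ1),
      Polynomial.IsRoot.def, Polynomial.eval_sub, Polynomial.eval_pow, Polynomial.eval_X, hx,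
      sub_self]
  have hLc : L.card ≤ Q := by
    refine (Multiset.toFinset_card_le _).trans ((Polynomial.card_roots' _).trans ?_)
    rw [FiniteField.X_pow_card_sub_X_natDegree_eq Ω hQ1]
  set B := ((Fintype.card σ + 1) * U.deg + 1) ^ ((Fintype.card σ + 1) ^ 2) with hB
  let ext : (U.T → Ω) → σ → Ω := fun v l => if h : l ∈ U.T then v ⟨l, h⟩ else 0
  let Zf : Finset (σ → Ω) := (Fintype.piFinset fun _ : U.T => L).biUnion
    fun v => (U.card_fibre (ext v)).1.toFinset
  have hZf : Zf.card ≤ B * Q ^ U.T.card := by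
    have h1 : Zf.card ≤ ∑ v ∈ Fintype.piFinset fun _ : U.T => L,
        (U.card_fibre (ext v)).1.toFinset.card := Finset.card_biUnion_le
    refine h1.trans ?_
    refine (Finset.sum_le_card_nsmul _ _ B fun v _ => ?_).trans ?_
    · have h2 := (U.card_fibre (ext v)).2
      rwa [Set.ncard_eq_toFinset_card _ (U.card_fibre (ext v)).1] at h2
    · rw [Fintype.card_piFinset, Finset.prod_const, Finset.card_univ, smul_eq_mul, mul_comm,
        Fintype.card_coe]
      exact Nat.mul_le_mul_left _ (Nat.pow_le_pow_left hLc _)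
  have hsub : {𝔮 : Ideal (MvPolynomial σ k) | 𝔮.IsMaximal ∧ (∀ κ, U.g κ ∈ 𝔮) ∧ U.h ∉ 𝔮 ∧
      Nat.card (MvPolynomial σ k ⧸ 𝔮) = Q} ⊆
      ((Zf.image fun z : σ → Ω => RingHom.ker (aeval z : MvPolynomial σ k →ₐ[k] Ω) :
        Finset (Ideal (MvPolynomial σ k))) : Set (Ideal (MvPolynomial σ k))) := by
    rintro 𝔮 ⟨hmax, h1, h2, h3⟩
    obtain ⟨φ, hφ⟩ := b6_exists (Ω := Ω) 𝔮 hmax
    have hker := b6_ker hmax φ hφ
    have hmem : ∀ p, aeval (fun l => φ (Ideal.Quotient.mk 𝔮 (X l))) p = 0 ↔ p ∈ 𝔮 := by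
      intro p
      rw [← RingHom.mem_ker, hker]
    have hzL : ∀ l, φ (Ideal.Quotient.mk 𝔮 (X l)) ∈ L := by
      intro l
      apply hL
      rw [← map_pow]
      congr 1
      let _ : Field (MvPolynomial σ k ⧸ 𝔮) := Ideal.Quotient.field 𝔮
      have hfin : Finite (MvPolynomial σ k ⧸ 𝔮) := Nat.finite_of_card_ne_zero (by omega)
      have := Fintype.ofFinite (MvPolynomial σ k ⧸ 𝔮)
      rw [← h3, Nat.card_eq_fintype_card]
      exact FiniteField.pow_card _
    rw [Finset.mem_coe, Finset.mem_image]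
    refine ⟨fun l => φ (Ideal.Quotient.mk 𝔮 (X l)), ?_, hker⟩
    rw [Finset.mem_biUnion]
    refine ⟨fun l => φ (Ideal.Quotient.mk 𝔮 (X l.1)), ?_, ?_⟩
    · rw [Fintype.mem_piFinset]
      exact fun l => hzL l.1
    · rw [Set.Finite.mem_toFinset]
      refine ⟨⟨fun κ => (hmem _).2 (h1 κ), fun h0 => h2 ((hmem _).1 h0)⟩, fun e he => ?_⟩
      change _ = if h : e ∈ U.T then _ else _
      rw [dif_pos he]
  refine ⟨(Finset.finite_toSet _).subset hsub, ?_⟩
  refine (Set.ncard_le_ncard hsub (Finset.finite_toSet _)).trans ?_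
  rw [Set.ncard_coe_finset]
  exact Finset.card_image_le.trans hZf

end Std

end Pool.Agent.Lib.MP_6a3dac_ag.Bert
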