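import Pool.Agent.Lib.MP_6a3dac_ag.Mg.G045

/-!
# Independence at finitely many closed points
-/

set_option autoImplicit false

namespace Pool.Agent.Lib.MP_6a3dac_ag.Bert

open MvPolynomial CategoryTheory Limits AlgebraicGeometry NumberField IsDedekindDomain
open Pool.Agent.Lib.MP_6a3dac_ag.DNF Pool.Agent.Lib.MP_6a3dac_ag.Maj

section

variable {E : Type} [Field E] [NumberField E] {n m : ℕ} {I : HomIdeal (𝓞 E) (n + 1)}

/-- For a closed point `y` of the finite set `S` there is a homogeneous polynomial `H` which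
is not in the ideal of `y`, but in the square of the ideal of each other point of `S` (product of
squares of polynomials as in `exists_separating`). -/
theorem exists_bump (S : Finset (hProj I)) (hS : ∀ y ∈ S, y ∈ closedPoints (hProj I))
    (y : hProj I) : ∃ (k : ℕ) (H : MvPolynomial (Fin (n + 1)) (𝓞 E)), H.IsHomogeneous k ∧
      H ∉ ptIdeal I y ∧ ∀ y' ∈ S, y' ≠ y → H ∈ ptIdeal I y' ^ 2 := by
  classical
  have hp : (ptIdeal I y).IsPrime := (ptIdeal_spec I y).1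
  induction S using Finset.induction_on with
  | empty =>
    refine ⟨0, 1, isHomogeneous_one _ _, ?_, ?_⟩
    · exact fun h => hp.ne_top ((Ideal.eq_top_iff_one _).2 h)
    · intro y' hy'
      exact absurd hy' (Finset.notMem_empty y')
  | insert z S hz ih =>
    obtain ⟨k, H, hH, hHy, hHS⟩ := ih fun y' hy' => hS y' (Finset.mem_insert_of_mem hy')
    by_cases hzy : z = y
    · refine ⟨k, H, hH, hHy, fun y' hy' hne => ?_⟩
      rcases Finset.mem_insert.1 hy' with h | h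
      · exact absurd (h.trans hzy) hne
      · exact hHS y' h hne
    · obtain ⟨l, G, hG, hGz, hGy⟩ := exists_separating I (y := y) (y' := z)
        (hS z (Finset.mem_insert_self z S)) (fun h => hzy h.symm)
      refine ⟨k + (l + l), H * (G * G), hH.mul (hG.mul hG), ?_, fun y' hy' hne => ?_⟩
      · intro h
        rcases hp.mem_or_mem h with h | h
        · exact hHy h
        · rcases hp.mem_or_mem h with h | h <;> exact hGy h
      · rcases Finset.mem_insert.1 hy' with h | h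
        · subst h
          refine Ideal.mul_mem_left _ _ ?_
          rw [pow_two]
          exact Ideal.mul_mem_mul hGz hGz
        · exact Ideal.mul_mem_right _ _ (hHS y' h hne)

theorem k2_dehom_mem {y : hProj I} {i : Fin (n + 1)}
    {𝔮 : Ideal (MvPolynomial {l : Fin (n + 1) // l ≠ i} (𝓞 E))} (h : AtPt I y i 𝔮) :
    ptIdeal I y ≤ 𝔮.comap (dehom i) := by
  intro f hf
  rw [Ideal.mem_comap, ← sum_homogeneousComponent f, map_sum]
  exact Ideal.sum_mem _ fun k _ =>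
    (h.2.2 k _ (homogeneousComponent_isHomogeneous k f)).mpr ((ptIdeal_spec I y).2.2.1 f hf k)

theorem k2_dehom_mem_sq {y : hProj I} {i : Fin (n + 1)}
    {𝔮 : Ideal (MvPolynomial {l : Fin (n + 1) // l ≠ i} (𝓞 E))} (h : AtPt I y i 𝔮)
    {f : MvPolynomial (Fin (n + 1)) (𝓞 E)} (hf : f ∈ ptIdeal I y ^ 2) : dehom i f ∈ 𝔮 ^ 2 := by
  have h1 : ptIdeal I y ^ 2 ≤ (𝔮 ^ 2).comap (dehom i) :=
    (Ideal.pow_right_mono (k2_dehom_mem h) 2).trans (Ideal.le_comap_pow _ 2)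
  exact h1 hf

theorem k2_exists_inv {A : Type} [CommRing A] {𝔮 J : Ideal A} (hmax : 𝔮.IsMaximal)
    (hJ : 𝔮 ^ 2 ≤ J) {h : A} (hh : h ∉ 𝔮) :
    ∃ v : A, Ideal.Quotient.mk J h * Ideal.Quotient.mk J v = 1 := by
  obtain ⟨v, w, hw, hvw⟩ := hmax.exists_inv hh
  refine ⟨v * (1 + w), ?_⟩
  rw [← map_mul, ← map_one (Ideal.Quotient.mk J), Ideal.Quotient.eq]
  have h1 : h * (v * (1 + w)) - 1 = -(w * w) := by
    have h2 : v * h = 1 - w := by rw [← hvw]; ring
    calc h * (v * (1 + w)) - 1 = (v * h) * (1 + w) - 1 := by ring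
      _ = (1 - w) * (1 + w) - 1 := by rw [h2]
      _ = _ := by ring
  rw [h1]
  apply hJ
  rw [pow_two]
  exact neg_mem (Ideal.mul_mem_mul hw hw)

theorem k2_coeffs {s : ℕ} (b : Module.Basis (Fin s) ℤ (𝓞 E)) {ι : Type} (a : ι → 𝓞 E) :
    ∃ u : ι × Fin s → ℤ, coeffs b u = a := by
  refine ⟨fun p => b.repr (a p.1) p.2, ?_⟩
  funext i
  exact b.sum_repr (a i)

theorem k2_surj_one {s : ℕ} (b : Module.Basis (Fin s) ℤ (𝓞 E)) (i : Fin (n + 1))
    {𝔮 : Ideal (MvPolynomial {l : Fin (n + 1) // l ≠ i} (𝓞 E))} (hmax : 𝔮.IsMaximal) :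
    ∃ ℓ : ℕ, ∀ d, ℓ ≤ d → ∀ z : MvPolynomial {l : Fin (n + 1) // l ≠ i} (𝓞 E),
      ∃ G : MvPolynomial (Fin (n + 1)) (𝓞 E), G.IsHomogeneous d ∧
        Ideal.Quotient.mk (𝔮 ^ 2 ⊔ dId I i) (dehom i G) =
          Ideal.Quotient.mk (𝔮 ^ 2 ⊔ dId I i) z := by
  obtain ⟨P, hP⟩ := exists_prime_le hmax
  obtain ⟨-, h2, -⟩ := exists_card_residue' i P hmax hP
  have hfin := h2 (dId I i)
  have hk : ∀ x ∈ P.asIdeal ^ 2, (C x : MvPolynomial {l : Fin (n + 1) // l ≠ i} (𝓞 E)) ∈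
      𝔮 ^ 2 ⊔ dId I i := by
    intro x hx
    apply Ideal.mem_sup_left
    have h3 : P.asIdeal ^ 2 ≤ (𝔮 ^ 2).comap C :=
      (Ideal.pow_right_mono (Ideal.map_le_iff_le_comap.mp hP) 2).trans (Ideal.le_comap_pow _ 2)
    exact h3 hx
  refine ⟨Nat.card (MvPolynomial {l : Fin (n + 1) // l ≠ i} (𝓞 E) ⧸ 𝔮 ^ 2 ⊔ dId I i),
    fun d hd z => ?_⟩
  have hq : 2 ≤ Nat.card (𝓞 E ⧸ P.asIdeal) := by
    have := two_le_norm P
    exact_mod_cast this
  obtain ⟨u, hu⟩ := dHom_surjective b (d := d) i P hfin hk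
    (ℓ := Nat.card (MvPolynomial {l : Fin (n + 1) // l ≠ i} (𝓞 E) ⧸ 𝔮 ^ 2 ⊔ dId I i))
    ((Nat.lt_pow_self hq).le) (by omega) (Ideal.Quotient.mk _ z)
  exact ⟨form (coeffs b u), isHomogeneous_form _, hu⟩

/-- For all large `d` the forms of degree `d` surject onto the product of the
`A ⧸ 𝔮 ^ 2 ⊔ dId I i` for finitely many different closed points with the maximal ideals `𝔮 y` of
the charts `i y`. For each `y` take `H` as in `exists_bump`, of degree `k`. The products `H * G`,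
where `G` is a form of degree `d - k`, vanish at the other points; `dehom (i y) H` is a unit modulo
`𝔮 y ^ 2`, and the `G` surject onto the quotient at `y` for large `d` (`dHom_surjective`,
`exists_prime_le`, `exists_card_residue'`). -/
theorem dHom_pi_surjective {s : ℕ} (b : Module.Basis (Fin s) ℤ (𝓞 E)) {S : Type} [Fintype S]
    (y : S → hProj I) (hinj : Function.Injective y) (i : S → Fin (n + 1))
    (𝔮 : ∀ t : S, Ideal (MvPolynomial {l : Fin (n + 1) // l ≠ i t} (𝓞 E)))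
    (hpt : ∀ t, AtPt I (y t) (i t) (𝔮 t)) (hmax : ∀ t, (𝔮 t).IsMaximal) :
    ∃ d₀ : ℕ, ∀ d, d₀ ≤ d → Function.Surjective fun (u : Mono n d × Fin s → ℤ) (t : S) =>
      Ideal.Quotient.mk (𝔮 t ^ 2 ⊔ dId I (i t)) (dF (coeffs b u) (i t)) := by
  classical
  have hcl : ∀ z ∈ Finset.univ.image y, z ∈ closedPoints (hProj I) := by
    intro z hz
    obtain ⟨t, -, rfl⟩ := Finset.mem_image.mp hz
    exact ((hpt t).mem_closedPoints_iff).mpr (hmax t)
  have hb := fun t : S => exists_bump (Finset.univ.image y) hcl (y t)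
  choose k H hH hHy hHz using hb
  have hs := fun t : S => k2_surj_one (I := I) b (i t) (hmax t)
  choose ℓ hℓ using hs
  refine ⟨∑ t, (k t + ℓ t), fun d hd z => ?_⟩
  have hd' : ∀ t, k t + ℓ t ≤ d := fun t =>
    (Finset.single_le_sum (f := fun t => k t + ℓ t) (fun _ _ => Nat.zero_le _)
      (Finset.mem_univ t)).trans hd
  have hv : ∀ t, ∃ v, Ideal.Quotient.mk (𝔮 t ^ 2 ⊔ dId I (i t)) (dehom (i t) (H t)) *
      Ideal.Quotient.mk (𝔮 t ^ 2 ⊔ dId I (i t)) v = 1 := fun t => by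
    apply k2_exists_inv (hmax t) le_sup_left
    intro h1
    exact hHy t (((hpt t).2.2 (k t) (H t) (hH t)).mp h1)
  choose v hv using hv
  have hz : ∀ t, ∃ z', Ideal.Quotient.mk (𝔮 t ^ 2 ⊔ dId I (i t)) z' = z t := fun t =>
    Ideal.Quotient.mk_surjective (z t)
  choose z' hz' using hz
  have hG := fun t => hℓ t (d - k t) (by have := hd' t; omega) (v t * z' t)
  choose G hG hGv using hG
  have hF : (∑ t, H t * G t).IsHomogeneous d := by
    refine IsHomogeneous.sum _ _ _ fun t _ => ?_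
    have h1 := (hH t).mul (hG t)
    rwa [Nat.add_sub_cancel' ((Nat.le_add_right _ _).trans (hd' t))] at h1
  obtain ⟨a, ha⟩ := SmoothAlg.form_exists hF
  obtain ⟨u, hu⟩ := k2_coeffs b a
  refine ⟨u, ?_⟩
  funext t
  show Ideal.Quotient.mk (𝔮 t ^ 2 ⊔ dId I (i t)) (dF (coeffs b u) (i t)) = z t
  rw [hu, dF, ha, map_sum, map_sum, Finset.sum_eq_single t]
  · rw [map_mul, map_mul, hGv, map_mul, ← mul_assoc, hv, one_mul, hz']
  · intro t' _ hne
    have h1 : H t' ∈ ptIdeal I (y t) ^ 2 := hHz t' (y t) (Finset.mem_image_of_mem y (Finset.mem_univ t))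
      (fun h => hne (hinj h).symm)
    rw [Ideal.Quotient.eq_zero_iff_mem, map_mul]
    exact Ideal.mul_mem_right _ _ (Ideal.mem_sup_left (k2_dehom_mem_sq (hpt t) h1))
  · intro h
    exact absurd (Finset.mem_univ t) h

theorem k3_card_ne {α : Type} [Finite α] (z : α) : Nat.card {x : α // x ≠ z} + 1 = Nat.card α := by
  have h1 := Set.ncard_add_ncard_compl ({z} : Set α)
  rw [Set.ncard_singleton, ← Nat.card_coe_set_eq] at h1
  rw [← h1, add_comm]
  congr 1

theorem k3_count {T : Type} [Fintype T] (A : T → Type) [∀ t, Finite (A t)] (z : ∀ t, A t) :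
    (Nat.card {x : ∀ t, A t | ∃ t, x t = z t} : ℝ) =
      (1 - ∏ t, (1 - 1 / (Nat.card (A t) : ℝ))) * Nat.card (∀ t, A t) := by
  have h1 := Set.ncard_add_ncard_compl {x : ∀ t, A t | ∃ t, x t = z t}
  have h2 : ({x : ∀ t, A t | ∃ t, x t = z t}ᶜ).ncard = ∏ t, Nat.card {x : A t // x ≠ z t} := by
    rw [← Nat.card_coe_set_eq, ← Nat.card_pi]
    refine Nat.card_congr
      { toFun := fun x t => ⟨x.1 t, fun h => x.2 ⟨t, h⟩⟩
        invFun := fun x => ⟨fun t => (x t).1, fun ⟨t, h⟩ => (x t).2 h⟩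
        left_inv := fun x => rfl
        right_inv := fun x => rfl }
  have h3 : (Nat.card {x : ∀ t, A t | ∃ t, x t = z t} : ℝ) +
      ∏ t, ((Nat.card (A t) : ℝ) - 1) = ∏ t, (Nat.card (A t) : ℝ) := by
    have h4 : ∀ t, ((Nat.card {x : A t // x ≠ z t} : ℕ) : ℝ) = (Nat.card (A t) : ℝ) - 1 := by
      intro t
      rw [← k3_card_ne (z t)]
      push_cast
      ring
    rw [← Nat.card_coe_set_eq, h2, Nat.card_pi] at h1
    have h5 := congrArg (Nat.cast : ℕ → ℝ) h1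
    push_cast at h5
    rw [← h5]
    congr 1
    exact Finset.prod_congr rfl fun t _ => (h4 t).symm
  have h6 : (∏ t, (1 - 1 / (Nat.card (A t) : ℝ))) * ∏ t, (Nat.card (A t) : ℝ) =
      ∏ t, ((Nat.card (A t) : ℝ) - 1) := by
    rw [← Finset.prod_mul_distrib]
    refine Finset.prod_congr rfl fun t _ => ?_
    have : Nonempty (A t) := ⟨z t⟩
    have h7 : (Nat.card (A t) : ℝ) ≠ 0 := by
      exact_mod_cast Nat.card_pos.ne'
    field_simp
  rw [Nat.card_pi (β := A), Nat.cast_prod, sub_mul, one_mul, h6]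
  linarith

/-- Choose a chart `(i y, 𝔮 y)` for each `y ∈ S` (`exists_atPt`); by `badAt_iff` the point
is bad if and only if `BadAt` holds for this chart. By `dHom_pi_surjective` and `UD.hom`, for the
set of the elements of the product of the `A ⧸ 𝔮 y ^ 2 ⊔ dId I (i y)` with some coordinate `0`;
its size is `∏ N_y ^ (m + 1) - ∏ (N_y ^ (m + 1) - 1)` by `card_quot_sq`. -/
theorem UD_finset {s : ℕ} (b : Module.Basis (Fin s) ℤ (𝓞 E)) {𝒰 : Charts (𝓞 E) n} {m₀ : 𝓞 E}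
    (h : Hyp I m 𝒰 m₀) (S : Finset (closedPoints (hProj I))) :
    ∃ d₀ : ℕ, ∀ d, d₀ ≤ d → UD (fun u : Mono n d × Fin s → ℤ =>
      ∃ y ∈ S, ∃ i 𝔮, AtPt I y.1 i 𝔮 ∧ BadAt I (coeffs b u) i 𝔮)
      (1 - ∏ y ∈ S, (1 - 1 / (Nat.card ((hProj I).residueField y.1) : ℝ) ^ (m + 1))) := by
  classical
  have hex : ∀ t : S, ∃ i 𝔮, AtPt I t.1.1 i 𝔮 := fun t => exists_atPt I t.1.1
  choose i 𝔮 hpt using hex
  have hmax : ∀ t, (𝔮 t).IsMaximal := fun t => ((hpt t).mem_closedPoints_iff I).1 t.1.2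
  have hinj : Function.Injective fun t : S => (t.1.1 : hProj I) := by
    intro t t' htt
    exact Subtype.ext (Subtype.ext htt)
  obtain ⟨d₀, hd₀⟩ := dHom_pi_surjective b (fun t : S => (t.1.1 : hProj I)) hinj i 𝔮 hpt hmax
  refine ⟨d₀, fun d hd => ?_⟩
  have hfin2 : ∀ t, Finite (MvPolynomial {l : Fin (n + 1) // l ≠ i t} (𝓞 E) ⧸ 𝔮 t) ∧
      Finite (MvPolynomial {l : Fin (n + 1) // l ≠ i t} (𝓞 E) ⧸ 𝔮 t ^ 2 ⊔ dId I (i t)) := by
    intro t
    obtain ⟨P, hP⟩ := exists_prime_le (hmax t)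
    have h1 := exists_card_residue' (i t) P (hmax t) hP
    exact ⟨h1.1, h1.2.1 _⟩
  have hfin : ∀ t, Finite (MvPolynomial {l : Fin (n + 1) // l ≠ i t} (𝓞 E) ⧸
      𝔮 t ^ 2 ⊔ dId I (i t)) := fun t => (hfin2 t).2
  let ψ : (Mono n d × Fin s → ℤ) →+ (∀ t : S, MvPolynomial {l : Fin (n + 1) // l ≠ i t} (𝓞 E) ⧸
      𝔮 t ^ 2 ⊔ dId I (i t)) :=
    { toFun := fun u t => dHom b (i t) (𝔮 t ^ 2 ⊔ dId I (i t)) u
      map_zero' := by
        funext t
        exact map_zero _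
      map_add' := fun u v => by
        funext t
        exact map_add _ u v }
  have hψ : Function.Surjective ψ := hd₀ d hd
  refine UD.hom ψ hψ {x | ∃ t, x t = 0} ?_ ?_
  · rintro u ⟨y, hy, i', 𝔮', hat, hbad⟩
    refine ⟨⟨y, hy⟩, ?_⟩
    have hmax' : 𝔮'.IsMaximal := (hat.mem_closedPoints_iff I).1 y.2
    have h1 := ((hpt ⟨y, hy⟩).badAt_iff I hat (hmax _) hmax' (coeffs b u)).2 hbad
    exact Ideal.Quotient.eq_zero_iff_mem.2 h1
  · have hcard : ∀ t : S, (Nat.card (MvPolynomial {l : Fin (n + 1) // l ≠ i t} (𝓞 E) ⧸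
        𝔮 t ^ 2 ⊔ dId I (i t)) : ℝ) =
        (Nat.card ((hProj I).residueField t.1.1) : ℝ) ^ (m + 1) := by
      intro t
      obtain ⟨B, _, f, hloc, hreg, hdim⟩ := h.loc (i t) (𝔮 t) (hmax t).isPrime (hpt t).2.1
      have h1 := hloc.card_quot_sq (hmax t) (hpt t).2.1 (hfin2 t).1 (hdim (hmax t))
      rw [h1, (hpt t).card_residueField I (hmax t)]
      push_cast
      rfl
    have h2 := k3_count (fun t : S => MvPolynomial {l : Fin (n + 1) // l ≠ i t} (𝓞 E) ⧸
        𝔮 t ^ 2 ⊔ dId I (i t)) (fun t => 0)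
    refine le_of_eq (h2.trans ?_)
    congr 2
    rw [← Finset.prod_coe_sort S (fun y : closedPoints (hProj I) =>
      (1 - 1 / (Nat.card ((hProj I).residueField y.1) : ℝ) ^ (m + 1)))]
    refine Finset.prod_congr rfl fun t _ => ?_
    rw [hcard t]

end

end Pool.Agent.Lib.MP_6a3dac_ag.Bert
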