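import Pool.Agent.Lib.MP_6a3dac_ag.Mg.G018
import Pool.Agent.Lib.MP_6a3dac_ag.Mg.G016
import Pool.Agent.Lib.MP_6a3dac_ag.Bert.Coprod
import Pool.Agent.Lib.MP_6a3dac_ag.Maj.ModelO

/-!
# The local criterion
-/

set_option autoImplicit false

namespace Pool.Agent.Lib.MP_6a3dac_ag.Bert

open MvPolynomial IsLocalRing CategoryTheory Limits AlgebraicGeometry NumberField IsDedekindDomain
open Pool.Agent.Lib.MP_6a3dac_ag.DNF
open Pool.Agent.Lib.MP_6a3dac_ag.Maj

theorem adjoin_hMk {K : Type} [Field K] {n : ℕ} (𝔞 : HomIdeal K n) :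
    Algebra.adjoin K (Set.range fun k => hMk 𝔞 (X k)) = ⊤ := by
  rw [eq_top_iff]
  rintro a -
  obtain ⟨q, rfl⟩ := Ideal.Quotient.mk_surjective a
  change hMk 𝔞 q ∈ _
  induction q using MvPolynomial.induction_on with
  | C c =>
    have h1 : hMk 𝔞 (C c) = algebraMap K (HCoord 𝔞) c := (hMk 𝔞).commutes c
    rw [h1]
    exact Subalgebra.algebraMap_mem _ _
  | add a b ha hb => rw [map_add]; exact Subalgebra.add_mem _ ha hb
  | mul_X a k ha =>
    rw [map_mul]
    exact Subalgebra.mul_mem _ ha (Algebra.subset_adjoin ⟨k, rfl⟩)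

theorem hMk_eq_zero {K : Type} [Field K] {n : ℕ} (𝔞 : HomIdeal K n) (q : MvPolynomial (Fin n) K) :
    hMk 𝔞 q = 0 ↔ q ∈ 𝔞.ideal :=
  Ideal.Quotient.eq_zero_iff_mem

theorem map_dehom' {R S : Type} [CommRing R] [CommRing S] (θ : R →+* S) {n : ℕ} (i : Fin (n + 1))
    (q : MvPolynomial (Fin (n + 1)) R) :
    MvPolynomial.map θ (dehom i q) = dehom i (MvPolynomial.map θ q) := by
  induction q using MvPolynomial.induction_on with
  | C a => rw [dehom_C, map_C, map_C, dehom_C]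
  | add a b ha hb => rw [map_add, map_add, map_add, map_add, ha, hb]
  | mul_X a k ha =>
    rw [map_mul, map_mul, map_mul, map_mul, ha]
    congr 1
    by_cases hk : k = i
    · subst hk
      rw [dehom_X_self, map_one, map_X, dehom_X_self]
    · rw [map_X, show k = (⟨k, hk⟩ : {l : Fin (n + 1) // l ≠ i}).1 from rfl, dehom_X, dehom_X,
        map_X]

variable {E : Type} [Field E] [NumberField E] {n d : ℕ} {I : HomIdeal (𝓞 E) (n + 1)}
  {a : Mono n d → 𝓞 E} {𝒰 : Charts (𝓞 E) n} {m₀ : 𝓞 E}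
  {p : HomIdeal E (n + 1)}

/-- The model of a component. -/
theorem hasRegularModel_component
    (hLD : ∀ i, LocDom (dId (secIdeal I E a) i))
    (hp : p.ideal ∈ (secIdeal I E a).ideal.minimalPrimes)
    (hreg : ∀ y : hProj I, IsRegularLocalRing ((hProj I).presheaf.stalk y))
    (hI : I.ideal.IsPrime) (hd : 1 ≤ d) (hm₀ : m₀ ≠ 0) (h𝒰 : 𝒰.For I m₀)
    (hsm : SmoothIn 𝒰 I a)
    (hP : ∀ P : HeightOneSpectrum (𝓞 E), TotReg I P a ∨ (m₀ ∉ P.asIdeal ∧ NodalAt 𝒰 I P a)) :
    HasRegularModel E (hProjTo p) := by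
  classical
  obtain ⟨m, hm0, hm⟩ := exists_jac (I := I) (a := a) (𝒰 := 𝒰) hsm
  obtain ⟨δ, G, hδ, hGδ, hG1, hG2⟩ := exists_tanForms I hd (isHomogeneous_form a)
  have hprime : p.ideal.IsPrime := hp.1.1
  have : IsDomain (HCoord p) := Ideal.Quotient.isDomain p.ideal
  let _ : Algebra (𝓞 E) (HCoord p) := ((algebraMap E (HCoord p)).comp (algebraMap (𝓞 E) E)).toAlgebra
  have : IsScalarTower (𝓞 E) E (HCoord p) := IsScalarTower.of_algebraMap_eq fun _ => rfl
  have hRf : ¬ IsField (𝓞 E) := RingOfIntegers.not_isField E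
  choose ϖ hϖ using fun P : HeightOneSpectrum (𝓞 E) => exists_unif (K := E) P
  have hϖ0 : ∀ P, ϖ P ≠ 0 := fun P h0 => (hϖ P).ne_zero (by rw [h0, map_zero])
  choose rr u hu1 hu2 hr0 using fun P : HeightOneSpectrum (𝓞 E) => exists_exponent P hm0 (hϖ P)
  -- the exponents
  obtain ⟨r, hr⟩ : ∃ r : HeightOneSpectrum (𝓞 E) → ℕ, ∀ P, (TotReg I P a → r P = 0) ∧
      (¬ TotReg I P a → r P = rr P) :=
    ⟨fun P => if TotReg I P a then 0 else rr P, fun P => ⟨fun h => if_pos h, fun h => if_neg h⟩⟩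
  have hdeg : ∀ (S : Type) [CommRing S] [Algebra S E] (q : MvPolynomial (Fin (n + 1)) S) e,
      q.IsHomogeneous e → piS (hMk p) S q ∈ hGr p e := fun S _ _ q e hq =>
    ⟨_, hq.map _, rfl⟩
  have hoA : ∀ P : HeightOneSpectrum (𝓞 E), oA E (HCoord p) (locRing E P)
      (algebraMap (𝓞 E) (locRing E P) (ϖ P)) = algebraMap (𝓞 E) (HCoord p) (ϖ P) := fun P =>
    oA_algebraMap (K := E) (O := locRing E P) (ϖ P)
  have hxP : ∀ P : HeightOneSpectrum (𝓞 E), (fun k => piS (hMk p) (locRing E P) (X k)) =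
      fun k => hMk p (X k) := fun P => funext fun k => piS_X (hMk p) _ k
  -- the forms over the local rings
  obtain ⟨GP, hGP⟩ : ∃ GP : ∀ P : HeightOneSpectrum (𝓞 E),
      Finset (MvPolynomial (Fin (n + 1)) (locRing E P)), ∀ P,
      GP P = G.image (MvPolynomial.map (algebraMap (𝓞 E) (locRing E P))) := ⟨_, fun _ => rfl⟩
  have hGPδ : ∀ P, ∀ g ∈ GP P, g.IsHomogeneous δ := by
    intro P g hg
    rw [hGP, Finset.mem_image] at hg
    obtain ⟨g, hg, rfl⟩ := hg
    exact (hGδ g hg).map _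
  have hO := fun P : HeightOneSpectrum (𝓞 E) => orderHypB (R := 𝓞 E) (K := E) P.asIdeal
    (𝒜 := hGr p) (π := piS (hMk p) (locRing E P)) (hdeg _) (fun c => piS_C (hMk p) _ c) hδ
    (hGPδ P) (algebraMap (𝓞 E) (locRing E P) (ϖ P)) (r P)
  have hLG : LocalGens (R := 𝓞 E) (hGr p) (fun P => DNF.WSet (fun k => hMk p (X k))
      (oset (piS (hMk p) (locRing E P)) δ (GP P) (algebraMap (𝓞 E) (HCoord p) (ϖ P))) (r P) ∪
        DNF.W1Set (fun k => hMk p (X k)) (algebraMap (𝓞 E) (HCoord p) (ϖ P)) (r P))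
        (Set.range fun k => hMk p (X k)) :=
    { finite := fun P => (DNF.finite_WSet (fun j => finite_oset _ _ _ _ j) _).union
        (DNF.finite_W1Set _)
      finite₀ := Set.finite_range _
      ae := by
        refine (finite_mem_prime hm0).subset ?_
        intro P hP'
        by_contra hdp
        apply hP'
        have h1 : r P = 0 := by
          by_cases h : TotReg I P a
          · exact (hr P).1 h
          · rw [(hr P).2 h]
            exact hr0 P hdp
        change DNF.WSet (fun k => hMk p (X k)) (oset (piS (hMk p) (locRing E P)) δ (GP P)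
          (algebraMap (𝓞 E) (HCoord p) (ϖ P))) (r P) ∪
          DNF.W1Set (fun k => hMk p (X k)) (algebraMap (𝓞 E) (HCoord p) (ϖ P)) (r P) = _
        rw [h1, WSet_zero, W1Set_zero, Set.union_self]
      homog := by
        intro P w hw
        have hOP := hO P
        rw [hxP, hoA] at hOP
        rcases hw with hw | ⟨i, rfl⟩
        · exact ⟨_, Nat.succ_pos _, hOP.W_deg hw⟩
        · refine ⟨1, one_pos, ?_⟩
          have := SetLike.mul_mem_graded hOP.theta_deg (hOP.xdeg i)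
          simpa using this
      full := fun P a => full_order (hMk p) (adjoin_hMk p) (hϖ0 P) (r P) a
      full₀ := fun a => by
        have := full_order (hMk p) (adjoin_hMk p) (B := fun _ => ∅) (one_ne_zero (α := 𝓞 E)) 0 a
        rwa [WSet_zero, W1Set_zero, Set.union_self] at this }
  have hnt : Nontrivial (HCoord p) := inferInstance
  refine Pool.Agent.Lib.MP_6a3dac_ag.exists_model (hGr p) hLG hRf fun P => ?_
  intro hS y hy hyh hirr
  let F := FractionRing (HCoord p)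
  let ι : HCoord p →+* F := algebraMap (HCoord p) F
  have hι : Function.Injective ι := IsFractionRing.injective (HCoord p) F
  apply isRegularLocalRing_of_homLoc (hGr p) ι _ y hι hS
  have hOK : Function.Injective (algebraMap (locRing E P) E) :=
    FaithfulSMul.algebraMap_injective _ E
  have hrel : ∃ k, 0 < k ∧ ∃ t : localOrder (fun P => DNF.WSet (fun k => hMk p (X k))
      (oset (piS (hMk p) (locRing E P)) δ (GP P) (algebraMap (𝓞 E) (HCoord p) (ϖ P))) (r P) ∪
        DNF.W1Set (fun k => hMk p (X k)) (algebraMap (𝓞 E) (HCoord p) (ϖ P)) (r P)) P,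
      (t : HCoord p) ∈ hGr p k ∧ t ∉ y := by
    by_contra hcon
    push Not at hcon
    apply hirr
    rw [HomogeneousIdeal.toIdeal_irrelevant_le]
    intro i hi s hs
    exact hcon i hi s hs
  have hT : localOrder (fun P => DNF.WSet (fun k => hMk p (X k))
      (oset (piS (hMk p) (locRing E P)) δ (GP P) (algebraMap (𝓞 E) (HCoord p) (ϖ P))) (r P) ∪
        DNF.W1Set (fun k => hMk p (X k)) (algebraMap (𝓞 E) (HCoord p) (ϖ P)) (r P)) P =
      locSub P.asIdeal (Algebra.adjoin (𝓞 E)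
        (DNF.WSet (fun k => piS (hMk p) (locRing E P) (X k))
          (oset (piS (hMk p) (locRing E P)) δ (GP P) (oA E (HCoord p) (locRing E P)
            (algebraMap (𝓞 E) (locRing E P) (ϖ P)))) (r P) ∪
        DNF.W1Set (fun k => piS (hMk p) (locRing E P) (X k)) (oA E (HCoord p) (locRing E P)
            (algebraMap (𝓞 E) (locRing E P) (ϖ P))) (r P))) := by
    rw [hxP, hoA]
    rfl
  have hlocD := isLocalRing_homLoc (hGr p) ι _ y hι
  obtain ⟨i, φ, b, h1, h2, h3, h4⟩ := exists_chartPoint (R := 𝓞 E) (K := E) hOK P.asIdeal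
    (𝒜 := hGr p) (π := piS (hMk p) (locRing E P)) (hdeg _) (fun c => piS_C (hMk p) _ c) hδ
    (hGPδ P) ι hι (algebraMap (𝓞 E) (locRing E P) (ϖ P)) (r P) hT y hy hrel
  have hi : X i ∉ p.ideal := by
    intro h5
    apply h1
    rw [piS_X, hMk_eq_zero]
    exact h5
  have hφ : ∀ q, φ q = 0 ↔ MvPolynomial.map (algebraMap (locRing E P) E) q ∈ dId p i := by
    intro q
    obtain ⟨N, g, hg, rfl⟩ := exists_homog i q
    rw [h2 N g hg, piS_apply, hMk_eq_zero, map_dehom', dehom_mem_iff p hprime hi (hg.map _)]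
  have hpimage : ∀ w, (∃ g ∈ GP P, w = φ (dehom i g)) ↔ ∃ g ∈ G,
      w = φ (MvPolynomial.map (algebraMap (𝓞 E) (locRing E P)) (dehom i g)) := by
    intro w
    rw [hGP]
    constructor
    · rintro ⟨g, hg, rfl⟩
      obtain ⟨g', hg', rfl⟩ := Finset.mem_image.mp hg
      exact ⟨g', hg', by rw [map_dehom']⟩
    · rintro ⟨g, hg, rfl⟩
      exact ⟨_, Finset.mem_image_of_mem _ hg, by rw [map_dehom']⟩
  by_cases hPt : TotReg I P a
  · refine regular_of_totReg hLD hp P hi φ hφ hreg hm₀ h𝒰 hsm hPt ?_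
    have hr0' : r P = 0 := (hr P).1 hPt
    exact h4 _ (dom_locIn φ) le_rfl fun j hj1 hj2 => by omega
  · obtain ⟨hmP, hN⟩ := (hP P).resolve_left hPt
    have hrP : r P = rr P := (hr P).2 hPt
    refine regular_of_nodal hLD hp P hi φ hφ hreg hI hd hmP h𝒰 hm hN (hϖ P) (r := r P) (hu1 P)
      (by rw [hrP]; exact hu2 P) hG1 hG2 b ?_ ?_
    · intro j hj1 hj2
      obtain ⟨a1, a2, a3, a4⟩ := h3 j hj1 hj2
      refine ⟨a1, a2, ?_, ?_⟩
      · intro g hg
        obtain ⟨g', hg', h5⟩ := (hpimage _).mpr ⟨g, hg, rfl⟩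
        rw [h5]
        exact a3 g' hg'
      · have h5 : ((fun g => φ (MvPolynomial.map (algebraMap (𝓞 E) (locRing E P)) (dehom i g))) ''
          (G : Set (MvPolynomial (Fin (n + 1)) (𝓞 E)))) =
            ((fun g => φ (dehom i g)) '' (GP P : Set _)) := by
          ext w
          constructor
          · rintro ⟨g, hg, rfl⟩
            obtain ⟨g', hg', h5⟩ := (hpimage _).mpr ⟨g, hg, rfl⟩
            exact ⟨g', hg', h5.symm⟩
          · rintro ⟨g, hg, rfl⟩
            obtain ⟨g', hg', h5⟩ := (hpimage _).mp ⟨g, hg, rfl⟩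
            exact ⟨g', hg', h5.symm⟩
        rw [h5]
        exact a4
    · intro R' hR1 hR2 hR3
      refine h4 R' hR1 hR2 fun j hj1 hj2 w hw => hR3 j hj1 hj2 w ?_
      rcases hw with hw | ⟨g, hg, hw⟩
      · exact Or.inl hw
      · obtain ⟨g', hg', h5⟩ := (hpimage _).mp ⟨g, hg, rfl⟩
        exact Or.inr ⟨g', hg', hw.trans h5⟩

/-- **The local criterion.** -/
theorem hasModel_of_local {E : Type} [Field E] [NumberField E] {n d m : ℕ}
    (I : HomIdeal (𝓞 E) (n + 1)) (hI : I.ideal.IsPrime) (h0 : ∀ c : 𝓞 E, C c ∈ I.ideal → c = 0)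
    (hX : ∃ i, X i ∉ I.ideal)
    (hreg : ∀ y : hProj I, IsRegularLocalRing ((hProj I).presheaf.stalk y))
    (hdim : ∀ y ∈ closedPoints (hProj I), ringKrullDim ((hProj I).presheaf.stalk y) = m)
    (𝒰 : Charts (𝓞 E) n) {m₀ : 𝓞 E} (hm₀ : m₀ ≠ 0) (h𝒰 : 𝒰.For I m₀) (hd : 1 ≤ d)
    (a : Mono n d → 𝓞 E) (hsm : SmoothIn 𝒰 I a)
    (hP : ∀ P : HeightOneSpectrum (𝓞 E), TotReg I P a ∨ (m₀ ∉ P.asIdeal ∧ NodalAt 𝒰 I P a)) :
    HasModel I a := by
  have _ := h0
  have _ := hX
  have _ := hdim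
  refine ⟨smooth_secIdeal hm₀ h𝒰 hsm, ?_⟩
  have hLD : ∀ i, LocDom (dId (secIdeal I E a) i) := fun i =>
    locDom_secIdeal hreg hm₀ h𝒰 hsm i
  obtain ⟨τ, _, p, f, h1, h2, h3, h4, h5, h6⟩ := exists_components (secIdeal I E a) hLD
  refine HasRegularModel.of_finite f h4 h5 h6 fun j => ?_
  rw [h3 j]
  exact hasRegularModel_component hLD (h1 j) hreg hI hd hm₀ h𝒰 hsm hP

end Pool.Agent.Lib.MP_6a3dac_ag.Bert
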