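import Pool.Agent.Lib.MP_6a3dac_ag.Bert.Local
import Pool.Agent.Lib.MP_6a3dac_ag.Bert.Final

/-!
# Hypersurface sections of regular projective schemes
-/

set_option autoImplicit false

namespace Pool.Agent.Lib.MP_6a3dac_ag.Bert

open MvPolynomial CategoryTheory Limits AlgebraicGeometry NumberField IsDedekindDomain Filter
open Pool.Agent.Lib.MP_6a3dac_ag.DNF Pool.Agent.Lib.MP_6a3dac_ag.Maj
open Pool.Agent.Lib.MP_6a3dac_ag.Sys

open Classical in
/-- The proportion of the families with the property `S` among the families of elements of `B` whose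
coordinates in the basis `b` are at most `H` in absolute value. -/
noncomputable def proportion {ι B : Type} [Fintype ι] [DecidableEq ι] [CommRing B] {s : ℕ}
    (b : Module.Basis (Fin s) ℤ B) (S : (ι → B) → Prop) (H : ℕ) : ℝ :=
  (((box (ι × Fin s) H).filter fun u => S (DNF.coeffs b u)).card : ℝ) / (box (ι × Fin s) H).card

/-- The proportion of the forms of degree `d` over `𝓞_E` such that the section of the generic fibre
of `Proj 𝓞_E[x] / I` is smooth and has a regular model, among the forms with coordinates at most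
`H` in absolute value in the basis `b`. -/
noncomputable def modelProportion {E : Type} [Field E] [NumberField E] {s n : ℕ}
    (b : Module.Basis (Fin s) ℤ (𝓞 E)) (I : HomIdeal (𝓞 E) (n + 1)) (d H : ℕ) : ℝ :=
  proportion b (fun a : Mono n d → 𝓞 E => HasModel I a) H

/-- The homogeneous ideal `I` is prime, it does not contain all the variables, and it does not
contain a nonzero constant. -/
structure IsFlatPrime {O : Type} [CommRing O] {n : ℕ} (I : HomIdeal O n) : Prop where
  /-- the ideal is prime -/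
  prime : I.ideal.IsPrime
  /-- it does not contain all the variables -/
  var : ∃ i, X i ∉ I.ideal
  /-- it does not contain a nonzero constant -/
  const : ∀ c : O, C c ∈ I.ideal → c = 0

/-- All local rings of `X` are regular, and those at the closed points have dimension `m`. -/
def RegularOfDim (X : Scheme.{0}) (m : ℕ) : Prop :=
  (∀ y : X, IsRegularLocalRing (X.presheaf.stalk y)) ∧
    ∀ y ∈ closedPoints X, ringKrullDim (X.presheaf.stalk y) = m

/-- The product of `1 - N(y) ^ (-(m + 1))` over the closed points `y` of `X` converges. -/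
def EulerConverges (X : Scheme.{0}) (m : ℕ) : Prop :=
  Multipliable fun y : closedPoints X => ptFactor m y.1

/-- The product of `1 - N(y) ^ (-(m + 1))` over the closed points `y` of `X`. -/
noncomputable def eulerProduct (X : Scheme.{0}) (m : ℕ) : ℝ :=
  ∏' y : closedPoints X, ptFactor m y.1

/-- The charts exist. -/
theorem exists_charts {E : Type} [Field E] [NumberField E] {n : ℕ} (I : HomIdeal (𝓞 E) (n + 1))
    (hreg : ∀ y : hProj I, IsRegularLocalRing ((hProj I).presheaf.stalk y)) :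
    ∃ (𝒰 : Charts (𝓞 E) n) (m₀ : 𝓞 E), m₀ ≠ 0 ∧ 𝒰.For I m₀ := by
  classical
  have hcov : ∀ i : Fin (n + 1), ∃ (τ : Type) (_ : Fintype τ)
      (U : τ → Std (𝓞 E) {l : Fin (n + 1) // l ≠ i}) (m₀ : 𝓞 E), m₀ ≠ 0 ∧
      (∀ t, (U t).For (dId I i)) ∧
      C m₀ ∈ dId I i ⊔ Ideal.span (Set.range fun t => (U t).h) := by
    intro i
    refine exists_cover (K := E) fun 𝔭 hp hI h0 => ?_
    obtain ⟨y, hy⟩ := exists_pt I i hp hI
    obtain ⟨f, hf⟩ := hy.exists_isLocAt I
    exact ⟨_, _, f, hf, hreg y⟩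
  choose τ hτ U m₀ h1 h2 h3 using hcov
  refine ⟨⟨τ, U⟩, ∏ i, m₀ i, Finset.prod_ne_zero_iff.mpr fun i _ => h1 i, ⟨h2, fun i => ?_⟩⟩
  rw [← Finset.mul_prod_erase _ _ (Finset.mem_univ i), map_mul]
  exact Ideal.mul_mem_right _ _ (h3 i)

/-- The hypotheses in terms of the affine charts. -/
theorem hyp_of_scheme {E : Type} [Field E] [NumberField E] {n m : ℕ}
    {I : HomIdeal (𝓞 E) (n + 1)} (hI : I.ideal.IsPrime) (h0 : ∀ c : 𝓞 E, C c ∈ I.ideal → c = 0)
    (hreg : ∀ y : hProj I, IsRegularLocalRing ((hProj I).presheaf.stalk y))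
    (hdim : ∀ y ∈ closedPoints (hProj I), ringKrullDim ((hProj I).presheaf.stalk y) = m)
    (hm : 1 ≤ m) {𝒰 : Charts (𝓞 E) n} {m₀ : 𝓞 E} (hm₀ : m₀ ≠ 0) (h𝒰 : 𝒰.For I m₀) :
    Hyp I m 𝒰 m₀ where
  prime := hI
  inj := h0
  ne := hm₀
  one_le := hm
  charts := h𝒰
  loc := by
    intro i 𝔮 h𝔮 hI𝔮
    obtain ⟨y, hy⟩ := exists_pt I i h𝔮 hI𝔮
    obtain ⟨f, hf⟩ := hy.exists_isLocAt I
    exact ⟨_, _, f, hf, hreg y, fun hmax => hdim y (hy.mem_closedPoints_iff.mpr hmax)⟩

/-- **Most hypersurface sections have regular models.** -/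
theorem bertini (E : Type) [Field E] [NumberField E] (s : ℕ) (b : Module.Basis (Fin s) ℤ (𝓞 E))
    (n m : ℕ) (hm : 1 ≤ m) (I : HomIdeal (𝓞 E) (n + 1)) (hI : IsFlatPrime I)
    (hR : RegularOfDim (hProj I) m) :
    EulerConverges (hProj I) m ∧ 0 < eulerProduct (hProj I) m ∧
    ∀ ε : ℝ, 0 < ε → ∃ d₀ : ℕ, ∀ d : ℕ, d₀ ≤ d → ∀ᶠ H : ℕ in atTop,
      eulerProduct (hProj I) m - ε ≤ modelProportion b I d H := by
  obtain ⟨hI, hX, h0⟩ := hI
  obtain ⟨hreg, hdim⟩ := hR
  obtain ⟨𝒰, m₀, hm₀, h𝒰⟩ := exists_charts I hreg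
  have h := hyp_of_scheme hI h0 hreg hdim hm hm₀ h𝒰
  obtain ⟨h1, h2, -⟩ := bert_prod h
  refine ⟨h1, h2, fun ε hε => ?_⟩
  obtain ⟨d₀, h3⟩ := bert_density b h hε
  refine ⟨max d₀ 1, fun d hd => ?_⟩
  filter_upwards [h3 d ((le_max_left _ _).trans hd)] with H hH
  refine hH.trans ?_
  have h4 : prop (fun u : Mono n d × Fin s → ℤ => Good 𝒰 I m₀ (coeffs b u)) H ≤
      prop (fun u : Mono n d × Fin s → ℤ => HasModel I (coeffs b u)) H :=
    prop_mono (fun u hu => hasModel_of_local I hI h0 hX hreg hdim 𝒰 hm₀ h𝒰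
      ((le_max_right _ _).trans hd) _ hu.1 hu.2) H
  refine h4.trans (le_of_eq ?_)
  rw [Sys.prop, modelProportion, proportion]

end Pool.Agent.Lib.MP_6a3dac_ag.Bert
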