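import Pool.Agent.Lib.MP_6a3dac_ag.Bert.Geo
import Pool.Agent.Lib.MP_6a3dac_ag.Mg.G068

/-!
# Forms with many critical points on a chart over a finite field are rare
-/

set_option autoImplicit false

namespace Pool.Agent.Lib.MP_6a3dac_ag.Bert

open MvPolynomial
open Pool.Agent.Lib.MP_6a3dac_ag.DNF Pool.Agent.Lib.MP_6a3dac_ag.Maj

/-- The bound for the number of points. -/
def bnd (n D : ℕ) : ℕ := ((n + 1) * D + 1) ^ ((n + 1) ^ 2)

namespace Std

variable {k Ω : Type} [Field k] [Field Ω] [Algebra k Ω]

theorem c1_card_sub {n : ℕ} (i : Fin (n + 1)) :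
    Fintype.card {l : Fin (n + 1) // l ≠ i} = n := by
  rw [Fintype.card_subtype_compl, Fintype.card_fin]
  simp

/-- As `card_decouple` of Maj/FinProb.lean: add `∑ j, c j * X e ^ j` (`j ∈ i6_S k d`) to
the dehomogenized form; by `vf_X`, `vf e'` of the sum is `0` for `e' ∈ A`, and `vf e` of it is
`Δ * ∑ j, c j * j * X e ^ (j - 1)`. Use `i6_count`, `i6_indep`, `card_zset`. -/
theorem decouple [Finite k] [IsAlgClosed Ω] {n d : ℕ} (hd : 1 ≤ d) (i : Fin (n + 1))
    (U : Std k {l : Fin (n + 1) // l ≠ i}) {τ : Option {l : Fin (n + 1) // l ≠ i} → Ω}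
    (hτ : AlgebraicIndependent k τ) {A I : Finset {l : Fin (n + 1) // l ≠ i}} (hA : A ⊆ U.T)
    (hI : I ⊆ U.T) {e : {l : Fin (n + 1) // l ≠ i}} (heA : e ∉ A) (heI : e ∈ I)
    (hAI : A.card + I.card = U.T.card) {D : ℕ} (hD : U.deg + d ≤ D) :
    Nat.card {a : Mono n d → k // (U.zset τ (dF a i) A I).Finite ∧
        (U.zset τ (dF a i) (insert e A) I).Nonempty} * Nat.card k ^ ((d + 1) / 2) ≤
      bnd n D * Nat.card (Mono n d → k) := by
  classical
  have _ := hd
  have _ := hA
  have heT : e ∈ U.T := hI heI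
  have hv : ∀ j : i6_S k d, ∃ v : Mono n d → k, dehom i (form v) = X e ^ (j : ℕ) := fun j =>
    i6_exists_v i e (i6_mem_S.mp j.2).1.2
  choose v hv using hv
  set P : (i6_S k d → k) → (Mono n d → k) := fun c => ∑ j, c j • v j with hP
  have hF : ∀ (b : Mono n d → k) (c : i6_S k d → k), dF (b - P c) i =
      dF b i - ∑ j : i6_S k d, C (c j) * X e ^ (j : ℕ) := by
    intro b c
    unfold dF
    rw [i6_form_sub, hP, i6_form_sum, map_sub, map_sum]
    congr 1
    refine Finset.sum_congr rfl fun j _ => ?_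
    rw [map_mul, dehom_C, hv]
  have hvfp : ∀ (e' : {l : Fin (n + 1) // l ≠ i}) (a : k) (j : ℕ),
      U.vf e' (C a * X e ^ j) = C a * ((j : MvPolynomial _ k) * X e ^ (j - 1) *
        (if e' = e then U.Δ else 0)) := by
    intro e' a j
    rw [Derivation.leibniz, Derivation.leibniz_pow, U.vf_X e' heT]
    have h0 : U.vf e' (C a) = 0 := by
      rw [← algebraMap_eq]
      exact (U.vf e').map_algebraMap a
    rw [h0, smul_zero, add_zero, smul_eq_mul, smul_eq_mul, nsmul_eq_mul]
    ring
  have hne : ∀ (b : Mono n d → k) (c : i6_S k d → k) (e' : {l : Fin (n + 1) // l ≠ i}), e' ≠ e →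
      U.vf e' (dF (b - P c) i) = U.vf e' (dF b i) := by
    intro b c e' he'
    rw [hF, map_sub, map_sum, sub_eq_self]
    refine Finset.sum_eq_zero fun j _ => ?_
    rw [hvfp, if_neg he', mul_zero, mul_zero]
  have heq : ∀ (b : Mono n d → k) (c : i6_S k d → k) (z : {l : Fin (n + 1) // l ≠ i} → Ω),
      aeval z (U.vf e (dF (b - P c) i)) = aeval z (U.vf e (dF b i)) -
        (∑ j : i6_S k d, algebraMap k Ω (c j) * ((j : ℕ) * z e ^ ((j : ℕ) - 1))) *
          aeval z U.Δ := by
    intro b c z
    rw [hF, map_sub, map_sub, map_sum, map_sum, Finset.sum_mul]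
    congr 1
    refine Finset.sum_congr rfl fun j _ => ?_
    rw [hvfp, if_pos rfl, map_mul, map_mul, map_mul, map_natCast, map_pow, aeval_X, aeval_C]
    ring
  have hZ : ∀ (b : Mono n d → k) (c : i6_S k d → k),
      U.zset τ (dF (b - P c) i) A I = U.zset τ (dF b i) A I := by
    intro b c
    ext z
    refine and_congr Iff.rfl (and_congr (forall₂_congr fun e' he' => ?_) Iff.rfl)
    rw [hne b c e' (fun h => heA (h ▸ he'))]
  have key := i6_count P {a : Mono n d → k | (U.zset τ (dF a i) A I).Finite ∧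
        (U.zset τ (dF a i) (insert e A) I).Nonempty} (bnd n D) (by
    intro b
    by_cases hfin : (U.zset τ (dF b i) A I).Finite
    · have hcz := U.card_zset τ (dF b i) hAI (D := D)
        ((Nat.add_le_add_left (i6_totalDegree_dehom i b) _).trans hD) hfin
      rw [c1_card_sub] at hcz
      refine le_trans ?_ hcz
      have hmem : ∀ c : {c : i6_S k d → k // b - P c ∈ {a : Mono n d → k |
          (U.zset τ (dF a i) A I).Finite ∧
            (U.zset τ (dF a i) (insert e A) I).Nonempty}},
          ∃ z : {l : Fin (n + 1) // l ≠ i} → Ω,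
            z ∈ U.zset τ (dF (b - P c.1) i) (insert e A) I := fun c => c.2.2
      choose z hz using hmem
      have hzZ : ∀ c, z c ∈ U.zset τ (dF b i) A I := fun c => by
        rw [← hZ b c.1]
        exact ⟨(hz c).1, fun e' he' => (hz c).2.1 e' (Finset.mem_insert_of_mem he'), (hz c).2.2⟩
      have := hfin.to_subtype
      rw [← Nat.card_coe_set_eq]
      refine Nat.card_le_card_of_injective
        (fun c => (⟨z c, hzZ c⟩ : U.zset τ (dF b i) A I)) ?_
      intro c c' hcc
      have h1 : z c = z c' := congrArg Subtype.val hcc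
      have h2 := (hz c).2.1 e (Finset.mem_insert_self _ _)
      have h3 := (hz c').2.1 e (Finset.mem_insert_self _ _)
      have hΔ : aeval (z c) U.Δ ≠ 0 := by
        intro h0
        apply (hz c).1.2
        unfold Std.h
        rw [map_mul, h0, mul_zero]
      rw [heq] at h2 h3
      rw [← h1] at h3
      have h4 : z c e = τ (some e) := (hz c).2.2 e heI
      rw [h4] at h2 h3
      have h5 : ∑ j : i6_S k d, algebraMap k Ω ((c.1 - c'.1) j) *
          ((j : ℕ) * τ (some e) ^ ((j : ℕ) - 1)) = 0 := by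
        have h6 : ∑ j : i6_S k d, algebraMap k Ω ((c.1 - c'.1) j) *
            ((j : ℕ) * τ (some e) ^ ((j : ℕ) - 1)) =
            (∑ j : i6_S k d, algebraMap k Ω (c.1 j) *
              ((j : ℕ) * τ (some e) ^ ((j : ℕ) - 1))) -
            ∑ j : i6_S k d, algebraMap k Ω (c'.1 j) *
              ((j : ℕ) * τ (some e) ^ ((j : ℕ) - 1)) := by
          rw [← Finset.sum_sub_distrib]
          refine Finset.sum_congr rfl fun j _ => ?_
          rw [Pi.sub_apply, map_sub, sub_mul]
        rw [h6]
        have h7 : ((∑ j : i6_S k d, algebraMap k Ω (c.1 j) *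
              ((j : ℕ) * τ (some e) ^ ((j : ℕ) - 1))) -
            ∑ j : i6_S k d, algebraMap k Ω (c'.1 j) *
              ((j : ℕ) * τ (some e) ^ ((j : ℕ) - 1))) * aeval (z c) U.Δ = 0 := by
          linear_combination h3 - h2
        exact (mul_eq_zero.mp h7).resolve_right hΔ
      have h6 := i6_indep (hτ.transcendental (some e)) _ h5
      exact Subtype.ext (sub_eq_zero.mp h6)
    · have hempty : IsEmpty {c : i6_S k d → k // b - P c ∈ {a : Mono n d → k |
          (U.zset τ (dF a i) A I).Finite ∧
            (U.zset τ (dF a i) (insert e A) I).Nonempty}} := by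
        refine ⟨fun c => hfin ?_⟩
        have := c.2.1
        rwa [hZ] at this
      rw [Nat.card_of_isEmpty]
      exact Nat.zero_le _)
  refine le_trans (Nat.mul_le_mul_left _ ?_) key
  rw [Nat.card_fun, Nat.card_eq_fintype_card (α := i6_S k d), Fintype.card_coe]
  exact Nat.pow_le_pow_right Nat.card_pos (i6_card_S k d)

/-- As `i7_step` of Maj/FinProb.lean, with `σ` replaced by `T`. -/
theorem step [Finite k] [IsAlgClosed Ω] {n d : ℕ} (hd : 1 ≤ d) (i : Fin (n + 1))
    (U : Std k {l : Fin (n + 1) // l ≠ i}) {τ : Option {l : Fin (n + 1) // l ≠ i} → Ω}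
    (hτ : AlgebraicIndependent k τ) {D : ℕ} (hD : U.deg + d ≤ D) (m : ℕ) :
    ∀ A I : Finset {l : Fin (n + 1) // l ≠ i}, A ⊆ U.T → I ⊆ U.T →
      A.card + I.card = U.T.card + 1 → 1 ≤ I.card → I.card + m = U.T.card →
      Nat.card {a : Mono n d → k // (U.zset τ (dF a i) A I).Nonempty} *
        Nat.card k ^ ((d + 1) / 2) ≤
        U.T.card ^ m * bnd n D * Nat.card (Mono n d → k) := by
  classical
  induction m with
  | zero =>
    intro A I hA hI h1 h2 h3
    have hIT : I = U.T := Finset.eq_of_subset_of_card_le hI (by omega)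
    obtain ⟨e, he⟩ : ∃ e, e ∈ A := by
      have : 0 < A.card := by omega
      exact Finset.card_pos.mp this
    have heI : e ∈ I := by rw [hIT]; exact hA he
    have h4 := decouple hd i U hτ ((Finset.erase_subset e A).trans hA) hI
      (Finset.notMem_erase e A) heI (by
      rw [Finset.card_erase_of_mem he]
      have : 0 < A.card := Finset.card_pos.mpr ⟨e, he⟩
      omega) hD
    rw [Finset.insert_erase he] at h4
    rw [pow_zero, one_mul]
    refine le_trans (Nat.mul_le_mul_right _ ?_) h4
    refine Nat.card_le_card_of_injective (fun a => ⟨a.1, ?_, a.2⟩) ?_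
    · refine (U.card_fibre (fun l => τ (some l))).1.subset ?_
      rintro z ⟨hz1, _, hz⟩
      exact ⟨hz1, fun l hl => hz l (by rw [hIT]; exact hl)⟩
    · intro a a' haa
      simp only [Subtype.mk.injEq] at haa
      exact Subtype.ext haa
  | succ m ih =>
    intro A I hA hI h1 h2 h3
    obtain ⟨e, heA, heI⟩ : ∃ e, e ∈ A ∧ e ∈ I := by
      by_contra hcon
      push Not at hcon
      have h4 : Disjoint A I := Finset.disjoint_left.mpr hcon
      have h5 := Finset.card_union_of_disjoint h4
      have h6 := Finset.card_le_card (Finset.union_subset hA hI)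
      omega
    have hA0 : 0 < A.card := Finset.card_pos.mpr ⟨e, heA⟩
    have hA' : (A.erase e).card + I.card = U.T.card := by
      rw [Finset.card_erase_of_mem heA]
      omega
    have hAe : A.erase e ⊆ U.T := (Finset.erase_subset e A).trans hA
    have h4 := decouple hd i U hτ hAe hI (Finset.notMem_erase e A) heI hA' hD
    rw [Finset.insert_erase heA] at h4
    have h5 : Nat.card {a : Mono n d → k // (U.zset τ (dF a i) A I).Nonempty} ≤
        Nat.card {a : Mono n d → k // (U.zset τ (dF a i) (A.erase e) I).Finite ∧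
          (U.zset τ (dF a i) A I).Nonempty} +
        Nat.card {a : Mono n d → k // ∃ j ∈ U.T \ I,
          (U.zset τ (dF a i) (A.erase e) (insert j I)).Nonempty} := by
      refine i7_or _ _ _ fun a ha => ?_
      by_cases hfin : (U.zset τ (dF a i) (A.erase e) I).Finite
      · exact Or.inl ⟨hfin, ha⟩
      · obtain ⟨j, hjT, hj, hj'⟩ := U.exists_insert hτ (dF a i) (A.erase e) hI hfin
        exact Or.inr ⟨j, Finset.mem_sdiff.mpr ⟨hjT, hj⟩, hj'⟩
    have h6 : Nat.card {a : Mono n d → k // ∃ j ∈ U.T \ I,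
          (U.zset τ (dF a i) (A.erase e) (insert j I)).Nonempty} ≤
        ∑ j ∈ U.T \ I, Nat.card {a : Mono n d → k //
          (U.zset τ (dF a i) (A.erase e) (insert j I)).Nonempty} :=
      i7_union _ _ _ fun a ha => ha
    have h7 : (∑ j ∈ U.T \ I, Nat.card {a : Mono n d → k //
          (U.zset τ (dF a i) (A.erase e) (insert j I)).Nonempty}) *
            Nat.card k ^ ((d + 1) / 2) ≤
        (m + 1) * (U.T.card ^ m * bnd n D * Nat.card (Mono n d → k)) := by
      rw [Finset.sum_mul]
      have h8 : (U.T \ I).card = m + 1 := by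
        rw [Finset.card_sdiff_of_subset hI]
        omega
      rw [← h8, ← smul_eq_mul (a := (U.T \ I).card)]
      refine Finset.sum_le_card_nsmul _ _ _ fun j hj => ?_
      obtain ⟨hjT, hj'⟩ := Finset.mem_sdiff.mp hj
      refine ih (A.erase e) (insert j I) hAe ?_ ?_ ?_ ?_
      · rw [Finset.insert_subset_iff]
        exact ⟨hjT, hI⟩
      · rw [Finset.card_insert_of_notMem hj']
        omega
      · rw [Finset.card_insert_of_notMem hj']
        omega
      · rw [Finset.card_insert_of_notMem hj']
        omega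
    set M := bnd n D * Nat.card (Mono n d → k) with hM
    have h9 : 1 + (m + 1) * U.T.card ^ m ≤ U.T.card ^ (m + 1) := by
      have h10 : m + 1 + 1 ≤ U.T.card := by omega
      have h11 : 1 ≤ U.T.card ^ m := Nat.one_le_pow _ _ (by omega)
      calc 1 + (m + 1) * U.T.card ^ m ≤ U.T.card ^ m + (m + 1) * U.T.card ^ m := by omega
        _ = (m + 1 + 1) * U.T.card ^ m := by ring
        _ ≤ U.T.card * U.T.card ^ m := Nat.mul_le_mul_right _ h10
        _ = U.T.card ^ (m + 1) := by ring
    calc _ ≤ (Nat.card {a : Mono n d → k // (U.zset τ (dF a i) (A.erase e) I).Finite ∧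
          (U.zset τ (dF a i) A I).Nonempty} +
          ∑ j ∈ U.T \ I, Nat.card {a : Mono n d → k //
          (U.zset τ (dF a i) (A.erase e) (insert j I)).Nonempty}) *
            Nat.card k ^ ((d + 1) / 2) :=
          Nat.mul_le_mul_right _ (h5.trans (Nat.add_le_add_left h6 _))
      _ ≤ M + (m + 1) * (U.T.card ^ m * bnd n D * Nat.card (Mono n d → k)) := by
          rw [add_mul]
          exact add_le_add h4 h7
      _ = (1 + (m + 1) * U.T.card ^ m) * M := by rw [hM]; ring
      _ ≤ U.T.card ^ (m + 1) * M := Nat.mul_le_mul_right _ h9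
      _ = _ := by rw [hM]; ring

end Std

/-- With `τ` in a suitable `Ω` (`i7_exists_alg`): if `zset τ f T ∅` is infinite, by
`exists_insert` some `zset τ f T {j}` is nonempty; so `T` is nonempty, and `step` with `A = T`,
`I = {j}`, `m = card T - 1` applies. If it is finite, `card_critIdeals` and `card_zset`
(`A = T`, `I = ∅`) bound the number of the critical ideals by `bnd n D`. Also
`card T ≤ n`. -/
theorem card_crit {k : Type} [Field k] [Finite k] {n d : ℕ} (hd : 1 ≤ d) (i : Fin (n + 1))
    (U : Std k {l : Fin (n + 1) // l ≠ i}) {D : ℕ} (hD : U.deg + d ≤ D) :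
    Nat.card {a : Mono n d → k // ¬ ((U.critIdeals (dF a i)).Finite ∧
        (U.critIdeals (dF a i)).ncard ≤ bnd n D)} * Nat.card k ^ ((d + 1) / 2) ≤
      n ^ n * bnd n D * Nat.card (Mono n d → k) := by
  classical
  obtain ⟨Ω, _, _, _, τ, hτ⟩ := i7_exists_alg k (Option {l : Fin (n + 1) // l ≠ i})
  have hcard : Fintype.card {l : Fin (n + 1) // l ≠ i} = n := by
    rw [Fintype.card_subtype_compl, Fintype.card_fin]
    simp
  have h1 : Nat.card {a : Mono n d → k // ¬ ((U.critIdeals (dF a i)).Finite ∧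
        (U.critIdeals (dF a i)).ncard ≤ bnd n D)} ≤
      ∑ j ∈ U.T, Nat.card {a : Mono n d → k // (U.zset τ (dF a i) U.T {j}).Nonempty} := by
    refine i7_union _ _ _ fun a ha => ?_
    by_cases hfin : (U.zset τ (dF a i) U.T ∅).Finite
    · exfalso
      apply ha
      have h2 := U.card_critIdeals τ (dF a i) hfin
      have h3 := U.card_zset τ (dF a i) (A := U.T) (I := ∅) (by simp) (D := D)
        ((Nat.add_le_add_left (i6_totalDegree_dehom i a) _).trans hD) hfin
      rw [hcard] at h3
      exact ⟨h2.1, h2.2.trans h3⟩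
    · obtain ⟨j, hjT, _, hj⟩ := U.exists_insert hτ (dF a i) U.T (Finset.empty_subset _) hfin
      exact ⟨j, hjT, hj⟩
  refine (Nat.mul_le_mul_right _ h1).trans ?_
  rw [Finset.sum_mul]
  have h2 : ∀ j ∈ U.T, Nat.card {a : Mono n d → k // (U.zset τ (dF a i) U.T {j}).Nonempty} *
        Nat.card k ^ ((d + 1) / 2) ≤
      U.T.card ^ (U.T.card - 1) * bnd n D * Nat.card (Mono n d → k) := fun j hj => by
    have hpos : 0 < U.T.card := Finset.card_pos.mpr ⟨j, hj⟩
    exact Std.step hd i U hτ hD (U.T.card - 1) U.T {j} (Finset.Subset.refl _)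
      (Finset.singleton_subset_iff.mpr hj) (by rw [Finset.card_singleton])
      (by rw [Finset.card_singleton]) (by rw [Finset.card_singleton]; omega)
  refine (Finset.sum_le_card_nsmul _ _ _ h2).trans ?_
  rw [smul_eq_mul]
  rcases Nat.eq_zero_or_pos U.T.card with h0 | hpos
  · rw [h0, zero_mul]
    exact Nat.zero_le _
  · have hTn : U.T.card ≤ n := (Finset.card_le_univ _).trans_eq hcard
    have h3 : U.T.card * U.T.card ^ (U.T.card - 1) ≤ n ^ n := by
      rw [← pow_succ', Nat.sub_add_cancel hpos]
      exact (Nat.pow_le_pow_left hTn _).trans (Nat.pow_le_pow_right (by omega) hTn)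
    calc U.T.card * (U.T.card ^ (U.T.card - 1) * bnd n D * Nat.card (Mono n d → k)) =
        (U.T.card * U.T.card ^ (U.T.card - 1)) * (bnd n D * Nat.card (Mono n d → k)) := by ring
      _ ≤ n ^ n * (bnd n D * Nat.card (Mono n d → k)) := Nat.mul_le_mul_right _ h3
      _ = _ := by ring

end Pool.Agent.Lib.MP_6a3dac_ag.Bert
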